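import Pool.Agent.Lib.MP_d98eb9_al.TA.St

/-! Block CE: equivariance of the canonical functions. -/

namespace Pool.Agent.PD3A

open scoped NNReal Classical

variable {E I : Type}

theorem ce_wt (g : E ≃ E) (w : E → ℤ) (m : Option E →₀ ℕ) :
    wt (w ∘ g.symm) (m.mapDomain (Option.map g)) = wt w m := by
  unfold wt
  rw [Finsupp.sum_mapDomain_index (by simp) (by intro b m1 m2; push_cast; ring)]
  refine Finsupp.sum_congr fun o _ => ?_
  cases o <;> simp

theorem ce_inj (g : E ≃ E) : Function.Injective (Option.map g) := Option.map_injective g.injective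

theorem ce_nrm (g : E ≃ E) (w : E → ℤ) (p : P E) :
    nrm (w ∘ g.symm) (MvPolynomial.rename (Option.map g) p) = nrm w p := by
  unfold nrm
  rw [MvPolynomial.support_rename_of_injective (ce_inj g), Finset.sup_image]
  refine Finset.sup_congr rfl fun m _ => ?_
  simp only [Function.comp, ce_wt]

theorem ce_apply (g : E ≃ E) (h : I ≃ I) (y : I →₀ P E) (i : I) :
    ren g h y i = MvPolynomial.rename (Option.map g) (y (h.symm i)) := by
  simp [ren]

theorem ce_vn (g : E ≃ E) (h : I ≃ I) (w : E → ℤ) (y : I →₀ P E) :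
    vn (w ∘ g.symm) (ren g h y) = vn w y := by
  unfold vn
  have hs : (ren g h y).support = y.support.image h := by
    ext i
    simp only [Finsupp.mem_support_iff, ce_apply, Finset.mem_image]
    constructor
    · intro hi
      exact ⟨h.symm i, fun h0 => hi (by rw [h0, map_zero]), by simp⟩
    · rintro ⟨j, hj, rfl⟩ h0
      rw [Equiv.symm_apply_apply] at h0
      exact hj (MvPolynomial.rename_injective _ (ce_inj g) (by rw [h0, map_zero]))
  rw [hs, Finset.sup_image]
  refine Finset.sup_congr rfl fun i _ => ?_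
  simp only [Function.comp, ce_apply, Equiv.symm_apply_apply]
  exact ce_nrm g w _

theorem ce_smul (g : E ≃ E) (h : I ≃ I) (q : P E) (y : I →₀ P E) :
    ren g h (q • y) = MvPolynomial.rename (Option.map g) q • ren g h y := by
  ext1 i; simp [ce_apply]

theorem ce_add (g : E ≃ E) (h : I ≃ I) (y z : I →₀ P E) :
    ren g h (y + z) = ren g h y + ren g h z := by
  ext1 i; simp [ce_apply]

theorem ce_sub (g : E ≃ E) (h : I ≃ I) (y z : I →₀ P E) :
    ren g h (y - z) = ren g h y - ren g h z := by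
  ext1 i; simp [ce_apply]

theorem ce_zero (g : E ≃ E) (h : I ≃ I) : ren g h (0 : I →₀ P E) = 0 := by
  ext1 i; simp [ce_apply]

theorem ce_inv (g : E ≃ E) (h : I ≃ I) (y : I →₀ P E) : ren g.symm h.symm (ren g h y) = y := by
  ext1 i
  simp only [ce_apply, Equiv.symm_symm, Equiv.symm_apply_apply, MvPolynomial.rename_rename]
  have : (Option.map g.symm ∘ Option.map g) = id := by
    funext o; cases o <;> simp
  rw [this, MvPolynomial.rename_id, AlgHom.id_apply]

theorem ce_inv_image (g : E ≃ E) (h : I ≃ I) (S : Set (I →₀ P E)) :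
    ren g.symm h.symm '' (ren g h '' S) = S := by
  rw [Set.image_image]
  simp [ce_inv]

theorem ce_span (g : E ≃ E) (h : I ≃ I) {S : Set (I →₀ P E)} {y : I →₀ P E}
    (hy : y ∈ Submodule.span (P E) S) : ren g h y ∈ Submodule.span (P E) (ren g h '' S) := by
  induction hy using Submodule.span_induction with
  | mem x hx => exact Submodule.subset_span ⟨x, hx, rfl⟩
  | zero => rw [ce_zero]; exact zero_mem _
  | add x y _ _ hx hy => rw [ce_add]; exact add_mem hx hy
  | smul a x _ hx => rw [ce_smul]; exact Submodule.smul_mem _ _ hx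

theorem ce_del_le (g : E ≃ E) (h : I ≃ I) (w : E → ℤ) (S : Set (I →₀ P E)) (y : I →₀ P E) :
    del (w ∘ g.symm) (ren g h '' S) (ren g h y) ≤ del w S y := by
  unfold del
  haveI : Nonempty ({q : P E // q ≠ 0} × Submodule.span (P E) S) := ⟨(⟨1, one_ne_zero⟩, 0)⟩
  refine le_ciInf fun qz => ?_
  have hq : MvPolynomial.rename (Option.map g) qz.1.1 ≠ 0 := fun h0 =>
    qz.1.2 (MvPolynomial.rename_injective _ (ce_inj g) (by rw [h0, map_zero]))
  refine (ciInf_le (OrderBot.bddBelow _) (⟨_, hq⟩, ⟨_, ce_span g h qz.2.2⟩)).trans (le_of_eq ?_)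
  simp only
  rw [← ce_smul, ← ce_sub, ce_vn, ce_nrm]

theorem ce_comp (g : E ≃ E) (w : E → ℤ) : (w ∘ g.symm) ∘ g.symm.symm = w := by
  funext e; simp

theorem ce_del (g : E ≃ E) (h : I ≃ I) (w : E → ℤ) (S : Set (I →₀ P E)) (y : I →₀ P E) :
    del (w ∘ g.symm) (ren g h '' S) (ren g h y) = del w S y := by
  refine le_antisymm (ce_del_le g h w S y) ?_
  have := ce_del_le g.symm h.symm (w ∘ g.symm) (ren g h '' S) (ren g h y)
  rwa [ce_comp, ce_inv_image, ce_inv] at this

theorem ce_vol (g : E ≃ E) (h : I ≃ I) (w : E → ℤ) (S : Set (I →₀ P E)) {u : ℕ}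
    (y : Fin u → I →₀ P E) :
    vol (w ∘ g.symm) (ren g h '' S) (fun i => ren g h (y i)) = vol w S y := by
  unfold vol
  refine Finset.prod_congr rfl fun i _ => ?_
  rw [← ce_del g h w, Set.image_union, Set.image_image]

theorem ce_free_sub (g : E ≃ E) (h : I ≃ I) (e : E) (R : Set (I →₀ P E)) :
    ren g h '' free e R ⊆ free (g e) (ren g h '' R) := by
  rintro _ ⟨ρ, ⟨hρ, hf⟩, rfl⟩
  refine ⟨⟨ρ, hρ, rfl⟩, fun i m hm => ?_⟩
  rw [ce_apply, MvPolynomial.support_rename_of_injective (ce_inj g), Finset.mem_image] at hm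
  obtain ⟨m', hm', rfl⟩ := hm
  have := Finsupp.mapDomain_apply (ce_inj g) m' (some e)
  rw [Option.map_some] at this
  rw [this]
  exact hf _ _ hm'

theorem ce_free (g : E ≃ E) (h : I ≃ I) (e : E) (R : Set (I →₀ P E)) :
    free (g e) (ren g h '' R) = ren g h '' free e R := by
  refine Set.Subset.antisymm (fun ρ hρ => ?_) (ce_free_sub g h e R)
  have h1 := ce_free_sub g.symm h.symm (g e) (ren g h '' R) ⟨ρ, hρ, rfl⟩
  rw [ce_inv_image, Equiv.symm_apply_apply] at h1
  exact ⟨_, h1, ce_inv g.symm h.symm ρ⟩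

theorem ce_pv (g : E ≃ E) (h : I ≃ I) (R : Set (I →₀ P E)) (e : E) (n : ℕ) (w : E → ℤ)
    (H : Pv R e n w) : Pv (ren g h '' R) (g e) n (w ∘ g.symm) := by
  obtain ⟨u, y, h1, h2, h3, h4⟩ := H
  have hw : w ∘ g.symm + Pi.single (g e) 1 = (w + Pi.single e 1 : E → ℤ) ∘ g.symm := by
    funext x
    obtain ⟨x, rfl⟩ := g.surjective x
    by_cases hx : x = e
    · subst hx; simp
    · simp [Pi.single_eq_of_ne hx, Pi.single_eq_of_ne (g.injective.ne hx)]
  refine ⟨u, fun i => ren g h (y i), fun i => ce_span g h (h1 i), ?_, ?_, ?_⟩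
  · rwa [ce_free, ce_vol]
  · rintro _ ⟨ρ, hρ, rfl⟩
    have : Set.range (fun i => ren g h (y i)) = ren g h '' Set.range y := by
      rw [← Set.range_comp]; rfl
    rw [ce_free, this, ← Set.image_union, ce_del]
    exact h3 ρ hρ
  · rwa [hw, ce_free, ce_vol, ce_vol]

theorem ce : CE := by
  intro E I R g h hR w
  have hR' : ren g.symm h.symm '' R = R := by
    conv_lhs => rw [← hR]
    exact ce_inv_image g h R
  refine ⟨fun e => ?_, fun l => ?_⟩
  · unfold cur
    congr 1
    ext n
    refine ⟨fun H => ?_, fun H => ?_⟩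
    · have := ce_pv g.symm h.symm R (g e) n _ H
      rwa [hR', ce_comp, Equiv.symm_apply_apply] at this
    · have := ce_pv g h R e n w H
      rwa [hR] at this
  · unfold Piv
    have : ren g h (Finsupp.single l (1 : P E)) = Finsupp.single (h l) 1 := by
      ext1 i
      rw [ce_apply]
      obtain ⟨i, rfl⟩ := h.surjective i
      by_cases hi : i = l
      · subst hi; simp
      · simp [Finsupp.single_eq_of_ne hi, Finsupp.single_eq_of_ne (h.injective.ne hi)]
    rw [← ce_del g h w R, hR, this]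

end Pool.Agent.PD3A
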