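import Pool.Agent.Lib.MP_d98eb9_al.TA.St

/-! Block CM: measurability of the canonical functions. -/

namespace Pool.Agent.PD3A

open MeasureTheory
open scoped NNReal Classical

variable {E I : Type}

theorem cm_sup {Ω κ : Type} [MeasurableSpace Ω] (s : Finset κ) (f : κ → Ω → ℝ≥0)
    (hf : ∀ i, Measurable (f i)) : Measurable fun w => s.sup fun i => f i w := by
  induction s using Finset.induction_on with
  | empty => simp
  | insert a s _ ih =>
    simp only [Finset.sup_insert]
    exact (hf a).max ih

theorem cm_wt (m : Option E →₀ ℕ) : Measurable fun w : E → ℤ => wt w m := by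
  unfold wt Finsupp.sum
  refine Finset.measurable_sum _ fun o _ => measurable_const.mul ?_
  cases o with
  | none => exact measurable_const
  | some e => exact measurable_pi_apply e

theorem cm_nrm (p : P E) : Measurable fun w : E → ℤ => nrm w p :=
  cm_sup _ _ fun m => (measurable_from_top (f := fun n : ℤ => (2 : ℝ≥0) ^ n)).comp (cm_wt m)

theorem cm_vn (y : I →₀ P E) : Measurable fun w : E → ℤ => vn w y :=
  cm_sup _ _ fun i => cm_nrm (y i)

theorem cm_countable [Countable E] : Countable (P E) := by
  have h : Countable ((Option E →₀ ℕ) →₀ ℚ) := inferInstance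
  refine Function.Injective.countable
    (f := fun p : P E => (Finsupp.onFinset p.support (fun m => MvPolynomial.coeff m p)
      (fun m hm => MvPolynomial.mem_support_iff.mpr hm) : (Option E →₀ ℕ) →₀ ℚ)) ?_
  intro p q hpq
  ext m
  exact DFunLike.congr_fun hpq m

theorem cm_del [Countable E] [Countable I] (S : Set (I →₀ P E)) (y : I →₀ P E) :
    Measurable fun w : E → ℤ => del w S y := by
  haveI := cm_countable (E := E)
  unfold del
  exact Measurable.iInf fun qz => (cm_vn _).div (cm_nrm _)

theorem cm_vol [Countable E] [Countable I] (S : Set (I →₀ P E)) {u : ℕ}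
    (y : Fin u → I →₀ P E) : Measurable fun w : E → ℤ => vol w S y := by
  unfold vol
  exact Finset.measurable_prod _ fun i _ => cm_del _ _

theorem cm_pv [Countable E] [Countable I] (R : Set (I →₀ P E)) (e : E) (n : ℕ) :
    MeasurableSet {w | Pv R e n w} := by
  haveI := cm_countable (E := E)
  unfold Pv
  simp only [Set.setOf_exists]
  refine MeasurableSet.iUnion fun u => MeasurableSet.iUnion fun y => ?_
  simp only [Set.setOf_and]
  refine (MeasurableSet.const _).inter (MeasurableSet.inter ?_ (MeasurableSet.inter ?_ ?_))
  · exact (cm_vol _ y (measurableSet_singleton 0)).compl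
  · simp only [Set.setOf_forall]
    exact MeasurableSet.iInter fun ρ => MeasurableSet.iInter fun _ =>
      cm_del _ ρ (measurableSet_singleton 0)
  · exact measurableSet_le ((cm_vol _ y).comp (measurable_add_const _))
      (measurable_const.mul (cm_vol _ y))

theorem cm : CM := by
  intro E I _ _ R
  refine ⟨fun e => measurable_of_Iic fun n => ?_, fun l => ?_⟩
  · have : cur R e ⁻¹' Set.Iic n = (⋃ k, ⋃ _ : k ≤ n, {w | Pv R e k w}) ∪ ⋂ k, {w | Pv R e k w}ᶜ := by
      ext w
      simp only [Set.mem_preimage, Set.mem_Iic, Set.mem_union, Set.mem_iUnion, Set.mem_setOf_eq,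
        Set.mem_iInter, Set.mem_compl_iff, cur]
      constructor
      · intro h
        by_cases hne : {n | Pv R e n w}.Nonempty
        · exact Or.inl ⟨_, h, Nat.sInf_mem hne⟩
        · exact Or.inr fun k hk => hne ⟨k, hk⟩
      · rintro (⟨k, hk, h⟩ | h)
        · exact (Nat.sInf_le (s := {n | Pv R e n w}) h).trans hk
        · have : {n | Pv R e n w} = ∅ := Set.eq_empty_of_forall_notMem h
          rw [this, Nat.sInf_empty]
          exact Nat.zero_le n
    rw [this]
    exact (MeasurableSet.iUnion fun k => MeasurableSet.iUnion fun _ => cm_pv R e k).union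
      (MeasurableSet.iInter fun k => (cm_pv R e k).compl)
  · exact measurableSet_lt (cm_del R _) measurable_const

end Pool.Agent.PD3A
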