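import Pool.Agent.Lib.MP_d98eb9_al.TA.St

/-! Block DT: assembly of the deterministic theorem. -/

namespace Pool.Agent.PD3A

open scoped NNReal Classical

namespace DTa

variable {E I : Type} (K : Fld E)

lemma norm_tau : ‖K.τ‖₊ = 2⁻¹ := by
  have h := K.gauss 0 (MvPolynomial.X none)
  simpa [nrm, MvPolynomial.support_X, wt] using h

lemma norm_x (e : E) : ‖K.x e‖₊ = 1 := by
  have h := K.gauss 0 (MvPolynomial.X (some e))
  simpa [nrm, MvPolynomial.support_X, wt] using h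

lemma tau_ne : K.τ ≠ 0 := by
  intro h
  have := norm_tau K
  simp [h] at this

lemma norm_t (e : E) (n : ℤ) : ‖K.x e * K.τ ^ (-n)‖₊ = 2 ^ n := by
  rw [nnnorm_mul, norm_x, nnnorm_zpow, norm_tau, one_mul, inv_zpow', neg_neg]

lemma tau_mem (D : Set E) : K.τ ∈ K.k D :=
  Subfield.le_topologicalClosure _ (Subfield.subset_closure (Set.mem_insert _ _))

lemma t_mem {D : Set E} {e : E} (h : e ∈ D) (n : ℤ) : K.x e * K.τ ^ n ∈ K.k D :=
  mul_mem (Subfield.le_topologicalClosure _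
    (Subfield.subset_closure (Set.mem_insert_of_mem _ ⟨e, h, rfl⟩))) (zpow_mem (tau_mem K D) n)

lemma k_mono {D D' : Set E} (h : D ⊆ D') : K.k D ≤ K.k D' := fun _ hz =>
  closure_mono (Subfield.closure_mono (Set.insert_subset_insert (Set.image_mono h))) hz

lemma ga (hG : GA) {A : Type} (D : Set E) (s : Finset A) (mo : A → E →₀ ℕ)
    (hmo : Function.Injective mo) (c : A → K.L) (hc : ∀ a, c a ∈ K.k D)
    (hD : ∀ a, ∀ e ∈ D, mo a e = 0) :
    ∀ a ∈ s, ‖c a‖₊ ≤ ‖∑ a ∈ s, c a * (mo a).prod fun e j => K.x e ^ j‖₊ := by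
  intro a ha
  have h := hG E K D (s.image mo) (Function.extend mo c 0) (fun m hm => by
    obtain ⟨b, -, rfl⟩ := Finset.mem_image.1 hm
    rw [hmo.extend_apply]
    exact ⟨hc b, hD b⟩) (mo a) (Finset.mem_image_of_mem _ ha)
  rw [Finset.sum_image fun a _ b _ h => hmo h] at h
  simpa only [hmo.extend_apply] using h

lemma evs_inj (hG : GA) (E1 : Finset E) (s : E1 → ℤ) :
    Function.Injective (evs (K.k (E1 : Set E)ᶜ) K.τ (fun e : E1 => K.x e) s) := by
  rw [injective_iff_map_eq_zero]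
  intro p hp
  have h := ga K hG (E1 : Set E)ᶜ p.support (Finsupp.mapDomain Subtype.val)
    (Finsupp.mapDomain_injective Subtype.val_injective)
    (fun m => (K.k (E1 : Set E)ᶜ).subtype (p.coeff m) * m.prod fun e j => (K.τ ^ (-s e)) ^ j)
    (fun m => mul_mem (p.coeff m).2
      (prod_mem fun e _ => pow_mem (zpow_mem (tau_mem K _) _) _))
    (fun m e he => Finsupp.mapDomain_of_notMem_range _ _ (by
      rintro ⟨a, rfl⟩
      exact he a.2))
  have h2 : (∑ m ∈ p.support, ((K.k (E1 : Set E)ᶜ).subtype (p.coeff m) *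
      m.prod fun e j => (K.τ ^ (-s e)) ^ j) * (Finsupp.mapDomain Subtype.val m).prod fun e j => K.x e ^ j) = 0 := by
    rw [← hp, evs, MvPolynomial.coe_eval₂Hom, MvPolynomial.eval₂_eq]
    refine Finset.sum_congr rfl fun m _ => ?_
    rw [Finsupp.prod_mapDomain_index_inj Subtype.val_injective, mul_assoc, ← Finsupp.prod_mul]
    simp only [Finsupp.prod, mul_pow, mul_comm]
  by_contra h0
  obtain ⟨m, hm⟩ := MvPolynomial.support_nonempty.2 h0
  have h3 := h m hm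
  rw [h2, nnnorm_zero, nonpos_iff_eq_zero, nnnorm_eq_zero, mul_eq_zero] at h3
  rcases h3 with h3 | h3
  · exact MvPolynomial.mem_support_iff.1 hm (by simpa using h3)
  · exact Finset.prod_ne_zero_iff.2
      (fun e _ => pow_ne_zero _ (zpow_ne_zero _ (tau_ne K))) h3

lemma gauss1 (hG : GA) (e : E) (n : ℤ) (p : Polynomial (K.k {e}ᶜ)) (i : ℕ) :
    ‖(p.coeff i : K.L)‖₊ * ‖K.x e * K.τ ^ (-n)‖₊ ^ i
      ≤ ‖p.eval₂ (K.k {e}ᶜ).subtype (K.x e * K.τ ^ (-n))‖₊ := by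
  by_cases hi : i ∈ p.support
  · have h := ga K hG {e}ᶜ p.support (Finsupp.single e) (Finsupp.single_injective e)
      (fun m => (p.coeff m : K.L) * (K.τ ^ (-n)) ^ m)
      (fun m => mul_mem (p.coeff m).2 (pow_mem (zpow_mem (tau_mem K _) _) _))
      (fun m e' he => Finsupp.single_eq_of_ne he) i hi
    rw [Polynomial.eval₂_eq_sum, Polynomial.sum]
    convert h using 1
    · simp [norm_x]
    · congr 1
      refine Finset.sum_congr rfl fun m _ => ?_
      rw [Finsupp.prod_single_index (by simp), mul_pow, Subfield.coe_subtype]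
      ring
  · simp [Polynomial.notMem_support_iff.1 hi]

/-- the value of a variable as a polynomial in the variable `e` -/
noncomputable def va (e : E) (w : E → ℤ) (a : E) : Polynomial (K.k {e}ᶜ) :=
  if h : a = e then Polynomial.X else Polynomial.C ⟨K.x a * K.τ ^ (-w a), t_mem K h _⟩

lemma va_ev {e : E} {w w' : E → ℤ} (h : ∀ a, a ≠ e → w' a = w a) (a : E) :
    (va K e w a).eval₂ (K.k {e}ᶜ).subtype (K.x e * K.τ ^ (-w' e)) = K.x a * K.τ ^ (-w' a) := by
  unfold va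
  split_ifs with h1
  · simp [h1]
  · simp [h a h1]

/-- all variables but one are evaluated -/
noncomputable def ps (e : E) (w : E → ℤ) : P E →+* Polynomial (K.k {e}ᶜ) :=
  MvPolynomial.eval₂Hom (Polynomial.C.comp (Rat.castHom _)) fun o =>
    o.elim (Polynomial.C ⟨K.τ, tau_mem K _⟩) (va K e w)

lemma ps_ev {e : E} {w w' : E → ℤ} (h : ∀ a, a ≠ e → w' a = w a) (p : P E) :
    (ps K e w p).eval₂ (K.k {e}ᶜ).subtype (K.x e * K.τ ^ (-w' e)) = K.ev w' p := by
  have : (Polynomial.eval₂RingHom (K.k {e}ᶜ).subtype (K.x e * K.τ ^ (-w' e))).comp (ps K e w)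
      = K.ev w' := by
    refine MvPolynomial.ringHom_ext' (RingHom.ext_rat _ _) fun o => ?_
    cases o with
    | none => simp [ps, Fld.ev]
    | some a => simpa [ps, Fld.ev] using va_ev K h a
  exact DFunLike.congr_fun this p

lemma sub {E1 : Finset E} (e : E1) : K.k (E1 : Set E)ᶜ ≤ K.k {e.1}ᶜ :=
  k_mono K (Set.compl_subset_compl.2 (by simp))

/-- all variables of the level but one are evaluated -/
noncomputable def ph {E1 : Finset E} (e : E1) (w : E → ℤ) :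
    MvPolynomial E1 (K.k (E1 : Set E)ᶜ) →+* Polynomial (K.k {e.1}ᶜ) :=
  MvPolynomial.eval₂Hom (Polynomial.C.comp (Subfield.inclusion (sub K e))) fun a => va K e w a

lemma ph_ev {E1 : Finset E} {e : E1} {w w' : E → ℤ} (h : ∀ a, a ≠ e.1 → w' a = w a)
    (p : MvPolynomial E1 (K.k (E1 : Set E)ᶜ)) :
    (ph K e w p).eval₂ (K.k {e.1}ᶜ).subtype (K.x e * K.τ ^ (-w' e))
      = evs _ K.τ (fun a : E1 => K.x a) (fun a => w' a) p := by
  have : (Polynomial.eval₂RingHom (K.k {e.1}ᶜ).subtype (K.x e * K.τ ^ (-w' e))).comp (ph K e w)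
      = evs _ K.τ (fun a : E1 => K.x a) (fun a => w' a) := by
    refine MvPolynomial.ringHom_ext (fun c => ?_) fun a => ?_
    · simp [ph, evs]
      rfl
    · simpa [ph, evs] using va_ev K h a
  exact DFunLike.congr_fun this p

lemma ph_deg {E1 : Finset E} (e : E1) (w : E → ℤ) (p : MvPolynomial E1 (K.k (E1 : Set E)ᶜ))
    (d : ℕ) (h : ∀ m ∈ p.support, m e ≤ d) : (ph K e w p).natDegree ≤ d := by
  rw [ph, MvPolynomial.coe_eval₂Hom, MvPolynomial.eval₂_eq]
  refine Polynomial.natDegree_sum_le_of_forall_le _ _ fun m hm => ?_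
  refine (Polynomial.natDegree_C_mul_le _ _).trans ((Polynomial.natDegree_prod_le _ _).trans ?_)
  refine le_trans (Finset.sum_le_sum (g := fun a => if a = e then m e else 0) fun a _ => ?_) ?_
  · refine Polynomial.natDegree_pow_le.trans ?_
    unfold va
    by_cases h1 : a = e
    · simp [h1]
    · have h2 : a.1 ≠ e.1 := fun h3 => h1 (Subtype.ext h3)
      simp [h1, h2]
  · rw [Finset.sum_ite_eq']
    split_ifs
    · exact h m hm
    · exact Nat.zero_le _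

lemma dense (e : E) (w : E → ℤ) (c : K.k {e}ᶜ) (ε : ℝ) (hε : 0 < ε) :
    ∃ a b : K.k {e}ᶜ, Polynomial.C a ∈ (ps K e w).range ∧ Polynomial.C b ∈ (ps K e w).range ∧
      b ≠ 0 ∧ ‖(c : K.L) - a / b‖ < ε := by
  let A : Subring K.L := ((ps K e w).range.comap Polynomial.C).map (K.k {e}ᶜ).subtype
  have hA : ∀ z ∈ A, ∃ a : K.k {e}ᶜ, Polynomial.C a ∈ (ps K e w).range ∧ (a : K.L) = z := by
    rintro z ⟨a, ha, rfl⟩
    exact ⟨a, ha, rfl⟩
  have h1 : Subfield.closure (insert K.τ (K.x '' {e}ᶜ)) ≤ Subfield.closure (A : Set K.L) := by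
    have ht : K.τ ∈ Subfield.closure (A : Set K.L) := Subfield.subset_closure
      ⟨⟨K.τ, tau_mem K _⟩, ⟨MvPolynomial.X none, by simp [ps]⟩, rfl⟩
    refine Subfield.closure_le.2 ?_
    rintro z (rfl | ⟨a, ha, rfl⟩)
    · exact ht
    · have h2 : K.x a * K.τ ^ (-w a) ∈ Subfield.closure (A : Set K.L) := Subfield.subset_closure
        ⟨⟨_, t_mem K ha _⟩, ⟨MvPolynomial.X (some a), by
          have h3 : a ≠ e := ha
          simp [ps, va, h3]⟩, rfl⟩
      have h4 := mul_mem h2 (zpow_mem ht (w a))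
      rwa [mul_assoc, ← zpow_add₀ (tau_ne K), neg_add_cancel, zpow_zero, mul_one] at h4
  obtain ⟨z, hz, hd⟩ := Metric.mem_closure_iff.1 c.2 ε hε
  obtain ⟨y, hy, y', hy', rfl⟩ := Subfield.mem_closure_iff.1 (h1 hz)
  rw [Subring.closure_eq] at hy hy'
  obtain ⟨a, ha, rfl⟩ := hA y hy
  obtain ⟨b, hb, rfl⟩ := hA y' hy'
  rw [dist_eq_norm] at hd
  by_cases h0 : b = 0
  · refine ⟨0, 1, by simp, by simp, one_ne_zero, ?_⟩
    simpa [h0] using hd
  · exact ⟨a, b, ha, hb, h0, hd⟩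

lemma decomp (R : Set (I →₀ P E)) (Φ : Finset (I →₀ P E)) (y : I →₀ P E)
    (hy : y ∈ Submodule.span (P E) R) :
    ∃ r : Φ → P E, y - ∑ g : Φ, r g • g.1 ∈ Submodule.span (P E) (R \ Φ) := by
  induction hy using Submodule.span_induction with
  | mem x hx =>
    by_cases h : x ∈ Φ
    · refine ⟨Pi.single ⟨x, h⟩ 1, ?_⟩
      simp [Pi.single_apply, ite_smul]
    · exact ⟨0, by simpa using Submodule.subset_span (show x ∈ R \ Φ from ⟨hx, h⟩)⟩
  | zero => exact ⟨0, by simp⟩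
  | add x z _ _ h1 h2 =>
    obtain ⟨r, h1⟩ := h1
    obtain ⟨r', h2⟩ := h2
    refine ⟨r + r', ?_⟩
    convert add_mem h1 h2 using 1
    simp only [Pi.add_apply, add_smul, Finset.sum_add_distrib]
    abel
  | smul a x _ h1 =>
    obtain ⟨r, h1⟩ := h1
    refine ⟨a • r, ?_⟩
    convert Submodule.smul_mem _ a h1 using 1
    simp only [Pi.smul_apply, smul_eq_mul, mul_smul, smul_sub, Finset.smul_sum]

lemma dst_congr {L C : Type} [NormedField L] [Fintype C] {S S' : Set (C → L)}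
    (h : S ⊆ Submodule.span L S') (h' : S' ⊆ Submodule.span L S) (y : C → L) :
    dst S y = dst S' y := by
  rw [dst, dst, le_antisymm (Submodule.span_le.2 h) (Submodule.span_le.2 h')]

lemma dst_zero {L C : Type} [NormedField L] [Fintype C] (S : Set (C → L)) : dst S 0 = 0 := by
  rw [dst, ← NNReal.coe_eq_zero, Metric.coe_infNndist]
  exact Metric.infDist_zero_of_mem (zero_mem _)

/-- the model of a slice at one weight -/
def Mod (R : Set (I →₀ P E)) (l : I) (E1 : Finset E) (Φ : Finset (I →₀ P E)) {n : ℕ}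
    (M : Φ → Option (Fin n) → MvPolynomial E1 (K.k (E1 : Set E)ᶜ)) (w : E → ℤ)
    (Λ : (I →₀ P E) →ₛₗ[K.ev w] (Option (Fin n) → K.L)) : Prop :=
  (∀ (g : Φ) j, Λ g.1 j = evs _ K.τ (fun e : E1 => K.x e) (fun e => w e) (M g j)) ∧
    (∀ ρ ∈ R, ρ ∉ Φ → Λ ρ = 0) ∧ Λ (Finsupp.single l 1) = Pi.single none 1 ∧
    ∀ T : Set (I →₀ P E), R \ Φ ⊆ T →
      T ⊆ Submodule.span (P E) (insert (Finsupp.single l 1) R) →
      ∀ y ∈ Submodule.span (P E) (insert (Finsupp.single l 1) R),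
        del w T y = dst (Λ '' T) (Λ y)

variable {R : Set (I →₀ P E)} {l : I} {E1 : Finset E} {Φ : Finset (I →₀ P E)} {n : ℕ}
  {M : Φ → Option (Fin n) → MvPolynomial E1 (K.k (E1 : Set E)ᶜ)}

lemma lam_row {e : E1} {w w' : E → ℤ} (h : ∀ a, a ≠ e.1 → w' a = w a)
    {Λ : (I →₀ P E) →ₛₗ[K.ev w'] (Option (Fin n) → K.L)} (hΛ : Mod K R l E1 Φ M w' Λ)
    {ι : Type} (y : ι → I →₀ P E) (r : ι → Φ → P E)
    (hr : ∀ i, y i - ∑ g : Φ, r i g • g.1 ∈ Submodule.span (P E) (R \ Φ)) (i : ι) :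
    Λ (y i) = rows (K.x e * K.τ ^ (-w' e)) (fun i g => ps K e w (r i g))
      (fun g j => ph K e w (M g j)) i := by
  have h1 : Submodule.span (P E) (R \ Φ) ≤ LinearMap.ker Λ :=
    Submodule.span_le.2 fun ρ hρ => hΛ.2.1 ρ hρ.1 hρ.2
  have h2 := h1 (hr i)
  rw [LinearMap.mem_ker, map_sub, sub_eq_zero] at h2
  funext j
  rw [h2, rows, Polynomial.eval₂_finsetSum, map_sum, Finset.sum_apply]
  refine Finset.sum_congr rfl fun g _ => ?_
  rw [Polynomial.eval₂_mul, ps_ev K h, ph_ev K h, map_smulₛₗ, Pi.smul_apply, hΛ.1, smul_eq_mul]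

lemma del_eq {e : E1} {w w' : E → ℤ} (h : ∀ a, a ≠ e.1 → w' a = w a)
    {Λ : (I →₀ P E) →ₛₗ[K.ev w'] (Option (Fin n) → K.L)} (hΛ : Mod K R l E1 Φ M w' Λ)
    (hf : R \ Φ ⊆ free e.1 R)
    (hc : ∀ g : Φ, g.1 ∈ free e.1 R → ∀ j, (ph K e w (M g j)).natDegree = 0) (t : K.L)
    (Y : Set (I →₀ P E)) (hY : Y ⊆ Submodule.span (P E) R) (y : I →₀ P E)
    (hy : y ∈ Submodule.span (P E) R) :
    del w' (free e.1 R ∪ Y) y = dst ((fun (g : Φ) j => (ph K e w (M g j)).eval₂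
      (K.k {e.1}ᶜ).subtype t) '' {g : Φ | g.1 ∈ free e.1 R} ∪ Λ '' Y) (Λ y) := by
  have hm := Submodule.span_mono (R := P E) (Set.subset_insert (Finsupp.single l 1) R)
  have h1 : ∀ g : Φ, g.1 ∈ free e.1 R →
      Λ g.1 = fun j => (ph K e w (M g j)).eval₂ (K.k {e.1}ᶜ).subtype t := by
    intro g hg
    funext j
    rw [hΛ.1, ← ph_ev K h, Polynomial.eq_C_of_natDegree_eq_zero (hc g hg j),
      Polynomial.eval₂_C, Polynomial.eval₂_C]
  rw [hΛ.2.2.2 _ (hf.trans Set.subset_union_left) (Set.union_subset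
    (fun z hz => hm (Submodule.subset_span hz.1)) fun z hz => hm (hY hz)) y (hm hy)]
  refine dst_congr ?_ ?_ _
  · rintro _ ⟨z, hz | hz, rfl⟩
    · by_cases h2 : z ∈ Φ
      · exact Submodule.subset_span (Or.inl ⟨⟨z, h2⟩, hz, (h1 ⟨z, h2⟩ hz).symm⟩)
      · rw [hΛ.2.1 z hz.1 h2]
        exact zero_mem _
    · exact Submodule.subset_span (Or.inr ⟨z, hz, rfl⟩)
  · rintro _ (⟨g, hg, rfl⟩ | ⟨z, hz, rfl⟩)
    · exact Submodule.subset_span ⟨g.1, Or.inl hg, h1 g hg⟩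
    · exact Submodule.subset_span ⟨z, Or.inr hz, rfl⟩

lemma vol_eq {e : E1} {w w' : E → ℤ} (h : ∀ a, a ≠ e.1 → w' a = w a)
    {Λ : (I →₀ P E) →ₛₗ[K.ev w'] (Option (Fin n) → K.L)} (hΛ : Mod K R l E1 Φ M w' Λ)
    (hf : R \ Φ ⊆ free e.1 R)
    (hc : ∀ g : Φ, g.1 ∈ free e.1 R → ∀ j, (ph K e w (M g j)).natDegree = 0) (t : K.L)
    {u : ℕ} (y : Fin u → I →₀ P E) (hy : ∀ i, y i ∈ Submodule.span (P E) R)
    (r : Fin u → Φ → P E)
    (hr : ∀ i, y i - ∑ g : Φ, r i g • g.1 ∈ Submodule.span (P E) (R \ Φ)) :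
    vol w' (free e.1 R) y = volL ((fun (g : Φ) j => (ph K e w (M g j)).eval₂
      (K.k {e.1}ᶜ).subtype t) '' {g : Φ | g.1 ∈ free e.1 R})
      (rows (K.x e * K.τ ^ (-w' e)) (fun i g => ps K e w (r i g))
        (fun g j => ph K e w (M g j))) := by
  refine Finset.prod_congr rfl fun i _ => ?_
  rw [del_eq K h hΛ hf hc t _ (by rintro _ ⟨a, -, rfl⟩; exact hy a) _ (hy i), Set.image_image,
    lam_row K h hΛ y r hr, funext (lam_row K h hΛ y r hr)]

lemma slice (hF : FL) (hG : GA) (hM : MD) (hT : FT) (hO : OV) (R : Set (I →₀ P E)) (l : I)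
    (lam : E →₀ ℤ) (h1 : ∀ e, (R \ free e R).Finite) (h2 : {ρ ∈ R | ρ l ≠ 0}.Finite)
    (h3 : ∀ ρ ∈ R, ∃ h : ℤ, ∀ i, ∀ m ∈ (ρ i).support,
      lam.sum (fun e k => k * (m (some e) : ℤ)) = h + if i = l then 1 else 0)
    (E1 : Finset E) (hE : lam.support ⊆ E1) :
    ∃ D : ℕ, ∀ w0 : E → ℤ, ∃ (F : (E → ℤ) → ℤ) (W : ℤ), ∀ w : E → ℤ,
      (∀ e, e ∉ E1 → w e = w0 e) →
      (∀ e ∈ E1, F (w + Pi.single e 1) - F w = cur R e w ∧ cur R e w ≤ D) ∧
        F w - F (w - lam) = (if w ∈ {w | Piv R l w} then 1 else 0) - W := by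
  obtain ⟨K⟩ := hF E
  obtain ⟨Φ, hΦ⟩ := (h2.union (E1.finite_toSet.biUnion fun e _ => h1 e)).exists_finset_coe
  have hΦ1 : (Φ : Set (I →₀ P E)) ⊆ R := by
    rw [hΦ]
    rintro ρ (h | h)
    · exact h.1
    · obtain ⟨e, -, h⟩ := Set.mem_iUnion₂.1 h
      exact h.1
  have hΦ2 : ∀ ρ ∈ R, ρ ∉ Φ → ρ l = 0 ∧ ∀ e ∈ E1, ρ ∈ free e R := by
    intro ρ hρ h
    rw [← Finset.mem_coe, hΦ] at h
    refine ⟨by_contra fun h4 => h (Or.inl ⟨hρ, h4⟩), fun e he => by_contra fun h4 => ?_⟩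
    exact h (Or.inr (Set.mem_iUnion₂.2 ⟨e, he, hρ, h4⟩))
  set d : ℕ := Φ.sup fun g => g.support.sup fun i => (g i).totalDegree with hd
  refine ⟨Fintype.card Φ * d, fun w0 => ?_⟩
  obtain ⟨n, M, hs, hΛ⟩ := hM E I K R l E1 w0 Φ hΦ1 hΦ2
  obtain ⟨u, α, β, F, W, hαβ, hq, hu, hB, hW⟩ := hT K.L (K.k (E1 : Set E)ᶜ) K.τ E1 Φ
    (Option (Fin n)) (fun e => K.x e) M none (fun e => lam e) (tau_mem K _) (norm_tau K) K.disc
    (evs_inj K hG E1) (fun g => by
      obtain ⟨h, hh⟩ := h3 g.1 (hΦ1 g.2)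
      refine ⟨h, fun j m hm => ?_⟩
      obtain ⟨i, hi, m', hm', h4⟩ := hs g j m hm
      have h5 := hh i m' hm'
      rw [Finsupp.sum_of_support_subset _ hE _ (by simp), ← Finset.sum_coe_sort] at h5
      simp only [h4, h5, hi]
      split_ifs <;> rfl)
  refine ⟨fun w => F fun e => w e, W, fun w hw => ⟨fun e he => ?_, ?_⟩⟩
  swap
  · obtain ⟨Λ, hΛ⟩ := hΛ w hw
    have h4 : del w R (Finsupp.single l 1) = dst (Set.range fun (g : Φ) j =>
        evs _ K.τ (fun e : E1 => K.x e) (fun e => w e) (M g j)) (Pi.single none 1) := by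
      rw [hΛ.2.2.2 R Set.sdiff_subset
        (fun z hz => Submodule.subset_span (Set.mem_insert_of_mem _ hz)) _
        (Submodule.subset_span (Set.mem_insert _ _)), hΛ.2.2.1]
      refine dst_congr ?_ ?_ _
      · rintro _ ⟨z, hz, rfl⟩
        by_cases h2 : z ∈ Φ
        · exact Submodule.subset_span ⟨⟨z, h2⟩, (funext (hΛ.1 ⟨z, h2⟩)).symm⟩
        · rw [hΛ.2.1 z hz h2]
          exact zero_mem _
      · rintro _ ⟨g, rfl⟩
        exact Submodule.subset_span ⟨g.1, hΦ1 g.2, funext (hΛ.1 g)⟩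
    have h5 := hW fun e => w e
    refine h5.trans (congrArg (· - W) (if_congr ?_ rfl rfl))
    change _ ↔ del w R _ < 1
    rw [h4]
    refine iff_of_eq ?_
    congr
    exact Subsingleton.elim _ _
  lift e to E1 using he
  have hw' : ∀ a, a ≠ e.1 → (w + Pi.single e.1 1 : E → ℤ) a = w a := fun a ha => by simp [ha]
  have hw0 : ∀ a, a ≠ e.1 → w a = w a := fun _ _ => rfl
  obtain ⟨Λ', hΛ'⟩ := hΛ (w + Pi.single e.1 1) fun a ha =>
    (hw' a fun h => ha (h ▸ e.2)).trans (hw a ha)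
  obtain ⟨Λ, hΛ⟩ := hΛ w hw
  have hf : R \ Φ ⊆ free e.1 R := fun ρ hρ => (hΦ2 ρ hρ.1 hρ.2).2 e e.2
  have hc : ∀ g : Φ, g.1 ∈ free e.1 R → ∀ j, (ph K e w (M g j)).natDegree = 0 := by
    intro g hg j
    refine Nat.le_zero.1 (ph_deg K e w _ 0 fun m hm => ?_)
    obtain ⟨i, -, m', hm', h4⟩ := hs g j m hm
    rw [h4, hg.2 i m' hm']
  have hdg : ∀ (g : Φ) j, (ph K e w (M g j)).natDegree ≤ d := by
    intro g j
    refine ph_deg K e w _ d fun m hm => ?_
    obtain ⟨i, -, m', hm', h4⟩ := hs g j m hm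
    have h5 : i ∈ g.1.support := Finsupp.mem_support_iff.2 fun h => by simp [h] at hm'
    rw [h4]
    refine (MvPolynomial.monomial_le_degreeOf _ hm').trans
      ((MvPolynomial.degreeOf_le_totalDegree _ _).trans ?_)
    exact (Finset.le_sup (f := fun i => (g.1 i).totalDegree) h5).trans
      (Finset.le_sup (f := fun g : I →₀ P E => g.support.sup fun i => (g i).totalDegree) g.2)
  have hne : ∀ p, p ≠ 0 → ph K e w p ≠ 0 := fun p hp h => hp (evs_inj K hG E1 (fun a => w a)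
    (by rw [← ph_ev K hw0, h, Polynomial.eval₂_zero, map_zero]))
  have two : (0 : ℝ≥0) < 2 := two_pos
  have two' : (1 : ℝ≥0) < 2 := one_lt_two
  obtain ⟨⟨b1, b2⟩, b3, m, r, hr, b4, b5, b6⟩ := hO K.L (K.k {e.1}ᶜ) (K.x e * K.τ ^ (-w e))
    (K.x e * K.τ ^ (-(w + Pi.single e.1 1 : E → ℤ) e)) Φ (Option (Fin n))
    (fun g j => ph K e w (M g j)) {g : Φ | g.1 ∈ free e.1 R} (ps K e w).range u d
    (fun J => ph K e w (α J)) (fun f => ph K e w (β f))
    (by rw [← nnnorm_ne_zero_iff, norm_t]; positivity)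
    (by rw [norm_t, norm_t]; simp [zpow_add_one₀, mul_comm])
    (gauss1 K hG e _) (gauss1 K hG e _) hc hdg ⟨MvPolynomial.X (some e.1), by simp [ps, va]⟩
    (dense K e w)
    (fun J f => by rw [← map_mul, ← hαβ, RingHom.map_det]; rfl)
    (by
      obtain ⟨r, h4, h5⟩ := hq e
      have h6 := Polynomial.eq_C_of_natDegree_eq_zero
        (Nat.le_zero.1 (ph_deg K e w _ 0 fun m hm => (h5 m hm).le))
      have h7 : (ph K e w (∑ J, r J * α J)).coeff 0 ≠ 0 := fun h =>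
        hne _ h4 (by rw [h6, h, map_zero])
      refine ⟨fun J => Polynomial.C ((ph K e w (∑ J, r J * α J)).coeff 0)⁻¹ * ph K e w (r J), ?_⟩
      simp only [mul_assoc, ← map_mul]
      rw [← Finset.mul_sum, ← map_sum]
      nth_rewrite 2 [h6]
      rw [← map_mul, inv_mul_cancel₀ h7, map_one])
    (by
      by_contra h
      push Not at h
      have h4 := hB fun a => w a
      simp only [← ph_ev K hw0, h, Polynomial.eval₂_zero, nnnorm_zero] at h4
      exact (zpow_pos two _).ne' (h4.symm.trans (Finset.sup_bot _)))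
    (by
      rw [funext fun g => funext fun j => ph_ev K hw0 (M g j)]
      exact hu fun a => w a)
    (2 ^ F fun a => w a) (2 ^ F fun a => (w + Pi.single e.1 1 : E → ℤ) a) _
    (by simp only [ph_ev K hw0, hB]) (by simp only [ph_ev K hw', hB]) rfl
  obtain ⟨k, hk⟩ := Int.eq_ofNat_of_zero_le (sub_nonneg.2 ((zpow_le_zpow_iff_right₀ two').1 b1))
  have hk' : (2 : ℝ≥0) ^ F (fun a => (w + Pi.single e.1 1 : E → ℤ) a)
      = 2 ^ k * 2 ^ F fun a => w a := by
    rw [← zpow_natCast, ← zpow_add₀ two.ne', ← hk, sub_add_cancel]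
  have hp : (0 : ℝ≥0) < 2 ^ F fun a => w a := zpow_pos two _
  have hcur : cur R e w = k := by
    refine IsLeast.csInf_eq ⟨?_, ?_⟩
    · choose r' hr' using hr
      have h4 : ∀ i, ∑ g : Φ, r' i g • g.1 ∈ Submodule.span (P E) R := fun i =>
        sum_mem fun g _ => Submodule.smul_mem _ _ (Submodule.subset_span (hΦ1 g.2))
      have h5 : ∀ i, ∑ g : Φ, r' i g • g.1 - ∑ g : Φ, r' i g • g.1 ∈
          Submodule.span (P E) (R \ Φ) := fun i => by simp
      have h6 : (fun i g => ps K e w (r' i g)) = r := by simp only [hr']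
      refine ⟨m, fun i => ∑ g : Φ, r' i g • g.1, h4, ?_, fun ρ hρ => ?_, ?_⟩
      · rwa [vol_eq K hw0 hΛ hf hc (K.x e * K.τ ^ (-w e)) _ h4 r' h5, h6]
      · rw [del_eq K hw0 hΛ hf hc (K.x e * K.τ ^ (-w e)) _ (by rintro _ ⟨a, rfl⟩; exact h4 a) _
          (Submodule.subset_span hρ), ← Set.range_comp, Function.comp_def,
          funext (lam_row K hw0 hΛ _ r' h5), h6]
        by_cases h7 : ρ ∈ Φ
        · convert b5 ⟨ρ, h7⟩ using 2
          funext j
          rw [ph_ev K hw0]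
          exact hΛ.1 ⟨ρ, h7⟩ j
        · rw [hΛ.2.1 ρ hρ h7, dst_zero]
      · rw [vol_eq K hw0 hΛ hf hc (K.x e * K.τ ^ (-w e)) _ h4 r' h5,
          vol_eq K hw' hΛ' hf hc (K.x e * K.τ ^ (-w e)) _ h4 r' h5, h6]
        rw [hk', ← mul_assoc] at b6
        rw [← mul_right_cancel₀ hp.ne' b6, mul_comm]
    · rintro k' ⟨m', y, hy, c1, c2, c3⟩
      choose r' h5 using fun i => decomp R Φ (y i) (hy i)
      rw [vol_eq K hw0 hΛ hf hc (K.x e * K.τ ^ (-w e)) _ hy r' h5] at c1 c3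
      rw [vol_eq K hw' hΛ' hf hc (K.x e * K.τ ^ (-w e)) _ hy r' h5] at c3
      have h6 := b3 m' _ c1 fun g => by
        have h7 := c2 g.1 (hΦ1 g.2)
        rw [del_eq K hw0 hΛ hf hc (K.x e * K.τ ^ (-w e)) _ (by rintro _ ⟨a, rfl⟩; exact hy a) _
          (Submodule.subset_span (hΦ1 g.2)), ← Set.range_comp, Function.comp_def,
          funext (lam_row K hw0 hΛ _ r' h5)] at h7
        convert h7 using 2
        funext j
        rw [ph_ev K hw0, hΛ.1]
      rw [hk', ← mul_assoc] at h6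
      have h8 := (le_of_mul_le_mul_right h6 hp).trans c3
      rw [mul_comm] at h8
      exact (pow_le_pow_iff_right₀ two').1 (le_of_mul_le_mul_right h8 (pos_iff_ne_zero.2 c1))
  refine ⟨by rw [hcur, ← hk], ?_⟩
  rw [hk'] at b2
  rw [hcur]
  refine ((pow_le_pow_iff_right₀ two').1 (le_of_mul_le_mul_right b2 hp)).trans
    (Nat.mul_le_mul_right _ ?_)
  rw [← hu fun a => w a]
  exact finrank_range_le_card _

end DTa

theorem dt : DT := by
  intro hF hG hM hT hO E I R l lam h1 h2 h3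
  refine ⟨fun e => ?_, fun w0 E1 hE => ?_⟩
  · obtain ⟨D, hD⟩ := DTa.slice hF hG hM hT hO R l lam h1 h2 h3 (insert e lam.support)
      (Finset.subset_insert _ _)
    refine ⟨D, fun w => ?_⟩
    obtain ⟨F, W, h⟩ := hD w
    exact ((h w fun _ _ => rfl).1 e (Finset.mem_insert_self _ _)).2
  · obtain ⟨D, hD⟩ := DTa.slice hF hG hM hT hO R l lam h1 h2 h3 E1 hE
    obtain ⟨F, W, h⟩ := hD w0
    exact ⟨F, W, fun w hw => ⟨fun e he => ((h w hw).1 e he).1, (h w hw).2⟩⟩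

end Pool.Agent.PD3A
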