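import Pool.Agent.Lib.MP_d98eb9_al.TA.St

/-! Block FL: a complete discretely valued field with generic elements. -/

namespace Pool.Agent.PD3A.FLp

open scoped NNReal Classical
open UniformSpace

/-- the residue field -/
abbrev KK (E : Type) : Type := FractionRing (MvPolynomial E ℚ)

/-- the absolute value of Laurent series -/
noncomputable def abv (K : Type) [Field K] : AbsoluteValue (HahnSeries ℤ K) ℝ where
  toFun f := if f = 0 then 0 else (2 : ℝ) ^ (-f.order)
  map_mul' f g := by
    by_cases hf : f = 0
    · simp [hf]
    by_cases hg : g = 0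
    · simp [hg]
    rw [if_neg hf, if_neg hg, if_neg (mul_ne_zero hf hg), HahnSeries.order_mul hf hg, neg_add,
      zpow_add₀ two_ne_zero]
  nonneg' f := by
    split_ifs
    · exact le_rfl
    · positivity
  eq_zero' f := by
    by_cases hf : f = 0
    · simp [hf]
    · rw [if_neg hf]
      exact ⟨fun h => absurd h (zpow_ne_zero _ two_ne_zero), fun h => absurd h hf⟩
  add_le' f g := by
    by_cases hf : f = 0
    · simp [hf]
    by_cases hg : g = 0
    · simp [hg]
    have p1 : (0 : ℝ) < 2 ^ (-f.order) := by positivity
    have p2 : (0 : ℝ) < 2 ^ (-g.order) := by positivity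
    by_cases hfg : f + g = 0
    · simp only [if_pos hfg, if_neg hf, if_neg hg]
      positivity
    simp only [if_neg hfg, if_neg hf, if_neg hg]
    rcases min_le_iff.1 (HahnSeries.min_order_le_order_add hfg) with h | h
    · have : (2 : ℝ) ^ (-(f + g).order) ≤ 2 ^ (-f.order) :=
        zpow_le_zpow_right₀ one_le_two (by omega)
      linarith
    · have : (2 : ℝ) ^ (-(f + g).order) ≤ 2 ^ (-g.order) :=
        zpow_le_zpow_right₀ one_le_two (by omega)
      linarith

theorem abv_apply {K : Type} [Field K] (f : HahnSeries ℤ K) :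
    abv K f = if f = 0 then 0 else (2 : ℝ) ^ (-f.order) := rfl

theorem abv_max {K : Type} [Field K] (f g : HahnSeries ℤ K) :
    abv K (f + g) ≤ max (abv K f) (abv K g) := by
  by_cases hf : f = 0
  · simp [hf]
  by_cases hg : g = 0
  · simp [hg]
  by_cases hfg : f + g = 0
  · rw [hfg, map_zero]
    exact le_max_of_le_left ((abv K).nonneg f)
  simp only [abv_apply, if_neg hfg, if_neg hf, if_neg hg]
  rcases min_le_iff.1 (HahnSeries.min_order_le_order_add hfg) with h | h
  · exact le_max_of_le_left (zpow_le_zpow_right₀ one_le_two (by omega))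
  · exact le_max_of_le_right (zpow_le_zpow_right₀ one_le_two (by omega))

/-- Laurent series with the norm -/
def LS (K : Type) [Field K] : Type := HahnSeries ℤ K

noncomputable instance (K : Type) [Field K] : NormedField (LS K) := (abv K).toNormedField

/-- the identity map -/
noncomputable def toLS (K : Type) [Field K] : HahnSeries ℤ K →+* LS K := RingHom.id _

theorem norm_toLS {K : Type} [Field K] (f : HahnSeries ℤ K) : ‖toLS K f‖ = abv K f := rfl

/-- the map to the completion -/
noncomputable def io (K : Type) [Field K] : HahnSeries ℤ K →+* Completion (LS K) :=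
  (Completion.coeRingHom : LS K →+* Completion (LS K)).comp (toLS K)

theorem norm_io {K : Type} [Field K] (f : HahnSeries ℤ K) : ‖io K f‖ = abv K f := by
  show ‖((toLS K f : LS K) : Completion (LS K))‖ = _
  rw [Completion.norm_coe, norm_toLS]

theorem ultra (K : Type) [Field K] : IsUltrametricDist (Completion (LS K)) := by
  refine IsUltrametricDist.isUltrametricDist_of_forall_norm_add_le_max_norm fun x y => ?_
  induction x, y using Completion.induction_on₂ with
  | hp => apply isClosed_le <;> fun_prop
  | ih x y =>
    rw [← Completion.coe_add, Completion.norm_coe, Completion.norm_coe, Completion.norm_coe]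
    exact abv_max (K := K) x y

theorem disc (K : Type) [Field K] (z : Completion (LS K)) (hz : z ≠ 0) :
    ∃ n : ℤ, ‖z‖₊ = 2 ^ n := by
  have := ultra K
  obtain ⟨a, ha⟩ := (Completion.denseRange_coe (α := LS K)).exists_dist_lt z (norm_pos_iff.2 hz)
  rw [dist_eq_norm] at ha
  have h1 : ‖(a : Completion (LS K))‖ = ‖z‖ := by
    have h2 : (a : Completion (LS K)) = z + -(z - a) := by ring
    rw [h2, IsUltrametricDist.norm_add_eq_max_of_norm_ne_norm (by rw [norm_neg]; exact ha.ne'),
      norm_neg, max_eq_left ha.le]
  have h3 : ‖(a : Completion (LS K))‖ = abv K a := norm_io (K := K) a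
  have h4 : ¬ (show HahnSeries ℤ K from a) = 0 := fun h => by
    have : abv K a = 0 := (abv K).eq_zero.2 h
    rw [← h3, h1] at this
    exact hz (norm_eq_zero.1 this)
  refine ⟨-(show HahnSeries ℤ K from a).order, NNReal.eq ?_⟩
  rw [coe_nnnorm, ← h1, h3, abv_apply, if_neg h4]
  simp

variable {E : Type}

/-- the values of the variables -/
noncomputable def gv (w : E → ℤ) (o : Option E) : HahnSeries ℤ (KK E) :=
  HahnSeries.single (-(o.elim (-1) w))
    (algebraMap (MvPolynomial E ℚ) (KK E) (o.elim 1 MvPolynomial.X))

theorem wt_add (w : E → ℤ) (m m' : Option E →₀ ℕ) : wt w (m + m') = wt w m + wt w m' := by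
  unfold wt
  rw [Finsupp.sum_add_index'] <;> intros <;> push_cast <;> ring

theorem prod_gv (w : E → ℤ) (m : Option E →₀ ℕ) :
    (m.prod fun o k => gv w o ^ k) = HahnSeries.single (-wt w m)
      (algebraMap (MvPolynomial E ℚ) (KK E) (MvPolynomial.monomial m.some 1)) := by
  induction m using Finsupp.induction_linear with
  | zero => simp [wt, HahnSeries.single_zero_one]
  | add m m' h h' =>
    rw [Finsupp.prod_add_index' (by simp) (by intros; rw [pow_add]), h, h',
      HahnSeries.single_mul_single, wt_add, ← map_mul, MvPolynomial.monomial_mul,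
      Finsupp.some_add, neg_add, one_mul]
  | single o k =>
    rw [Finsupp.prod_single_index (by simp), gv, HahnSeries.single_pow, ← map_pow]
    have h1 : wt w (Finsupp.single o k) = (k : ℤ) * o.elim (-1) w := by
      unfold wt
      rw [Finsupp.sum_single_index (by simp)]
    rw [h1]
    congr 1
    · simp
    · cases o with
      | none => simp
      | some e => simp [MvPolynomial.X_pow_eq_monomial]

/-- evaluation in Laurent series -/
noncomputable def ev0 (w : E → ℤ) : P E →+* HahnSeries ℤ (KK E) :=
  MvPolynomial.eval₂Hom ((HahnSeries.C : KK E →+* HahnSeries ℤ (KK E)).comp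
    ((algebraMap (MvPolynomial E ℚ) (KK E)).comp MvPolynomial.C)) (gv w)

theorem ev0_monomial (w : E → ℤ) (m : Option E →₀ ℕ) (c : ℚ) :
    ev0 w (MvPolynomial.monomial m c) = HahnSeries.single (-wt w m)
      (algebraMap (MvPolynomial E ℚ) (KK E) (MvPolynomial.monomial m.some c)) := by
  rw [ev0, MvPolynomial.eval₂Hom_monomial, prod_gv]
  simp only [RingHom.comp_apply, HahnSeries.C_apply]
  rw [HahnSeries.single_mul_single, zero_add, ← map_mul, MvPolynomial.C_mul_monomial, mul_one]

theorem coeff_ev0 (w : E → ℤ) (p : P E) (n : ℤ) :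
    (ev0 w p).coeff n = algebraMap (MvPolynomial E ℚ) (KK E)
      (∑ m ∈ p.support.filter fun m => -wt w m = n,
        MvPolynomial.monomial m.some (p.coeff m)) := by
  conv_lhs => rw [p.as_sum]
  rw [map_sum, HahnSeries.coeff_sum, map_sum, Finset.sum_filter]
  refine Finset.sum_congr rfl fun m _ => ?_
  rw [ev0_monomial, HahnSeries.coeff_single]
  by_cases h : -wt w m = n
  · rw [if_pos h, if_pos h.symm]
  · rw [if_neg h, if_neg fun h' => h h'.symm]

theorem wt_eq (w : E → ℤ) (m : Option E →₀ ℕ) :
    wt w m = -(m none : ℤ) + m.some.sum fun e k => (k : ℤ) * w e := by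
  induction m using Finsupp.induction_linear with
  | zero => simp [wt]
  | add m m' h h' =>
    rw [wt_add, h, h', Finsupp.some_add, Finsupp.sum_add_index' (by simp)
      (by intros; push_cast; ring), Finsupp.add_apply]
    push_cast
    ring
  | single o k =>
    have h1 : wt w (Finsupp.single o k) = (k : ℤ) * o.elim (-1) w := by
      unfold wt
      rw [Finsupp.sum_single_index (by simp)]
    rw [h1]
    cases o with
    | none => simp
    | some e => simp [Finsupp.sum_single_index]

theorem coeff_ne (w : E → ℤ) (p : P E) (m0 : Option E →₀ ℕ) (h : m0 ∈ p.support) :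
    (ev0 w p).coeff (-wt w m0) ≠ 0 := by
  rw [coeff_ev0]
  intro h0
  have h1 := (IsFractionRing.injective (MvPolynomial E ℚ) (KK E)) (h0.trans (map_zero _).symm)
  have h2 := congrArg (MvPolynomial.coeff m0.some) h1
  rw [MvPolynomial.coeff_sum, Finset.sum_eq_single m0] at h2
  · rw [MvPolynomial.coeff_monomial, if_pos rfl, MvPolynomial.coeff_zero] at h2
    exact MvPolynomial.mem_support_iff.1 h h2
  · intro m hm hne
    rw [MvPolynomial.coeff_monomial, if_neg]
    intro hs
    apply hne
    have h3 := (Finset.mem_filter.1 hm).2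
    rw [wt_eq, wt_eq, hs] at h3
    ext o
    cases o with
    | none => omega
    | some e => rw [← Finsupp.some_apply, ← Finsupp.some_apply, hs]
  · intro hm
    exact (hm (Finset.mem_filter.2 ⟨h, rfl⟩)).elim

theorem abv_ev0 (w : E → ℤ) (p : P E) : abv (KK E) (ev0 w p) = nrm w p := by
  by_cases h0 : ev0 w p = 0
  · have : p.support = ∅ := Finset.eq_empty_of_forall_notMem fun m hm =>
      coeff_ne w p m hm (by rw [h0]; simp)
    simp [h0, nrm, this]
  rw [abv_apply, if_neg h0]
  have h1 : ((2 : ℝ≥0) ^ (-(ev0 w p).order)) = nrm w p := by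
    apply le_antisymm
    · have h2 := mt HahnSeries.coeff_order_eq_zero.1 h0
      rw [coeff_ev0] at h2
      have h3 : (p.support.filter fun m => -wt w m = (ev0 w p).order).Nonempty := by
        rw [Finset.nonempty_iff_ne_empty]
        intro h
        rw [h] at h2
        simp at h2
      obtain ⟨m, hm⟩ := h3
      obtain ⟨hm1, hm2⟩ := Finset.mem_filter.1 hm
      rw [← hm2, neg_neg]
      exact Finset.le_sup (f := fun m => (2 : ℝ≥0) ^ wt w m) hm1
    · refine Finset.sup_le fun m hm => ?_
      have := HahnSeries.order_le_of_coeff_ne_zero (coeff_ne w p m hm)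
      exact zpow_le_zpow_right₀ one_le_two (by omega)
  rw [← h1]
  simp

theorem norm_tau (K : Type) [Field K] : ‖io K (HahnSeries.single (-1) 1)‖ = 2 := by
  rw [norm_io, abv_apply, if_neg (HahnSeries.single_ne_zero one_ne_zero),
    HahnSeries.order_single one_ne_zero]
  simp

theorem fl : FL := by
  intro E
  let nf : NontriviallyNormedField (Completion (LS (KK E))) :=
    { (inferInstance : NormedField (Completion (LS (KK E)))) with
      non_trivial := ⟨_, by rw [norm_tau]; exact one_lt_two⟩ }
  have : CharZero (KK E) := IsFractionRing.charZero_of_isFractionRing (MvPolynomial E ℚ)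
  have cz : CharZero (Completion (LS (KK E))) :=
    charZero_of_injective_ringHom (f := (io (KK E)).comp HahnSeries.C) (RingHom.injective _)
  refine ⟨@Fld.mk E (Completion (LS (KK E))) nf (ultra _) inferInstance cz
    (io _ (HahnSeries.single 1 1))
    (fun e => io _ (HahnSeries.single 0 (algebraMap (MvPolynomial E ℚ) (KK E)
      (MvPolynomial.X e)))) (disc _) fun w p => ?_⟩
  have h : (MvPolynomial.aeval (fun o : Option E => o.elim (io (KK E) (HahnSeries.single 1 1))
      fun e => io (KK E) (HahnSeries.single 0 (algebraMap (MvPolynomial E ℚ) (KK E)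
        (MvPolynomial.X e))) * io (KK E) (HahnSeries.single 1 1) ^ (-w e)) :
          P E →ₐ[ℚ] _).toRingHom = (io (KK E)).comp (ev0 w) := by
    refine MvPolynomial.ringHom_ext' (RingHom.ext_rat _ _) fun o => ?_
    cases o with
    | none => simp [ev0, gv]
    | some e =>
      simp only [AlgHom.toRingHom_eq_coe, RingHom.coe_coe, MvPolynomial.aeval_X, Option.elim_some,
        RingHom.comp_apply, ev0, MvPolynomial.eval₂Hom_X', gv]
      rw [← map_zpow₀, ← map_mul, ← RatFunc.single_zpow, HahnSeries.single_mul_single]
      simp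
  have h2 := RingHom.congr_fun h p
  refine NNReal.eq ?_
  rw [coe_nnnorm, ← abv_ev0, ← norm_io]
  exact congrArg norm h2

end Pool.Agent.PD3A.FLp
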