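import Pool.Agent.Lib.MP_d98eb9_al.TA.RF

/-! The finite theorem. -/

namespace Pool.Agent.PD3A

open MvPolynomial RFx
open scoped NNReal Classical

namespace FTx

section Sg

variable {k σ : Type} [Field k] [Fintype σ]

/-- the gauge substitution -/
noncomputable def sg (τ : k) (lam : σ → ℤ) : MvPolynomial σ k →+* MvPolynomial σ k :=
  eval₂Hom C fun e => C (τ ^ lam e) * X e

lemma coeff_sg {τ : k} (hτ : τ ≠ 0) (lam : σ → ℤ) (p : MvPolynomial σ k) (m : σ →₀ ℕ) :
    coeff m (sg τ lam p) = τ ^ (∑ e, lam e * (m e : ℤ)) * coeff m p := by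
  induction p using MvPolynomial.induction_on' with
  | add p q hp hq => simp only [map_add, coeff_add, hp, hq, mul_add]
  | monomial u c =>
    have h1 : ∀ s : Finset σ, τ ^ (∑ e ∈ s, lam e * (u e : ℤ)) = ∏ e ∈ s, (τ ^ lam e) ^ u e := by
      intro s
      induction s using Finset.induction_on with
      | empty => simp
      | insert a s ha ih => rw [Finset.sum_insert ha, Finset.prod_insert ha, zpow_add₀ hτ, ih,
          zpow_mul, zpow_natCast]
    have h2 : sg τ lam (monomial u c) = C (τ ^ (∑ e, lam e * (u e : ℤ))) * monomial u c := by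
      rw [sg, eval₂Hom_monomial, monomial_eq, Finsupp.prod_fintype _ _ (by simp),
        Finsupp.prod_fintype _ _ (by simp), h1]
      simp only [mul_pow, Finset.prod_mul_distrib, map_prod, map_pow]
      ring
    rw [h2, coeff_C_mul, coeff_monomial]
    split_ifs with h
    · rw [h]
    · simp

omit [Fintype σ] in
lemma free_iff (e : σ) (p : MvPolynomial σ k) : (∀ m ∈ p.support, m e = 0) ↔ p.degreeOf e = 0 := by
  rw [← Nat.le_zero, degreeOf_le_iff]
  simp only [Nat.le_zero]

lemma const_of {β : Type} (f : (σ → ℤ) → β) (h : ∀ s e z, f (Function.update s e z) = f s)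
    (s : σ → ℤ) : f s = f 0 := by
  have key : ∀ T : Finset σ, f (T.piecewise s 0) = f 0 := fun T => by
    induction T using Finset.induction_on with
    | empty => simp
    | insert a T _ ih => rw [Finset.piecewise_insert, h, ih]
  simpa using key Finset.univ

end Sg

lemma evs_free {L : Type} [NormedField L] {σ : Type} (k : Subfield L) (τ : L) (x : σ → L)
    (s : σ → ℤ) (e : σ) (z : ℤ) (p : MvPolynomial σ k) (h : p.degreeOf e = 0) :
    evs k τ x (Function.update s e z) p = evs k τ x s p := by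
  refine eval₂Hom_congr' rfl (fun i hi _ => ?_) rfl
  rw [Function.update_of_ne]
  rintro rfl
  obtain ⟨m, hm, hm'⟩ := (mem_vars_iff_mem_support _).1 hi
  exact Finsupp.mem_support_iff.1 hm' ((free_iff i p).2 h m hm)

lemma two_lt {a : ℝ≥0} {n : ℤ} (h : a ≠ 0 → ∃ m : ℤ, a = 2 ^ m) (hl : a < 2 ^ n) :
    a ≤ 2⁻¹ * 2 ^ n := by
  by_cases h0 : a = 0
  · simp [h0]
  obtain ⟨m, rfl⟩ := h h0
  rw [zpow_lt_zpow_iff_right₀ one_lt_two] at hl
  rw [mul_comm, ← zpow_sub_one₀ two_ne_zero]
  exact zpow_le_zpow_right₀ one_le_two (by omega)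

end FTx

open FTx

theorem fta : FTa := by
  intro hRF hUF L _ _ _ k τ σ Φ Co _ _ _ x M o lam hτ hτn disc inj hom
  choose h hh using hom
  set Rw : (σ → ℤ) → Φ → Co → L := fun s g j => evs k τ x s (M g j) with hRw
  have hA : ∀ {u : ℕ} s (J : Fin u → Φ) (f : Fin u → Co),
      evs k τ x s (Matrix.of fun i j => M (J i) (f j)).det = mn (Rw s ∘ J) f := fun s J f => by
    rw [RingHom.map_det, mn]
    congr 1
  have hB : ∀ s, ∃ J : Fin (Module.finrank L (Submodule.span L (Set.range (Rw s)))) → Φ,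
      LinearIndependent L (Rw s ∘ J) := fun s => by
    obtain ⟨κ, a, ha, hsp, hli⟩ := exists_linearIndependent' L (Rw s)
    have : Finite κ := Finite.of_injective a ha
    let : Fintype κ := Fintype.ofFinite κ
    have h1 := finrank_span_eq_card hli
    rw [hsp] at h1
    let e := (Fintype.equivFinOfCardEq h1.symm).symm
    exact ⟨a ∘ e, hli.comp e e.injective⟩
  have hC : ∀ {u : ℕ} s (J : Fin u → Φ), LinearIndependent L (Rw s ∘ J) →
      ∃ f : Fin u → Co, (Matrix.of fun i j => M (J i) (f j)).det ≠ 0 := fun s J h1 => by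
    have h2 := (mm_ne_iff _).2 h1
    obtain ⟨f, hf⟩ := exists_max _ h2
    exact ⟨f, fun h0 => h2 (by rw [← hf, ← hA, h0, map_zero, nnnorm_zero])⟩
  have hD : ∀ {u : ℕ} s s' (J : Fin u → Φ), LinearIndependent L (Rw s ∘ J) →
      LinearIndependent L (Rw s' ∘ J) := fun s s' J h1 => by
    obtain ⟨f, hf⟩ := hC s J h1
    refine (mm_ne_iff _).1 fun h0 => hf (inj s' ?_)
    have := le_mm (Rw s' ∘ J) f
    rwa [h0, nonpos_iff_eq_zero, nnnorm_eq_zero, ← hA, ← map_zero (evs k τ x s')] at this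
  have hle : ∀ {u : ℕ} s (J : Fin u → Φ), Submodule.span L (Set.range (Rw s ∘ J)) ≤
      Submodule.span L (Set.range (Rw s)) := fun s J =>
    Submodule.span_mono (Set.range_comp_subset_range _ _)
  have hE : ∀ s s', Module.finrank L (Submodule.span L (Set.range (Rw s))) ≤
      Module.finrank L (Submodule.span L (Set.range (Rw s'))) := fun s s' => by
    obtain ⟨J, hJ⟩ := hB s
    have h1 := Submodule.finrank_mono (hle s' J)
    rwa [finrank_span_eq_card (hD s s' J hJ), Fintype.card_fin] at h1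
  obtain ⟨J0, hJ0⟩ := hB 0
  have hrk : ∀ s, Module.finrank L (Submodule.span L (Set.range (Rw s))) = _ := fun s =>
    le_antisymm (hE s 0) (hE 0 s)
  generalize Module.finrank L (Submodule.span L (Set.range (Rw 0))) = u at J0 hJ0 hrk
  have hsp : ∀ s, Submodule.span L (Set.range (Rw s ∘ J0)) = Submodule.span L (Set.range (Rw s)) :=
    fun s => Submodule.eq_of_le_of_finrank_eq (hle s J0) (by
      rw [finrank_span_eq_card (hD 0 s J0 hJ0), Fintype.card_fin, hrk])
  have hc : ∀ g, ∃ c : Fin u → L, ∑ p, c p • (Rw 0 ∘ J0) p = Rw 0 g := fun g =>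
    (Submodule.mem_span_range_iff_exists_fun L).1 (hsp 0 ▸ Submodule.subset_span ⟨g, rfl⟩)
  choose c hc using hc
  obtain ⟨f0, hf0⟩ := hC 0 J0 hJ0
  obtain ⟨α, β, hαβ, hbez⟩ := hUF k σ (Fin u → Φ) (Fin u → Co)
    (fun J f => (Matrix.of fun i j => M (J i) (f j)).det) (fun J J' f f' => inj 0 (by
      have h1 : ∀ J : Fin u → Φ, ∃ z, ∀ f, mn (Rw 0 ∘ J) f = z * mn (Rw 0 ∘ J0) f := fun J => by
        have h2 : Rw 0 ∘ J = fun i => ∑ p, Matrix.of (fun i => c (J i)) i p • (Rw 0 ∘ J0) p :=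
          funext fun i => (hc (J i)).symm
        exact ⟨_, fun f => h2 ▸ mn_mul (Matrix.of fun i => c (J i)) _ f⟩
      obtain ⟨z, hz⟩ := h1 J
      obtain ⟨z', hz'⟩ := h1 J'
      rw [map_mul, map_mul, hA, hA, hA, hA, hz, hz, hz', hz']
      ring)) ⟨J0, f0, hf0⟩
  have ne : ∀ s {p}, p ≠ 0 → evs k τ x s p ≠ 0 := fun s p hp h0 =>
    hp (inj s (h0.trans (map_zero _).symm))
  have hα0 : α J0 ≠ 0 := left_ne_zero_of_mul (hαβ J0 f0 ▸ hf0)
  have hβ0 : β f0 ≠ 0 := right_ne_zero_of_mul (hαβ J0 f0 ▸ hf0)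
  have hsup : ∀ s f, ‖evs k τ x s (β f)‖₊ ≤ Finset.univ.sup fun f => ‖evs k τ x s (β f)‖₊ :=
    fun s f => Finset.le_sup (f := fun f => ‖evs k τ x s (β f)‖₊) (Finset.mem_univ f)
  have hF : ∀ s, ∃ n : ℤ, (Finset.univ.sup fun f => ‖evs k τ x s (β f)‖₊) = 2 ^ n ∧
      ∃ f, ‖evs k τ x s (β f)‖₊ = 2 ^ n := fun s => by
    obtain ⟨f, -, hf⟩ := Finset.exists_mem_eq_sup Finset.univ ⟨f0, Finset.mem_univ _⟩
      fun f => ‖evs k τ x s (β f)‖₊
    obtain ⟨n, hn⟩ := disc (evs k τ x s (β f)) fun h0 => ne s hβ0 (by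
      simpa [hf, h0] using hsup s f0)
    exact ⟨n, hf.trans hn, f, hn⟩
  choose F hF hF' using hF
  -- the gauge
  set t : k := ⟨τ, hτ⟩ with ht
  have hτ0 : τ ≠ 0 := fun h0 => by simp [h0] at hτn
  have ht0 : t ≠ 0 := fun h0 => hτ0 (congrArg Subtype.val h0)
  have hev : ∀ s p, evs k τ x s (sg t lam p) = evs k τ x (s - lam) p := fun s p => by
    refine RingHom.congr_fun (f := (evs k τ x s).comp (sg t lam)) (ringHom_ext (fun r => ?_)
      fun e => ?_) p
    · simp [sg, evs]
    · simp only [sg, evs, RingHom.comp_apply, eval₂Hom_X', map_mul, eval₂Hom_C, map_zpow₀,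
        Pi.sub_apply, sub_eq_add_neg]
      change τ ^ lam e * _ = _
      rw [neg_add_rev, neg_neg, zpow_add₀ hτ0]
      ring
  let col : Co → k := fun j => if j = o then t else 1
  have hM : ∀ g j, sg t lam (M g j) = C (t ^ h g) * (C (col j) * M g j) := fun g j => by
    ext1 m
    rw [coeff_sg ht0, coeff_C_mul, coeff_C_mul]
    by_cases hm : m ∈ (M g j).support
    · rw [hh g j m hm, zpow_add₀ ht0, mul_assoc]
      simp only [col]
      split_ifs <;> simp
    · simp [notMem_support_iff.1 hm]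
  let β' : (Fin u → Co) → MvPolynomial σ k := fun f => C (∏ j, col (f j)) * β f
  let a : (Fin u → Φ) → k := fun J => ∏ i, t ^ h (J i)
  have ha : ∀ J, a J ≠ 0 := fun J => Finset.prod_ne_zero_iff.2 fun i _ => zpow_ne_zero _ ht0
  have hG : ∀ J f, sg t lam (α J) * sg t lam (β f) = C (a J) * α J * β' f := fun J f => by
    have h1 : (sg t lam).mapMatrix (Matrix.of fun i j => M (J i) (f j)) = Matrix.of fun i j =>
        C (t ^ h (J i)) * Matrix.of (fun i j => C (col (f j)) *
          Matrix.of (fun i j => M (J i) (f j)) i j) i j := by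
      ext1 i j
      exact hM _ _
    rw [← map_mul, ← hαβ, RingHom.map_det, h1, Matrix.det_mul_column, Matrix.det_mul_row, hαβ]
    simp only [a, β', map_prod]
    ring
  have hβ' : β' f0 ≠ 0 := mul_ne_zero (C_ne_zero.2 (Finset.prod_ne_zero_iff.2 fun j _ => by
    simp only [col]
    split_ifs <;> simp [ht0])) hβ0
  let κ : (σ → ℤ) → L := fun s => evs k τ x s (C (a J0) * α J0) / evs k τ x s (sg t lam (α J0))
  have hκ : ∀ s f, evs k τ x s (sg t lam (β f)) = κ s * evs k τ x s (β' f) := fun s f => by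
    have h1 : evs k τ x s (sg t lam (α J0)) ≠ 0 := hev s _ ▸ ne _ hα0
    rw [div_mul_eq_mul_div, eq_div_iff h1, mul_comm, ← map_mul, hG, map_mul]
  have hκc : ∀ s, κ s = κ 0 := const_of κ fun s e z => by
    obtain ⟨r, hq0, hq⟩ := hbez e
    set q := ∑ J, r J * α J with hq'
    set p := ∑ J, r J * C (a J)⁻¹ * sg t lam (α J) with hp
    set p' := ∑ J, sg t lam (r J) * (C (a J) * α J) with hp'
    have h1 : q * β' f0 = p * sg t lam (β f0) := by
      rw [hq', hp, Finset.sum_mul, Finset.sum_mul]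
      refine Finset.sum_congr rfl fun J _ => ?_
      have : (C (a J)⁻¹ * C (a J) : MvPolynomial σ k) = 1 := by
        rw [← C_mul, inv_mul_cancel₀ (ha J), C_1]
      linear_combination (-(r J * C (a J)⁻¹)) * hG J f0 - r J * α J * β' f0 * this
    have h2 : sg t lam q * sg t lam (β f0) = p' * β' f0 := by
      rw [hq', hp', map_sum, Finset.sum_mul, Finset.sum_mul]
      exact Finset.sum_congr rfl fun J _ => by rw [map_mul, mul_assoc, hG, mul_assoc (sg t lam _)]
    have h3 : p * p' = q * sg t lam q := mul_right_cancel₀ hβ' (by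
      linear_combination (-p) * h2 - sg t lam q * h1)
    have h4 : sg t lam q ≠ 0 := fun h0 => ne (0 - lam) hq0 (by rw [← hev, h0, map_zero])
    have h5 : p * p' ≠ 0 := h3 ▸ mul_ne_zero hq0 h4
    have h6 : q.degreeOf e = 0 := (free_iff e q).1 hq
    have h7 : (sg t lam q).degreeOf e = 0 := (free_iff e _).1 fun m hm => hq m (by
      rw [mem_support_iff, coeff_sg ht0] at hm
      exact mem_support_iff.2 (right_ne_zero_of_mul hm))
    have h8 := congrArg (degreeOf e) h3
    rw [degreeOf_mul_eq (left_ne_zero_of_mul h5) (right_ne_zero_of_mul h5),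
      degreeOf_mul_eq hq0 h4, h6, h7] at h8
    have h9 : ∀ s, κ s = evs k τ x s q / evs k τ x s p := fun s => by
      have := congrArg (evs k τ x s) h1
      rw [map_mul, map_mul _ p, hκ, ← mul_assoc] at this
      rw [mul_right_cancel₀ (ne s hβ') this, mul_div_cancel_left₀ _
        (ne s (left_ne_zero_of_mul h5))]
    rw [h9, h9, evs_free _ _ _ _ _ _ _ h6, evs_free _ _ _ _ _ _ _ (by omega)]
  obtain ⟨W, hW⟩ := disc (κ 0) fun h0 => ne (0 - lam) hβ0 (by rw [← hev, hκ, h0, zero_mul])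
  refine ⟨u, α, β, F, W, hαβ, hbez, hrk, hF, fun s => ?_⟩
  let w : (Fin u → Co) → ℝ≥0 := fun f => ∏ j, if f j = o then 2⁻¹ else 1
  have hw : ∀ f, ‖evs k τ x (s - lam) (β f)‖₊ = 2 ^ W * (w f * ‖evs k τ x s (β f)‖₊) := fun f => by
    rw [← hev, hκ, hκc, nnnorm_mul, hW, map_mul, nnnorm_mul]
    congr 2
    simp only [evs, eval₂Hom_C, map_prod, nnnorm_prod, w, col]
    refine Finset.prod_congr rfl fun j _ => ?_
    split_ifs
    · exact hτn
    · simp
  have hw1 : ∀ (f : Fin u → Co) j, (if f j = o then 2⁻¹ else 1 : ℝ≥0) ≤ 1 := fun f j => by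
    split_ifs
    · exact inv_le_one_of_one_le₀ one_le_two
    · rfl
  have hw2 : ∀ f, (∀ j, f j ≠ o) → w f = 1 := fun f hf => by simp [w, hf]
  have hmm : ∀ f, ‖mn (Rw s ∘ J0) f‖₊ = ‖evs k τ x s (α J0)‖₊ * ‖evs k τ x s (β f)‖₊ := fun f => by
    rw [← hA, hαβ, map_mul, nnnorm_mul]
  have hP : dst (Set.range (Rw s)) (Pi.single o 1) < 1 ↔
      ∀ f : Fin u → Co, (∀ j, f j ≠ o) → ‖evs k τ x s (β f)‖₊ < 2 ^ F s := by
    have h1 : mm (Rw s ∘ J0) = ‖evs k τ x s (α J0)‖₊ * 2 ^ F s := by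
      rw [← hF, NNReal.mul_finset_sup, mm]
      exact Finset.sup_congr (Finset.ext fun _ => by simp) fun f _ => hmm f
    rw [dst, ← hsp s, ← dst, piv _ _ ((mm_ne_iff _).2 (hD 0 s J0 hJ0)), h1]
    simp only [hmm, mul_lt_mul_iff_right₀ (nnnorm_pos.2 (ne s hα0))]
  have fin : ∀ c : ℤ, (Finset.univ.sup fun f => w f * ‖evs k τ x s (β f)‖₊) = 2 ^ (F s - c) →
      F s - F (s - lam) = c - W := fun c hc => by
    have h1 := hF (s - lam)
    simp only [hw] at h1
    rw [← NNReal.mul_finset_sup, hc, ← zpow_add₀ two_ne_zero] at h1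
    have := zpow_right_injective₀ two_pos (by norm_num) h1
    omega
  have up : ∀ f, w f * ‖evs k τ x s (β f)‖₊ ≤ Finset.univ.sup fun f => w f * ‖evs k τ x s (β f)‖₊ :=
    fun f => Finset.le_sup (f := fun f => w f * ‖evs k τ x s (β f)‖₊) (Finset.mem_univ f)
  split_ifs with hp
  · refine fin 1 ?_
    rw [zpow_sub_one₀ two_ne_zero, mul_comm]
    refine le_antisymm (Finset.sup_le fun f _ => ?_) ?_
    · by_cases hf : ∀ j, f j ≠ o
      · rw [hw2 f hf, one_mul]
        exact two_lt (fun h0 => disc _ (nnnorm_ne_zero_iff.1 h0)) (hP.1 hp f hf)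
      · push Not at hf
        obtain ⟨j, hj⟩ := hf
        refine mul_le_mul' ?_ (hF s ▸ hsup s f)
        simp only [w]
        rw [← Finset.mul_prod_erase _ _ (Finset.mem_univ j), if_pos hj]
        exact mul_le_of_le_one_right (by simp) (Finset.prod_le_one' fun j _ => hw1 f j)
    · obtain ⟨f, hf⟩ := hF' s
      obtain ⟨j, hj⟩ : ∃ j, f j = o := by
        by_contra h1
        push Not at h1
        exact (hP.1 hp f h1).ne hf
      refine le_trans (le_of_eq ?_) (up f)
      rw [hf]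
      congr 1
      simp only [w]
      rw [Finset.prod_eq_single j (fun i _ hi => if_neg fun h1 => ?_) (by simp), if_pos hj]
      have h2 := hαβ J0 f
      rw [Matrix.det_zero_of_column_eq hi (fun i => by simp [h1, hj])] at h2
      rw [(mul_eq_zero.1 h2.symm).resolve_left hα0, map_zero, nnnorm_zero] at hf
      exact zpow_ne_zero _ two_ne_zero hf.symm
  · refine fin 0 ?_
    rw [sub_zero]
    refine le_antisymm (Finset.sup_le fun f _ => (mul_le_of_le_one_left (by simp)
      (Finset.prod_le_one' fun j _ => hw1 f j)).trans (hF s ▸ hsup s f)) ?_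
    rw [hP] at hp
    push Not at hp
    obtain ⟨f, hf, h1⟩ := hp
    exact h1.trans (by simpa [hw2 f hf] using up f)

end Pool.Agent.PD3A
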