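import Pool.Agent.Lib.MP_d98eb9_al.TA.St

/-! Block GA: the variables outside `D` are generic over the closed subfield of `D`. -/

namespace Pool.Agent.PD3A

open scoped NNReal Classical

theorem ga_nrm {E : Type} (D : Set E) (s : Finset (E →₀ ℕ)) (p : (E →₀ ℕ) → P E)
    (hs : ∀ m ∈ s, ∀ e ∈ D, m e = 0)
    (hp : ∀ m ∈ s, ∀ m' ∈ (p m).support, ∀ e, e ∉ D → m' (some e) = 0) {m0 : E →₀ ℕ}
    (h0 : m0 ∈ s) :
    nrm 0 (p m0) ≤ nrm 0 (∑ m ∈ s, p m * MvPolynomial.monomial (m.mapDomain some) 1) := by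
  unfold nrm
  refine Finset.sup_le fun m' hm' => ?_
  have hw : wt (0 : E → ℤ) (m' + m0.mapDomain some) = wt 0 m' := by
    unfold wt
    rw [Finsupp.sum_add_index' (by simp) (by intro b m1 m2; push_cast; ring),
      Finsupp.sum_mapDomain_index (by simp) (by intro b m1 m2; push_cast; ring)]
    simp [Finsupp.sum]
  rw [← hw]
  refine Finset.le_sup (f := fun m => (2 : ℝ≥0) ^ wt (0 : E → ℤ) m) ?_
  rw [MvPolynomial.mem_support_iff, MvPolynomial.coeff_sum, Finset.sum_eq_single m0]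
  · rw [MvPolynomial.coeff_mul_monomial, mul_one]
    exact MvPolynomial.mem_support_iff.mp hm'
  · intro m hm hne
    rw [MvPolynomial.coeff_mul_monomial']
    split_ifs with hle
    · rw [mul_one]
      by_contra hc
      apply hne
      ext e
      by_cases he : e ∈ D
      · rw [hs m hm e he, hs m0 h0 e he]
      · have h1 := hp m hm _ (MvPolynomial.mem_support_iff.mpr hc) e he
        have h2 := hp m0 h0 m' hm' e he
        have h3 := hle (some e)
        simp only [Finsupp.coe_tsub, Pi.sub_apply, Finsupp.add_apply,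
          Finsupp.mapDomain_apply (Option.some_injective E), h2] at h1 h3
        omega
    · rfl
  · intro h
    exact absurd h0 h

theorem ga_ring {E : Type} (K : Fld E) (D : Set E) {z : K.L}
    (hz : z ∈ Subring.closure (insert K.τ (K.x '' D))) :
    ∃ p : P E, (∀ m' ∈ p.support, ∀ e, e ∉ D → m' (some e) = 0) ∧ K.ev 0 p = z := by
  have key : Subring.closure (insert K.τ (K.x '' D)) ≤
      (MvPolynomial.supported ℚ (insert none (some '' D))).toSubring.map (K.ev 0) := by
    rw [Subring.closure_le]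
    rintro y (rfl | ⟨e, he, rfl⟩)
    · exact ⟨MvPolynomial.X none, MvPolynomial.X_mem_supported.mpr (Or.inl rfl), by
        simp [Fld.ev]⟩
    · exact ⟨MvPolynomial.X (some e), MvPolynomial.X_mem_supported.mpr (Or.inr ⟨e, he, rfl⟩), by
        simp [Fld.ev]⟩
  obtain ⟨p, hp, rfl⟩ := key hz
  refine ⟨p, fun m' hm' e he => ?_, rfl⟩
  by_contra hne
  have h1 : some e ∈ p.vars := (MvPolynomial.mem_vars _).mpr ⟨m', hm', Finsupp.mem_support_iff.mpr hne⟩
  have h2 := MvPolynomial.mem_supported.mp hp h1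
  rcases h2 with h2 | ⟨e', he', h2⟩
  · exact Option.some_ne_none e h2
  · exact he (Option.some_injective E h2 ▸ he')

theorem ga_one {E : Type} (K : Fld E) (D : Set E) (s : Finset (E →₀ ℕ)) (c : (E →₀ ℕ) → K.L)
    (hs : ∀ m ∈ s, ∀ e ∈ D, m e = 0)
    (hc : ∀ m ∈ s, c m ∈ Subring.closure (insert K.τ (K.x '' D))) {m0 : E →₀ ℕ} (h0 : m0 ∈ s) :
    ‖c m0‖₊ ≤ ‖∑ m ∈ s, c m * m.prod fun e j => K.x e ^ j‖₊ := by
  choose! p hp using fun m hm => ga_ring K D (hc m hm)
  have hg : ∀ q : P E, ‖K.ev 0 q‖₊ = nrm 0 q := fun q => K.gauss 0 q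
  have h1 : ∑ m ∈ s, c m * m.prod (fun e j => K.x e ^ j) =
      K.ev 0 (∑ m ∈ s, p m * MvPolynomial.monomial (m.mapDomain some) 1) := by
    rw [map_sum]
    refine Finset.sum_congr rfl fun m hm => ?_
    rw [map_mul, (hp m hm).2]
    congr 1
    simp only [Fld.ev, AlgHom.toRingHom_eq_coe, RingHom.coe_coe, MvPolynomial.aeval_monomial,
      map_one, one_mul]
    rw [Finsupp.prod_mapDomain_index (by simp) (by intro b m1 m2; rw [pow_add])]
    simp
  rw [h1, ← (hp m0 h0).2, hg, hg]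
  exact ga_nrm D s p hs (fun m hm => (hp m hm).1) h0

theorem ga_two {E : Type} (K : Fld E) (D : Set E) (s : Finset (E →₀ ℕ)) (c : (E →₀ ℕ) → K.L)
    (hs : ∀ m ∈ s, ∀ e ∈ D, m e = 0)
    (hc : ∀ m ∈ s, c m ∈ Subfield.closure (insert K.τ (K.x '' D))) {m0 : E →₀ ℕ} (h0 : m0 ∈ s) :
    ‖c m0‖₊ ≤ ‖∑ m ∈ s, c m * m.prod fun e j => K.x e ^ j‖₊ := by
  have hq : ∀ t : Finset (E →₀ ℕ), t ⊆ s → ∃ q : K.L, q ≠ 0 ∧
      q ∈ Subring.closure (insert K.τ (K.x '' D)) ∧
      ∀ m ∈ t, q * c m ∈ Subring.closure (insert K.τ (K.x '' D)) := by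
    intro t
    induction t using Finset.induction_on with
    | empty => exact fun _ => ⟨1, one_ne_zero, one_mem _, by simp⟩
    | insert a t _ ih =>
      intro hsub
      obtain ⟨q, hq0, hq1, hq2⟩ := ih ((Finset.subset_insert a t).trans hsub)
      obtain ⟨y, hy, z, hz, hyz⟩ :=
        Subfield.mem_closure_iff.mp (hc a (hsub (Finset.mem_insert_self a t)))
      by_cases hz0 : z = 0
      · refine ⟨q, hq0, hq1, fun m hm => ?_⟩
        rcases Finset.mem_insert.mp hm with rfl | hm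
        · rw [← hyz, hz0, div_zero, mul_zero]
          exact zero_mem _
        · exact hq2 m hm
      · refine ⟨z * q, mul_ne_zero hz0 hq0, mul_mem hz hq1, fun m hm => ?_⟩
        rcases Finset.mem_insert.mp hm with rfl | hm
        · have : z * q * c m = q * y := by rw [← hyz]; field_simp
          rw [this]
          exact mul_mem hq1 hy
        · rw [mul_assoc]
          exact mul_mem hz (hq2 m hm)
  obtain ⟨q, hq0, -, hq2⟩ := hq s subset_rfl
  have h := ga_one K D s (fun m => q * c m) hs hq2 h0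
  simp only [mul_assoc, ← Finset.mul_sum, nnnorm_mul] at h
  exact le_of_mul_le_mul_left h (nnnorm_pos.mpr hq0)

theorem ga : GA := by
  intro E K D s c h m0 h0
  have hcl : IsClosed {c : (E →₀ ℕ) → K.L |
      ‖c m0‖₊ ≤ ‖∑ m ∈ s, c m * m.prod fun e j => K.x e ^ j‖₊} :=
    isClosed_le (by fun_prop) (by fun_prop)
  have hmem : c ∈ closure (Set.pi (s : Set (E →₀ ℕ))
      fun _ => (Subfield.closure (insert K.τ (K.x '' D)) : Set K.L)) := by
    rw [mem_closure_pi]
    intro m hm
    exact (h m hm).1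
  exact hcl.closure_subset_iff.mpr
    (fun c' hc' => ga_two K D s c' (fun m hm => (h m hm).2) hc' h0) hmem

end Pool.Agent.PD3A
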