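import Pool.Agent.Lib.MP_d98eb9_al.TA.St

/-! Block HM: Haar probability on sequences of digits. -/

namespace Pool.Agent.PD3A

open MeasureTheory Filter Set

theorem dense_finsupp (ι : Type) (N : ℕ) :
    Dense (Set.range fun η : ι →₀ ZMod N => (⇑η : ι → ZMod N)) := by
  classical
  intro x
  rw [mem_closure_iff_nhds]
  intro t ht
  rw [nhds_pi, Filter.mem_pi] at ht
  obtain ⟨I, hI, u, hu, hsub⟩ := ht
  refine ⟨fun i => if i ∈ hI.toFinset then x i else 0, hsub ?_, ?_⟩
  · intro i hi
    have : i ∈ hI.toFinset := by simpa using hi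
    simp only [this, if_true]
    exact mem_of_mem_nhds (hu i)
  · refine ⟨Finsupp.onFinset hI.toFinset (fun i => if i ∈ hI.toFinset then x i else 0) ?_, rfl⟩
    intro i hi
    by_contra h
    exact hi (if_neg h)

theorem hm : HM := by
  intro ι _ N hN
  haveI : NeZero N := ⟨hN⟩
  haveI : BorelSpace (ZMod N) := ⟨by
    rw [borel_eq_top_of_discrete]; rfl⟩
  let μ : Measure (ι → ZMod N) := Measure.addHaarMeasure ⊤
  have h1 : μ Set.univ = 1 := by
    have := Measure.addHaarMeasure_self (K₀ := (⊤ : TopologicalSpace.PositiveCompacts (ι → ZMod N)))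
    simpa using this
  haveI hp : IsProbabilityMeasure μ := ⟨h1⟩
  refine ⟨μ, hp, fun η => measurePreserving_add_right μ η, fun g => ?_, fun s hs hinv => ?_⟩
  · let f : (ι → ZMod N) →+ (ι → ZMod N) :=
      { toFun := fun ω => ω ∘ g, map_zero' := rfl, map_add' := fun _ _ => rfl }
    have hc : Continuous f := continuous_pi fun i => continuous_apply (g i)
    have hsurj : Function.Surjective f := fun y => ⟨y ∘ g.symm, by
      funext i; simp [f]⟩
    exact AddMonoidHom.measurePreserving (μ := μ) (ν := μ) hc hsurj rfl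
  · have hd : Dense {g : ι → ZMod N | (g +ᵥ ·) ⁻¹' s = s} := by
      refine (dense_finsupp ι N).mono ?_
      rintro _ ⟨η, rfl⟩
      have := hinv η
      simp only [Set.mem_setOf_eq, vadd_eq_add]
      convert this using 3
      exact add_comm _ _
    have hc := aeconst_of_dense_setOfPred_preimage_vadd_eq (μ := μ) hs.nullMeasurableSet hd
    rcases eventuallyConst_set'.mp hc with h | h
    · exact Or.inl (ae_eq_empty.mp h)
    · exact Or.inr ((prob_compl_eq_zero_iff hs).mp (ae_eq_univ.mp h))

end Pool.Agent.PD3A
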