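import Pool.Agent.Lib.MP_d98eb9_al.TA.L1

/-! Block L2: strict pivot sites and pivots of the order. -/

namespace Pool.Agent.PD3A

open scoped NNReal Classical

namespace L2a

open L1a

section

variable {E : Type}

/-- exponents as integer vectors -/
noncomputable def toZ (m : Option E →₀ ℕ) : Option E →₀ ℤ := m.mapRange Nat.cast Nat.cast_zero

lemma toZ_inj : Function.Injective (toZ (E := E)) :=
  Finsupp.mapRange_injective _ Nat.cast_zero Nat.cast_injective

lemma toZ_add (o : Option E) (m : Option E →₀ ℕ) :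
    toZ (Finsupp.single o 1 + m) = Finsupp.single o 1 + toZ m := by
  rw [toZ, Finsupp.mapRange_add Nat.cast_add, Finsupp.mapRange_single, Nat.cast_one, toZ]

/-- coefficient at an integer vector -/
noncomputable def cf (v : Option E →₀ ℤ) : P E →ₗ[ℚ] ℚ :=
  if h : ∃ m, toZ m = v then MvPolynomial.lcoeff ℚ h.choose else 0

lemma cf_toZ (m : Option E →₀ ℕ) (p : P E) : cf (toZ m) p = p.coeff m := by
  have h : ∃ m', toZ m' = toZ m := ⟨m, rfl⟩
  rw [cf, dif_pos h, toZ_inj h.choose_spec, MvPolynomial.lcoeff_apply]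

lemma cf_ne {v : Option E →₀ ℤ} {p : P E} (h : cf v p ≠ 0) : ∃ m ∈ p.support, toZ m = v := by
  by_cases h1 : ∃ m, toZ m = v
  · obtain ⟨m, rfl⟩ := h1
    exact ⟨m, MvPolynomial.mem_support_iff.2 (by rwa [cf_toZ] at h), rfl⟩
  · simp [cf, h1] at h

lemma cf_monomial (v : Option E →₀ ℤ) (m : Option E →₀ ℕ) (c : ℚ) :
    cf v (MvPolynomial.monomial m c) = if toZ m = v then c else 0 := by
  split_ifs with h
  · rw [← h, cf_toZ, MvPolynomial.coeff_monomial, if_pos rfl]
  · by_contra h1
    obtain ⟨m', h2, h3⟩ := cf_ne h1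
    exact h (Finset.mem_singleton.1 (MvPolynomial.support_monomial_subset h2) ▸ h3)

lemma cf_X (v : Option E →₀ ℤ) (o : Option E) (p : P E) :
    cf v (MvPolynomial.X o * p) = cf (v - Finsupp.single o 1) p := by
  induction p using MvPolynomial.induction_on' with
  | monomial m c =>
    rw [MvPolynomial.X, MvPolynomial.monomial_mul, one_mul, cf_monomial, cf_monomial, toZ_add]
    exact if_congr (by rw [eq_sub_iff_add_eq']) rfl rfl
  | add p q hp hq => rw [mul_add, map_add, map_add, hp, hq]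

variable {N : ℕ} (ω : ℕ × E → ZMod N)

/-- height of an integer vector -/
def lv (i : ℕ) (v : Option E →₀ ℤ) : ℤ := v.sum fun o k => k * o.elim (-1) (dig ω i)

lemma lv_add (i : ℕ) (v v' : Option E →₀ ℤ) : lv ω i (v + v') = lv ω i v + lv ω i v' :=
  Finsupp.sum_add_index' (by simp) (by intros; ring)

lemma lv_up (i : ℕ) (v : E →₀ ℤ) : lv ω i (v.mapDomain some) = lev ω i v :=
  Finsupp.sum_mapDomain_index_inj (Option.some_injective E)

lemma lv_toZ (m : Option E →₀ ℕ) : lv ω 0 (toZ m) = wt (dig ω 0) m :=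
  Finsupp.sum_mapRange_index (by simp)

lemma lev_sub (i : ℕ) (v v' : E →₀ ℤ) : lev ω i (v - v') = lev ω i v - lev ω i v' :=
  Finsupp.sum_sub_index (by intros; ring)

lemma le_nrm (w : E → ℤ) {p : P E} {m : Option E →₀ ℕ} (h : m ∈ p.support) :
    2 ^ wt w m ≤ nrm w p := Finset.le_sup (f := fun m => (2 : ℝ≥0) ^ wt w m) h

lemma le_vn {I : Type} (w : E → ℤ) (y : I →₀ P E) (i : I) : nrm w (y i) ≤ vn w y := by
  by_cases h : i ∈ y.support
  · exact Finset.le_sup (f := fun i => nrm w (y i)) h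
  · simp [Finsupp.notMem_support_iff.1 h, nrm]

end

variable {G Q X : Type} [Group G] [Group Q] {ψ : G →* Q} {d : G → (Q × X →₀ ℤ)} {a : G →₀ ℚ}
  {D : G → (Q × X →₀ ℕ)} {m0 : Q × X →₀ ℤ}

omit [Group G] in
lemma toZ_row (hD : ∀ q ∈ a.support, ∀ p, (D q p : ℤ) = d q p + m0 p) (g : Q) {q : G}
    (hq : q ∈ a.support) : toZ ((D q).mapDomain fun p => some (g * p.1, p.2)) =
      ((d q).mapDomain fun p => (g * p.1, p.2)).mapDomain some
        + m0.mapDomain fun p => some (g * p.1, p.2) := by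
  have h : (D q).mapRange Nat.cast Nat.cast_zero = d q + m0 := Finsupp.ext (hD q hq)
  rw [toZ, ← Finsupp.mapDomain_mapRange _ _ _ _ Nat.cast_add, h, Finsupp.mapDomain_add,
    ← Finsupp.mapDomain_comp]
  rfl

lemma sector (hd : ∀ b c, d (b * c) = d b + (d c).mapDomain fun p => (ψ b * p.1, p.2))
    (hi : Function.Injective d) (hD : ∀ q ∈ a.support, ∀ p, (D q p : ℤ) = d q p + m0 p)
    (ξ : G → ℝ) (hξ : ∀ c, ∑ b ∈ a.support, (a b : ℝ) * ξ (c * b) = 0)
    (z : Q →₀ P (Q × X)) (hz : z ∈ Submodule.span (P (Q × X)) (Set.range (row ψ a D))) :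
    ∀ n : Option (Q × X) →₀ ℤ, ∃ y : G →₀ ℚ,
      (∀ c, Finsupp.linearCombination ℚ (fun b => ξ (c * b)) y = 0) ∧
        ∀ b, y b = cf ((d b).mapDomain some + n) (z (ψ b)) := by
  induction hz using Submodule.span_induction with
  | zero => exact fun n => ⟨0, by simp, by simp⟩
  | add z z' _ _ h1 h2 =>
    intro n
    obtain ⟨y, h1, h3⟩ := h1 n
    obtain ⟨y', h2, h4⟩ := h2 n
    exact ⟨y + y', fun c => by rw [map_add, h1, h2, add_zero], fun b => by simp [h3, h4]⟩
  | smul p z _ h =>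
    induction p using MvPolynomial.induction_on with
    | C c =>
      intro n
      obtain ⟨y, h1, h2⟩ := h n
      refine ⟨c • y, fun c => by rw [map_smul, h1, smul_zero], fun b => ?_⟩
      rw [Finsupp.smul_apply, Finsupp.smul_apply, smul_eq_mul (MvPolynomial.C c),
        MvPolynomial.C_mul', map_smul, h2]
    | add p q h1 h2 =>
      intro n
      obtain ⟨y, h1, h3⟩ := h1 n
      obtain ⟨y', h2, h4⟩ := h2 n
      exact ⟨y + y', fun c => by rw [map_add, h1, h2, add_zero],
        fun b => by simp [h3, h4, add_mul]⟩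
    | mul_X p o h1 =>
      intro n
      obtain ⟨y, h1, h2⟩ := h1 (n - Finsupp.single o 1)
      refine ⟨y, h1, fun b => ?_⟩
      rw [h2, mul_comm, mul_smul, Finsupp.smul_apply (MvPolynomial.X o), smul_eq_mul, cf_X,
        add_sub_assoc]
  | mem z h =>
    obtain ⟨g, rfl⟩ := h
    intro n
    have h1 : ∀ b, cf ((d b).mapDomain some + n) (row ψ a D g (ψ b)) = ∑ q ∈ a.support,
        if g * ψ q = ψ b ∧ ((d q).mapDomain fun p => (g * p.1, p.2)).mapDomain some
          + (m0.mapDomain fun p => some (g * p.1, p.2)) = (d b).mapDomain some + n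
        then a q else 0 := by
      intro b
      rw [row_apply, map_sum]
      refine Finset.sum_congr rfl fun q hq => ?_
      rw [apply_ite (cf _), map_zero, cf_monomial, toZ_row hD g hq, ite_and]
      split_ifs <;> rfl
    simp only [h1]
    by_cases h2 : ∃ b q, g * ψ q = ψ b ∧ ((d q).mapDomain fun p => (g * p.1, p.2)).mapDomain some
      + (m0.mapDomain fun p => some (g * p.1, p.2)) = (d b).mapDomain some + n
    · obtain ⟨b0, q0, h2, h3⟩ := h2
      obtain ⟨h, rfl⟩ : ∃ h, b0 = h * q0 := ⟨b0 * q0⁻¹, by simp⟩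
      obtain rfl : g = ψ h := by simpa using h2
      rw [hd, Finsupp.mapDomain_add, add_comm ((d h).mapDomain some), add_assoc,
        add_right_inj] at h3
      refine ⟨a.equivMapDomain (Equiv.mulLeft h), fun c => ?_, fun b => ?_⟩
      · rw [Finsupp.linearCombination_equivMapDomain, Finsupp.linearCombination_apply,
          ← hξ (c * h)]
        simp [Finsupp.sum, Rat.smul_def, mul_assoc]
      · obtain ⟨b, rfl⟩ : ∃ b', b = h * b' := ⟨h⁻¹ * b, by simp⟩
        have h4 : ∀ q, (ψ h * ψ q = ψ (h * b) ∧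
            ((d q).mapDomain fun p => (ψ h * p.1, p.2)).mapDomain some
            + (m0.mapDomain fun p => some (ψ h * p.1, p.2)) = (d (h * b)).mapDomain some + n)
            ↔ q = b := by
          intro q
          rw [h3, ← add_assoc, ← Finsupp.mapDomain_add, add_comm _ (d h), ← hd, add_left_inj,
            (Finsupp.mapDomain_injective (Option.some_injective _)).eq_iff, hi.eq_iff,
            mul_right_inj]
          exact ⟨fun h => h.2, fun h => ⟨by rw [h, map_mul], h⟩⟩
        simp only [h4, Finset.sum_ite_eq']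
        by_cases h5 : a b = 0 <;> simp [h5]
    · refine ⟨0, by simp, fun b => (Finset.sum_eq_zero fun q _ => if_neg fun h => ?_).symm⟩
      exact h2 ⟨b, q, h⟩

end L2a

open L1a L2a in
theorem l2 : L2 := by
  intro G Q X _ _ ψ d a D m0 N ω hd hi hD
  have two' : (1 : ℝ≥0) < 2 := one_lt_two
  have d0 : ∀ v : Q × X →₀ ℤ, v.mapDomain (fun p => p) = v := fun v => Finsupp.mapDomain_id
  have d1 : d 1 = 0 := by simpa [d0] using hd 1 1
  refine ⟨fun ξ hξ ht hp => ?_, fun ha ht => ?_⟩
  · have : Nonempty {q : P (Q × X) // q ≠ 0} := ⟨⟨1, one_ne_zero⟩⟩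
    obtain ⟨⟨⟨q, hq⟩, z, hz⟩, h⟩ := exists_lt_of_ciInf_lt hp
    obtain ⟨m1, hm1, h1⟩ := q.support.exists_mem_eq_sup (MvPolynomial.support_nonempty.2 hq)
      fun m => (2 : ℝ≥0) ^ wt (dig ω 0) m
    change nrm (dig ω 0) q = _ at h1
    change vn (dig ω 0) (q • Finsupp.single 1 1 - z) / nrm (dig ω 0) q < 1 at h
    rw [h1, div_lt_one (by positivity)] at h
    have h2 : ∀ i, ∀ m ∈ ((q • Finsupp.single (1 : Q) (1 : P (Q × X)) - z) i).support,
        wt (dig ω 0) m < wt (dig ω 0) m1 := fun i m hm =>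
      (zpow_lt_zpow_iff_right₀ two').1 (((le_nrm _ hm).trans (le_vn _ _ i)).trans_lt h)
    have h3 : m1 ∈ (z 1).support := by
      by_contra h4
      refine (h2 1 m1 ?_).false
      simpa [MvPolynomial.notMem_support_iff.1 h4] using hm1
    obtain ⟨m2, hm2, h4⟩ := (z 1).support.exists_max_image
      (fun m => toLex fun i => lv ω i (toZ m)) ⟨m1, h3⟩
    obtain ⟨y, h5, h6⟩ := sector hd hi hD ξ hξ z hz (toZ m2)
    refine ⟨y, fun c => ?_, ?_, fun b hb hb1 => ?_⟩
    · simpa [Finsupp.linearCombination_apply, Finsupp.sum, Rat.smul_def] using h5 c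
    · rw [h6, d1, map_one, Finsupp.mapDomain_zero, zero_add, cf_toZ]
      exact MvPolynomial.mem_support_iff.1 hm2
    · obtain ⟨m, hm, h7⟩ := cf_ne (h6 b ▸ Finsupp.mem_support_iff.1 hb)
      have h8 : ∀ i, lv ω i (toZ m) = lev ω i (d b) + lv ω i (toZ m2) := fun i => by
        rw [h7, lv_add, lv_up]
      have h9 : ∀ i, lev ω i (d 1) = 0 := fun i => by simp [d1, lev]
      by_cases hψ : ψ b = 1
      · rw [hψ] at hm
        obtain ⟨j, hj⟩ := ht (d b) fun h => hb1 (hi (h.trans d1.symm))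
        obtain ⟨i, h10, h11⟩ := (h4 m hm).lt_of_ne fun h =>
          hj (by simpa [h8] using congrFun (toLex.injective h) j)
        exact ⟨i, fun j hj => by simpa [h8, h9] using h10 j hj, by simpa [h8, h9] using h11⟩
      · have h10 := h2 (ψ b) m (by simpa [Finsupp.single_eq_of_ne hψ] using hm)
        have h11 : lv ω 0 (toZ m1) ≤ lv ω 0 (toZ m2) := by
          by_contra h12
          exact (h4 m1 h3).not_gt ⟨0, by simp, not_le.1 h12⟩
        rw [← lv_toZ, ← lv_toZ, h8] at h10
        exact ⟨0, by simp, by rw [h9]; omega⟩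
  · obtain ⟨q, hq, h⟩ := a.support.exists_max_image (fun q => lev ω 0 (d q))
      (Finsupp.support_nonempty_iff.2 ha)
    refine ⟨q, hq, ?_⟩
    have h1 : ∀ q ∈ a.support, wt (dig ω 0) ((D q).mapDomain fun p => some (1 * p.1, p.2))
        = lev ω 0 (d q) + lev ω 0 m0 := fun q hq => by
      rw [← lv_toZ, toZ_row hD 1 hq, lv_add, lv_up]
      simp [lv_up, d0]
    have h2 : (MvPolynomial.monomial ((D q).mapDomain fun p => some (1 * p.1, p.2)) (a q) :
        P (Q × X)) ≠ 0 := by simpa using hq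
    refine (ciInf_le (OrderBot.bddBelow _)
      (⟨⟨_, h2⟩, row ψ a D 1, Submodule.subset_span ⟨1, rfl⟩⟩ :
        {q : P (Q × X) // q ≠ 0} × Submodule.span (P (Q × X)) (Set.range (row ψ a D)))).trans_lt ?_
    have h3 : (MvPolynomial.monomial ((D q).mapDomain fun p => some (1 * p.1, p.2)) (a q) :
        P (Q × X)) • Finsupp.single (ψ q) (1 : P (Q × X)) - row ψ a D 1
          = -row ψ (a.erase q) D 1 := by
      rw [row, ← Finsupp.add_sum_erase a q _ hq, row]
      simp
    have h4 := le_nrm (dig ω 0) (m := (D q).mapDomain fun p => some (1 * p.1, p.2))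
      (p := MvPolynomial.monomial ((D q).mapDomain fun p => some (1 * p.1, p.2)) (a q))
      (by simpa using hq)
    have h5 : (0 : ℝ≥0) < 2 ^ wt (dig ω 0) ((D q).mapDomain fun p => some (1 * p.1, p.2)) := by
      positivity
    change vn _ (_ • _ - row ψ a D 1) / nrm _ (MvPolynomial.monomial _ _) < 1
    rw [div_lt_one (h5.trans_le h4), h3]
    refine lt_of_lt_of_le ?_ h4
    refine (Finset.sup_lt_iff h5).2 fun i _ => (Finset.sup_lt_iff h5).2 fun m hm => ?_
    rw [Finsupp.neg_apply, MvPolynomial.support_neg] at hm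
    obtain ⟨q', hq', -, rfl⟩ := supp_row hm
    rw [Finsupp.support_erase, Finset.mem_erase] at hq'
    rw [zpow_lt_zpow_iff_right₀ two', h1 q hq, h1 q' hq'.2]
    have h6 := ht q' hq'.2 q hq hq'.1
    have h7 := h q' hq'.2
    rw [lev_sub] at h6
    omega

end Pool.Agent.PD3A
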