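import Pool.Agent.Lib.MP_d98eb9_al.TA.St

/-! Block LK: final assembly of Theorem A. -/

namespace Pool.Agent.PD3A

open MeasureTheory Pool.Agent.Lib.MP_d98eb9_al.W
open scoped NNReal Classical

namespace LKa

variable {E : Type} {N : ℕ}

lemma meas_dig (i : ℕ) : Measurable fun ω : ℕ × E → ZMod N => dig ω i :=
  measurable_pi_lambda _ fun e =>
    (Measurable.of_discrete (f := fun z : ZMod N => (z.val : ℤ))).comp (measurable_pi_apply (i, e))

lemma meas_lev (i : ℕ) (m : E →₀ ℤ) : Measurable fun ω : ℕ × E → ZMod N => lev ω i m :=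
  Finset.measurable_sum _ fun e _ => ((measurable_pi_apply e).comp (meas_dig i)).const_mul _

lemma meas_LT (m m' : E →₀ ℤ) : MeasurableSet {ω : ℕ × E → ZMod N | LT ω m m'} := by
  rw [measurableSet_setOfPred]
  exact Measurable.exists fun i => (Measurable.forall fun j => Measurable.forall fun _ =>
    (meas_lev j m).eq (meas_lev j m')).and ((meas_lev i m).lt (meas_lev i m'))

lemma lt_iff (ω : ℕ × E → ZMod N) (m m' : E →₀ ℤ) :
    LT ω m m' ↔ toLex (fun i => lev ω i m) < toLex fun i => lev ω i m' := Iff.rfl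

lemma lev_add (ω : ℕ × E → ZMod N) (i : ℕ) (v v' : E →₀ ℤ) :
    lev ω i (v + v') = lev ω i v + lev ω i v' :=
  Finsupp.sum_add_index' (by simp) (by intros; ring)

lemma lev_sub (ω : ℕ × E → ZMod N) (i : ℕ) (v v' : E →₀ ℤ) :
    lev ω i (v - v') = lev ω i v - lev ω i v' :=
  Finsupp.sum_sub_index (by intros; ring)

lemma lev_map (ω : ℕ × E → ZMod N) (i : ℕ) (g : E ≃ E) (v : E →₀ ℤ) :
    lev (ω ∘ (Equiv.refl ℕ).prodCongr g.symm) i (v.mapDomain g) = lev ω i v := by
  rw [lev, Finsupp.sum_mapDomain_index_inj g.injective]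
  simp [lev, dig]

end LKa

open LKa in
theorem lk : LK := by
  intro cm ce dt hm tb pr p1 l1 l2 G Q _ _ _ n s ψ d hd hb hi r ξ hs h0
  have : Countable G := hi.countable
  by_contra hc
  push Not at hc
  obtain ⟨hr, hξ⟩ := hc
  set a : G →₀ ℚ := (r.coeff.mapRange Int.cast Int.cast_zero).equivMapDomain (Equiv.inv G) with ha
  have ha1 : ∀ b, a b = r.coeff b⁻¹ := fun b => rfl
  have ha0 : a ≠ 0 := fun h => hr (MonoidAlgebra.coeff_injective (Finsupp.ext fun b => by
    have h1 := ha1 b⁻¹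
    rw [h, inv_inv] at h1
    simpa using h1.symm))
  have ha2 : ∀ c, ∑ b ∈ a.support, (a b : ℝ) * ξ (c * b) = 0 := fun c => by
    rw [← h0 c]
    exact Finset.sum_equiv (Equiv.inv G) (fun b => by simp [ha1]) fun b _ => by
      simp [ha1, mul_comm]
  clear_value a
  set m0 : Q × Fin n →₀ ℤ := ∑ q ∈ a.support, (d q).mapRange (fun k => |k|) abs_zero with hm0
  set D : G → (Q × Fin n →₀ ℕ) := fun q => (d q + m0).mapRange Int.toNat rfl with hD0
  have hD : ∀ q ∈ a.support, ∀ p, (D q p : ℤ) = d q p + m0 p := fun q hq p => by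
    refine Int.toNat_of_nonneg ?_
    have h1 : |d q p| ≤ ∑ q ∈ a.support, |d q p| :=
      Finset.single_le_sum (f := fun q => |d q p|) (fun _ _ => abs_nonneg _) hq
    have h2 := neg_abs_le (d q p)
    rw [Finsupp.add_apply, hm0, Finsupp.finsetSum_apply]
    simp only [Finsupp.mapRange_apply]
    omega
  clear_value D m0
  obtain ⟨b1, b2, b3, b4⟩ := l1 G Q n s ψ d a D m0 hb hD
  obtain ⟨c1, c2⟩ := dt _ _ _ 1 _ b1 b2 b3
  obtain ⟨e1, e2⟩ := cm _ _ (Set.range (row ψ a D))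
  obtain ⟨K, hK⟩ := pr _ n (fun x => ((s x)⁻¹, x)) (fun x => (1, x)) _ _ (e2 1) e1 c1
    (fun x => ⟨((Equiv.mulLeft (s x)⁻¹).prodCongr (Equiv.refl (Fin n))).symm, fun w => by
      have h := (ce _ _ _ _ _ (b4 (s x)⁻¹) w).1 (1, x)
      rwa [show ((Equiv.mulLeft (s x)⁻¹).prodCongr (Equiv.refl (Fin n))) (1, x) = ((s x)⁻¹, x)
        by simp] at h⟩) c2
  obtain ⟨ρ, hρ, hP⟩ := p1 G ξ hs hξ
  obtain ⟨N, hN⟩ := exists_nat_gt
    (max 2 (max (K / (1 - ρ)) (a.support.card ^ 2 + K * a.support.card)))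
  rw [max_lt_iff, max_lt_iff, div_lt_iff₀ (sub_pos.2 hρ)] at hN
  obtain ⟨n1, n2, n3⟩ := hN
  have n4 : 2 ≤ N := by exact_mod_cast n1.le
  have n5 : (0 : ℝ) < N := by linarith
  obtain ⟨μ, hμ⟩ := hm (ℕ × (Q × Fin n)) N (by omega)
  have := hμ.prob
  obtain ⟨W, hW⟩ := hK N μ n4 hμ
  set p := μ.real {ω | dig ω 0 ∈ {w | Piv (Set.range (row ψ a D)) 1 w}} with hp
  have tot : ∀ᵐ ω ∂μ, ∀ m : Q × Fin n →₀ ℤ, m ≠ 0 → ∃ i, lev ω i m ≠ 0 := by
    refine ae_all_iff.2 fun m => ?_
    by_cases h : m = 0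
    · simp [h]
    · simpa [ae_iff, h] using (tb _ N μ n4 hμ m h).2
  have up : p ≤ ρ := by
    refine le_trans (ENNReal.toReal_mono (measure_ne_top _ _) (measure_mono_ae ?_))
      (hP _ μ (fun c ω => ω ∘ (Equiv.refl ℕ).prodCongr
        ((Equiv.mulLeft (ψ c)).prodCongr (Equiv.refl (Fin n))).symm)
        (fun ω b c => LT ω (d b) (d c)) (fun c => hμ.perm _) (fun b c => meas_LT _ _)
        (fun ω c b b' => ?_) (fun ω b => (lt_iff _ _ _).not.2 (lt_irrefl _))
        (fun ω b c e h1 h2 => (lt_iff _ _ _).2 (lt_trans ((lt_iff _ _ _).1 h1) h2)) ?_)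
    · filter_upwards [tot] with ω h1 h2
      exact (l2 G Q _ ψ d a D m0 N ω hd hi hD).1 ξ ha2 h1 h2
    · have h1 := fun i => lev_map ω i ((Equiv.mulLeft (ψ c)).prodCongr (Equiv.refl (Fin n)))
      have h2 : ∀ i b, lev (ω ∘ (Equiv.refl ℕ).prodCongr
          ((Equiv.mulLeft (ψ c)).prodCongr (Equiv.refl (Fin n))).symm) i (d (c * b))
            = _ + lev ω i (d b) := fun i b => by rw [hd, lev_add, ← h1 i (d b)]; rfl
      simp only [LT, h2, add_right_inj, add_lt_add_iff_left]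
    · filter_upwards [tot] with ω h1 b c hbc
      obtain ⟨i, h2⟩ := h1 (d b - d c) (sub_ne_zero.2 (hi.ne hbc))
      rw [lev_sub, sub_ne_zero] at h2
      exact lt_or_gt_of_ne (α := Lex (ℕ → ℤ)) fun h => h2 (congrFun (toLex.injective h) i)
  have low : 1 ≤ a.support.card * p + a.support.card ^ 2 * (1 / N) := by
    have h1 : (Set.univ : Set (ℕ × (Q × Fin n) → ZMod N)) ⊆
        (⋃ q ∈ a.support, {ω | Piv (Set.range (row ψ a D)) (ψ q) (dig ω 0)}) ∪
        ⋃ q ∈ a.support.offDiag, {ω | lev ω 0 (d q.1 - d q.2) = 0} := by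
      intro ω _
      by_contra h
      simp only [Set.mem_union, Set.mem_iUnion, not_or, not_exists, Set.mem_ofPred_eq] at h
      obtain ⟨q, hq, h2⟩ := (l2 G Q _ ψ d a D m0 N ω hd hi hD).2 ha0 fun q hq q' hq' hne =>
        h.2 (q, q') (Finset.mem_offDiag.2 ⟨hq, hq', hne⟩)
      exact h.1 q hq h2
    have h2 : ∀ q, μ.real {ω | Piv (Set.range (row ψ a D)) (ψ q) (dig ω 0)} = p := fun q => by
      refine ((hμ.perm ((Equiv.refl ℕ).prodCongr
        ((Equiv.mulLeft (ψ q)).prodCongr (Equiv.refl (Fin n))).symm)).measureReal_preimage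
        ((meas_dig 0) (e2 (ψ q))).nullMeasurableSet).symm.trans (congrArg _ (Set.ext fun ω => ?_))
      have h := (ce _ _ _ _ _ (b4 (ψ q)) (dig ω 0)).2 1
      rwa [show Equiv.mulLeft (ψ q) 1 = ψ q by simp] at h
    have h3 := (measureReal_mono h1).trans (measureReal_union_le (μ := μ) _ _)
    rw [probReal_univ] at h3
    refine h3.trans (add_le_add ((measureReal_biUnion_finset_le _ _).trans ?_)
      ((measureReal_biUnion_finset_le _ _).trans ?_))
    · simp [h2]
    · refine (Finset.sum_le_card_nsmul _ _ (1 / N : ℝ) fun q hq => (tb _ N μ n4 hμ _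
        (sub_ne_zero.2 (hi.ne (Finset.mem_offDiag.1 hq).2.2))).1).trans ?_
      rw [nsmul_eq_mul, Finset.offDiag_card]
      gcongr
      rw [sq]
      exact_mod_cast Nat.sub_le _ _
  have hS : (0 : ℝ) < a.support.card := by
    exact_mod_cast Finset.card_pos.2 (Finsupp.support_nonempty_iff.2 ha0)
  rw [abs_le] at hW
  have f1 : K / N < 1 - ρ := by rw [div_lt_iff₀ n5]; linarith
  have f2 : K / N < p := by
    have h1 : (a.support.card ^ 2 + K * a.support.card) / N < (1 : ℝ) := (div_lt_one n5).2 n3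
    refine lt_of_mul_lt_mul_left (a := (a.support.card : ℝ)) ?_ hS.le
    have h2 : (a.support.card ^ 2 + K * a.support.card) / N
        = a.support.card ^ 2 * (1 / N) + a.support.card * (K / N : ℝ) := by ring
    linarith
  have f3 : (1 : ℝ) ≤ W := by
    have : (0 : ℝ) < W := by linarith
    exact_mod_cast this
  linarith

end Pool.Agent.PD3A
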