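import Pool.Agent.Lib.MP_d98eb9_al.TA.St

/-! Orthonormal bases over a closed subfield. -/

namespace Pool.Agent.PD3A

open Filter Topology
open scoped NNReal Classical

theorem on : ON := by
  intro L _ _ _ k τ V _ _ N ι _ b hk hτ hτn hadd hsm disc
  have hτ0 : τ ≠ 0 := fun h0 => by simp [h0] at hτn
  have hneg : ∀ a, N (-a) = N a := fun a => by simpa using hsm (-1) a
  have h0 : N 0 = 0 := by simpa using hsm 0 0
  have : CompleteSpace k := hk.completeSpace_coe
  suffices H : ∀ s : Finset ι, ∃ (n : ℕ) (b' : Fin n → V),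
      (∀ j, b' j ∈ Submodule.span k (Set.range b)) ∧
      (∀ κ : Fin n → k, N (∑ j, (κ j : L) • b' j) = ‖κ‖₊) ∧
      ∀ i ∈ s, ∃ κ : Fin n → k, N (b i - ∑ j, (κ j : L) • b' j) = 0 by
    let := Fintype.ofFinite ι
    obtain ⟨n, b', h1, h2, h3⟩ := H Finset.univ
    exact ⟨n, b', h1, h2, fun i => h3 i (Finset.mem_univ i)⟩
  intro s
  induction s using Finset.induction_on with
  | empty => exact ⟨0, Fin.elim0, fun j => j.elim0, fun κ => by
      rw [Subsingleton.elim κ 0, nnnorm_zero]; simp [h0], by simp⟩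
  | insert a s _ ih =>
    obtain ⟨n, b', h1, h2, h3⟩ := ih
    let f : (Fin n → k) → ℝ≥0 := fun κ => N (b a - ∑ j, (κ j : L) • b' j)
    have hf : ∀ κ κ', f κ ≤ max (f κ') ‖κ' - κ‖₊ ∧ ‖κ' - κ‖₊ ≤ max (f κ) (f κ') := fun κ κ' => by
      rw [← h2]
      simp only [f, Pi.sub_apply, AddSubgroupClass.coe_sub, sub_smul, Finset.sum_sub_distrib]
      constructor
      · refine le_trans (le_of_eq ?_) (hadd _ _)
        congr 1
        abel
      · rw [← hneg (b a - ∑ j, (κ' j : L) • b' j)]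
        refine le_trans (le_of_eq ?_) (hadd _ _)
        congr 1
        abel
    by_cases hex : ∀ m : ℕ, ∃ κ, f κ ≤ 2⁻¹ ^ m
    · choose κ hκ using hex
      have hc : CauchySeq κ := cauchySeq_of_le_geometric (2⁻¹ : ℝ) 1 (by norm_num) fun m => by
        rw [dist_eq_norm, one_mul]
        have h4 : ‖κ m - κ (m + 1)‖₊ ≤ 2⁻¹ ^ m := (hf _ _).2.trans (max_le ((hκ _).trans
          (pow_le_pow_of_le_one (by simp) (by norm_num) (by omega))) (hκ m))
        exact_mod_cast h4
      obtain ⟨κ0, h4⟩ := cauchySeq_tendsto_of_complete hc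
      refine ⟨n, b', h1, h2, fun i hi => ?_⟩
      rcases Finset.mem_insert.1 hi with rfl | hi
      · refine ⟨κ0, le_antisymm ?_ (by simp)⟩
        have h5 : Tendsto (fun m => max ((2⁻¹ : ℝ≥0) ^ m) ‖κ m - κ0‖₊) atTop (𝓝 (max 0 0)) :=
          (NNReal.tendsto_pow_atTop_nhds_zero_of_lt_one (by norm_num)).max
            (by simpa using (h4.sub_const κ0).nnnorm)
        rw [max_self] at h5
        exact ge_of_tendsto' h5 fun m => (hf κ0 (κ m)).1.trans (max_le_max (hκ m) le_rfl)
      · exact h3 i hi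
    · push Not at hex
      obtain ⟨m, hm⟩ := hex
      have hpos : ∀ κ, f κ ≠ 0 := fun κ => (lt_of_le_of_lt (by simp) (hm κ)).ne'
      obtain ⟨e, ⟨κ0, he⟩, hmin⟩ := Int.exists_least_of_bdd (P := fun e : ℤ => ∃ κ, f κ = 2 ^ e)
        ⟨-m, fun e ⟨κ, h⟩ => by
          have h4 := hm κ
          rw [h, inv_pow, ← zpow_natCast, ← zpow_neg, zpow_lt_zpow_iff_right₀ one_lt_two] at h4
          exact h4.le⟩ (by obtain ⟨e, h⟩ := disc _ (hpos 0); exact ⟨e, 0, h⟩)
      have hle : ∀ κ, 2 ^ e ≤ f κ := fun κ => by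
        obtain ⟨e', h⟩ := disc _ (hpos κ)
        exact (zpow_le_zpow_right₀ one_le_two (hmin e' ⟨κ, h⟩)).trans_eq h.symm
      let t : k := ⟨τ, hτ⟩ ^ e
      have ht : ‖(t : L)‖₊ * 2 ^ e = 1 := by
        change ‖τ ^ e‖₊ * _ = 1
        rw [nnnorm_zpow, hτn, ← mul_zpow]
        simp
      have ht0 : t ≠ 0 := fun h => by simp [h] at ht
      set v : V := (t : L) • (b a - ∑ j, (κ0 j : L) • b' j) with hv
      have hv1 : N v = 1 := by rw [hv, hsm, ← ht, ← he]
      have hv2 : v ∈ Submodule.span k (Set.range b) :=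
        Submodule.smul_mem _ t (sub_mem (Submodule.subset_span ⟨a, rfl⟩)
          (Submodule.sum_mem _ fun j _ => Submodule.smul_mem _ (κ0 j) (h1 j)))
      refine ⟨n + 1, Fin.cons v b', Fin.cases hv2 h1, fun κ => ?_, fun i hi => ?_⟩
      · rw [Fin.sum_univ_succ]
        simp only [Fin.cons_zero, Fin.cons_succ]
        have h4 := h2 fun j => κ j.succ
        have h5 : N ((κ 0 : L) • v) = ‖κ 0‖₊ := by rw [hsm, hv1, mul_one]; rfl
        have h6 : ‖κ 0‖₊ ≤ N ((κ 0 : L) • v + ∑ j : Fin n, (κ j.succ : L) • b' j) := by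
          by_cases h : κ 0 = 0
          · simp [h]
          have h7 : (κ 0 : L) • v + ∑ j : Fin n, (κ j.succ : L) • b' j = ((κ 0 * t : k) : L) •
              (b a - ∑ j, ((κ0 j - κ j.succ / (κ 0 * t) : k) : L) • b' j) := by
            have h8 : ∀ j : Fin n, κ 0 * t * (κ j.succ / (κ 0 * t)) = κ j.succ := fun j =>
              mul_div_cancel₀ _ (mul_ne_zero h ht0)
            simp only [hv, smul_sub, Finset.smul_sum, smul_smul, ← Subfield.coe_mul, h8,
              Subfield.coe_sub, sub_smul, Finset.sum_sub_distrib, ← mul_assoc]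
            abel
          rw [h7, hsm, Subfield.coe_mul, nnnorm_mul, mul_assoc]
          refine le_mul_of_one_le_right (by simp) ?_
          rw [← ht]
          exact mul_le_mul_right (hle _) _
        refine le_antisymm ((hadd _ _).trans (max_le (h5.trans_le (nnnorm_le_pi_nnnorm κ 0))
          (h4.trans_le (pi_nnnorm_le_iff.2 fun j => nnnorm_le_pi_nnnorm κ _))))
          (pi_nnnorm_le_iff.2 (Fin.cases h6 fun j => ?_))
        refine (nnnorm_le_pi_nnnorm (fun j : Fin n => κ j.succ) j).trans (h4.symm.trans_le ?_)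
        have h7 := hadd ((κ 0 : L) • v + ∑ j : Fin n, (κ j.succ : L) • b' j) (-((κ 0 : L) • v))
        rw [hneg, h5, max_eq_left h6, add_neg_cancel_comm] at h7
        exact h7
      · rcases Finset.mem_insert.1 hi with rfl | hi
        · refine ⟨Fin.cons t⁻¹ κ0, ?_⟩
          have : (t : L) ≠ 0 := fun h => ht0 (Subtype.ext h)
          simp [Fin.sum_univ_succ, hv, smul_smul, this, h0]
        · obtain ⟨κ, h⟩ := h3 i hi
          exact ⟨Fin.cons 0 κ, by simpa [Fin.sum_univ_succ] using h⟩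

end Pool.Agent.PD3A
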