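import Pool.Agent.Lib.MP_d98eb9_al.TA.OV1

/-! One-variable theory, part 2. -/

namespace Pool.Agent.PD3A

open Polynomial
open scoped NNReal Classical

namespace OVx

section

variable {L : Type} [NormedField L] {k : Subfield L} {Φ Co : Type} [Fintype Φ] [Fintype Co]

/-- the index of a tuple -/
noncomputable def th {u : ℕ} (α : (Fin u → Φ) → k[X]) (r : Fin u → Φ → k[X]) : k[X] :=
  ∑ J : Fin u → Φ, (∏ i, r i (J i)) * α J

omit [Fintype Co] in
lemma det_th {u : ℕ} {M : Φ → Co → k[X]} {α : (Fin u → Φ) → k[X]} {β : (Fin u → Co) → k[X]}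
    (h : ∀ J f, (Matrix.of fun i j => M (J i) (f j)).det = α J * β f) (r : Fin u → Φ → k[X])
    (f : Fin u → Co) : (Matrix.of fun i j => ∑ g, r i g * M g (f j)).det = th α r * β f := by
  have h1 := det_expand r fun g j => M g (f j)
  rw [th, Finset.sum_mul]
  simp only [mul_assoc, ← h]
  refine Eq.trans (by congr) (h1.trans ?_)
  refine Finset.sum_congr (Finset.ext fun _ => by simp) fun J _ => ?_
  congr

lemma mm_rows {u : ℕ} {M : Φ → Co → k[X]} {α : (Fin u → Φ) → k[X]} {β : (Fin u → Co) → k[X]}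
    (h : ∀ J f, (Matrix.of fun i j => M (J i) (f j)).det = α J * β f) (r : Fin u → Φ → k[X])
    (t : L) : mm (rows t r M) = ‖(th α r).eval₂ k.subtype t‖₊ *
      Finset.univ.sup fun f => ‖(β f).eval₂ k.subtype t‖₊ := by
  rw [NNReal.mul_finset_sup, mm]
  have key : ∀ f : Fin u → Co, (Matrix.of fun i j => rows t r M i (f j)).det
      = (th α r).eval₂ k.subtype t * (β f).eval₂ k.subtype t := fun f => by
    have h1 := (eval₂RingHom k.subtype t).map_det (Matrix.of fun i j => ∑ g, r i g * M g (f j))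
    rw [det_th h, map_mul] at h1
    exact h1.symm
  refine Finset.sup_congr (Finset.ext fun _ => by simp) fun f _ => ?_
  rw [← nnnorm_mul, ← key]
  congr

/-- polynomials with a denominator -/
def Den (A : Subring k[X]) (p : k[X]) : Prop := ∃ b : k, b ≠ 0 ∧ C b ∈ A ∧ C b * p ∈ A

lemma dense (A : Subring k[X]) (hX : X ∈ A)
    (hA : ∀ (c : k) (ε : ℝ), 0 < ε → ∃ a b : k, C a ∈ A ∧ C b ∈ A ∧ b ≠ 0 ∧
      ‖(c : L) - a / b‖ < ε) (t : L) (p : k[X]) :
    ∀ ε : ℝ, 0 < ε → ∃ q, Den A q ∧ dist (q.eval₂ k.subtype t) (p.eval₂ k.subtype t) < ε := by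
  induction p using Polynomial.induction_on' with
  | add p q hp hq =>
    intro ε hε
    obtain ⟨p', ⟨b, hb, h1, h2⟩, h3⟩ := hp (ε / 2) (by positivity)
    obtain ⟨q', ⟨c, hc, h4, h5⟩, h6⟩ := hq (ε / 2) (by positivity)
    refine ⟨p' + q', ⟨b * c, mul_ne_zero hb hc, by rw [C_mul]; exact A.mul_mem h1 h4, ?_⟩, ?_⟩
    · have : C (b * c) * (p' + q') = C c * (C b * p') + C b * (C c * q') := by rw [C_mul]; ring
      rw [this]
      exact A.add_mem (A.mul_mem h4 h2) (A.mul_mem h1 h5)
    · rw [eval₂_add, eval₂_add]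
      exact (dist_add_add_le _ _ _ _).trans_lt (by linarith)
  | monomial i c =>
    intro ε hε
    obtain ⟨a, b, ha, hb, hb0, h⟩ := hA c (ε / (‖t‖ ^ i + 1)) (by positivity)
    refine ⟨monomial i (a / b), ⟨b, hb0, hb, ?_⟩, ?_⟩
    · rw [C_mul_monomial, mul_div_cancel₀ _ hb0, ← C_mul_X_pow_eq_monomial]
      exact A.mul_mem ha (A.pow_mem hX i)
    · rw [eval₂_monomial, eval₂_monomial, dist_comm, dist_eq_norm, ← sub_mul, norm_mul, norm_pow]
      rw [lt_div_iff₀ (by positivity)] at h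
      have h1 : ‖k.subtype c - k.subtype (a / b)‖ = ‖(c : L) - a / b‖ := by simp
      rw [h1]
      nlinarith [norm_nonneg ((c : L) - a / b)]

lemma common (A : Subring k[X]) {ι : Type} [Fintype ι] (p : ι → k[X]) (h : ∀ i, Den A (p i)) :
    ∃ b : k, b ≠ 0 ∧ ∀ i, C b * p i ∈ A := by
  choose b h0 h1 h2 using h
  refine ⟨∏ i, b i, Finset.prod_ne_zero_iff.2 fun i _ => h0 i, fun i => ?_⟩
  rw [← Finset.prod_erase_mul _ _ (Finset.mem_univ i), C_mul, mul_assoc, map_prod]
  exact A.mul_mem (A.prod_mem fun j _ => h1 j) (h2 i)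

end

end OVx

open OVx

theorem ova : OVa := by
  intro hRF L _ _ _ k t t' Φ C _ _ M Ψ A u d α β ht htt hG hG' hΨ hd hX hA hαβ ⟨ρ, hρ⟩ ⟨f1, hf1⟩
    hu B B' S hB hB' hS
  set φ : k[X] →+* L := eval₂RingHom k.subtype t with hφ
  set φ' : k[X] →+* L := eval₂RingHom k.subtype t' with hφ'
  have le2 : ∀ p, ‖φ p‖₊ ≤ ‖φ' p‖₊ := fun p => ev_le t p _ fun i _ => le_trans (by
    rw [htt]
    gcongr
    exact le_mul_of_one_le_left (by simp) one_le_two) (hG' p i)
  have le3 : ∀ (p : k[X]) D, p.natDegree ≤ D → ‖φ' p‖₊ ≤ 2 ^ D * ‖φ p‖₊ := fun p D hD =>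
    ev_le t' p _ fun i hi => by
      rw [htt, mul_pow, mul_left_comm]
      exact mul_le_mul' (pow_le_pow_right₀ one_le_two ((le_natDegree_of_mem_supp i hi).trans hD))
        (hG p i)
  have inj : Function.Injective φ := (injective_iff_map_eq_zero φ).2 fun p hp => by
    ext i
    have h := hG p i
    rw [show p.eval₂ k.subtype t = 0 from hp, nnnorm_zero, nonpos_iff_eq_zero, mul_eq_zero] at h
    simpa [ht] using h
  have hB0 : B ≠ 0 := fun h => hf1 (inj (by
    have h1 : ‖φ (β f1)‖₊ ≤ B := hB ▸ Finset.le_sup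
      (f := fun f => ‖(β f).eval₂ k.subtype t‖₊) (Finset.mem_univ f1)
    simpa [h] using h1))
  -- a basis of the constant rows
  obtain ⟨κ, a0, ha0, hsp, hli⟩ := exists_linearIndependent' L
    (fun g : Ψ => fun j => φ (M g j))
  have : Finite κ := Finite.of_injective a0 ha0
  let : Fintype κ := Fintype.ofFinite κ
  set a : κ → Φ := fun i => a0 i with ha
  set γ : κ → C → L := fun i j => φ (M (a i) j) with hγ
  have hsp' : Submodule.span L S = Submodule.span L (Set.range γ) := by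
    rw [hS, Set.image_eq_range]
    exact hsp.symm
  have hγ0 : mm γ ≠ 0 := (hRF L κ C γ).2.1.2 hli
  have hcon : ∀ i j, φ' (M (a i) j) = φ (M (a i) j) := fun i j => by
    rw [eq_C_of_natDegree_eq_zero (hΨ _ (a0 i).2 j)]
    simp [hφ, hφ']
  let ex : ∀ {n : ℕ}, (Fin n → Φ → k[X]) → κ ⊕ Fin n → Φ → k[X] := fun r =>
    Sum.elim (fun i => Pi.single (a i) 1) r
  have hex : ∀ {n : ℕ} (r : Fin n → Φ → k[X]) p j, ∑ g, ex r p g * M g j
      = Sum.elim (M ∘ a) (fun i j => ∑ g, r i g * M g j) p j := fun r p j => by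
    rcases p with i | i <;> simp [ex, Pi.single_apply]
  have hr : ∀ {n : ℕ} (r : Fin n → Φ → k[X]), rows t (ex r) M = Sum.elim γ (rows t r M) ∧
      rows t' (ex r) M = Sum.elim γ (rows t' r M) := fun r => by
    constructor <;> ext p j <;> rw [rows, hex] <;> rcases p with i | i
    · rfl
    · rfl
    · exact hcon i j
    · rfl
  have K1 : ∀ {n : ℕ} (r : Fin n → Φ → k[X]) (e : Fin u ≃ κ ⊕ Fin n),
      mm γ * volL S (rows t r M) = ‖φ (th α (ex r ∘ e))‖₊ * B ∧
      mm γ * volL S (rows t' r M) = ‖φ' (th α (ex r ∘ e))‖₊ * B' := fun r e => by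
    rw [volL_congr hsp', volL_congr hsp', (hRF L κ C γ).1, (hRF L κ C γ).1, ← (hr r).1,
      ← (hr r).2, ← mm_equiv e, ← mm_equiv e (rows t' _ _), hB, hB']
    exact ⟨mm_rows hαβ _ t, mm_rows hαβ _ t'⟩
  have hle : ∀ {n : ℕ} (r : Fin n → Φ → k[X]),
      Submodule.span L (Set.range (Sum.elim γ (rows t r M))) ≤
        Submodule.span L (Set.range fun g j => φ (M g j)) := fun r => by
    rw [← (hr r).1, Submodule.span_le]
    rintro _ ⟨p, rfl⟩
    refine (Submodule.mem_span_range_iff_exists_fun L).2 ⟨fun g => φ (ex r p g), ?_⟩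
    ext j
    change _ = φ _
    simp [Finset.sum_apply]
  have hun : ∀ {n : ℕ} (r : Fin n → Φ → k[X]), Submodule.span L (S ∪ Set.range (rows t r M))
      = Submodule.span L (Set.range (Sum.elim γ (rows t r M))) := fun r => by
    rw [Set.Sum.elim_range, Submodule.span_union, Submodule.span_union, hsp']
  have hcard : ∀ {n : ℕ} (r : Fin n → Φ → k[X]), LinearIndependent L (Sum.elim γ (rows t r M)) →
      (∀ g, (fun j => φ (M g j)) ∈ Submodule.span L (Set.range (Sum.elim γ (rows t r M)))) →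
      Nonempty (Fin u ≃ κ ⊕ Fin n) := fun r h1 h2 => by
    have h3 := le_antisymm (hle r) (Submodule.span_le.2 (by rintro _ ⟨g, rfl⟩; exact h2 g))
    have h4 := finrank_span_eq_card h1
    rw [h3] at h4
    exact ⟨(Fintype.equivFinOfCardEq (h4.symm.trans hu)).symm⟩
  have hind : ∀ {n : ℕ} (r : Fin n → Φ → k[X]), volL S (rows t r M) ≠ 0 →
      LinearIndependent L (Sum.elim γ (rows t r M)) := fun r h => (hRF L _ C _).2.1.1 (by
    rw [← (hRF L κ C γ).1, ← volL_congr hsp']
    exact mul_ne_zero hγ0 h)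
  refine ⟨⟨?_, ?_⟩, fun n r h1 h2 => ?_, ?_⟩
  · rw [hB, hB']
    exact Finset.sup_mono_fun fun f _ => le2 _
  · rw [hB']
    refine Finset.sup_le fun f _ => (le3 (β f) (u * d) ?_).trans ?_
    · by_cases hf : β f = 0
      · simp [hf]
      obtain ⟨J, hJ⟩ : ∃ J, α J ≠ 0 := by
        by_contra h
        push Not at h
        simp [h] at hρ
      refine le_trans ?_ (?_ : (α J * β f).natDegree ≤ _)
      · rw [natDegree_mul hJ hf]
        omega
      rw [← hαβ, Matrix.det_apply']
      refine natDegree_sum_le_of_forall_le _ _ fun σ _ => natDegree_mul_le.trans ?_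
      rw [natDegree_intCast, zero_add]
      refine (natDegree_prod_le _ _).trans ((Finset.sum_le_card_nsmul _ _ d fun i _ => hd _ _).trans
        (by simp))
    · rw [hB]
      exact mul_le_mul_right (Finset.le_sup (f := fun f => ‖(β f).eval₂ k.subtype t‖₊)
        (Finset.mem_univ f)) _
  · obtain ⟨e⟩ := hcard r (hind r h1) fun g => hun r ▸ mem_of_dst (h2 g)
    obtain ⟨k1, k2⟩ := K1 r e
    refine le_of_mul_le_mul_left ?_ (pos_iff_ne_zero.2 hγ0)
    rw [← mul_assoc, ← mul_assoc, k1, k2, mul_right_comm]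
    gcongr
    exact le2 _
  · obtain ⟨f0, hf0⟩ : ∃ f : κ → C, (Matrix.of fun i j => γ i (f j)).det ≠ 0 := by
      by_contra h
      push Not at h
      exact hγ0 (by simp [mm, h])
    have hunit : IsUnit (Matrix.of fun i j => M (a i) (f0 j)).det := by
      have h1 : (Matrix.of fun i j => M (a i) (f0 j))
          = (Polynomial.C : k →+* k[X]).mapMatrix (Matrix.of fun i j => (M (a i) (f0 j)).coeff 0) := by
        ext1 i j
        exact eq_C_of_natDegree_eq_zero (hΨ _ (a0 i).2 _)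
      have h2 := φ.map_det (Matrix.of fun i j => M (a i) (f0 j))
      rw [h1, ← RingHom.map_det] at h2 ⊢
      refine isUnit_C.2 (Ne.isUnit fun h => hf0 ?_)
      rw [h, map_zero, map_zero, ← h1] at h2
      exact h2.symm
    obtain ⟨n, r0, hi, hg⟩ := gen M a f0 hunit
    choose c hc using hg
    have hel : Sum.elim γ (rows t r0 M) = fun p j =>
        φ (Sum.elim (M ∘ a) (fun i j => ∑ g, r0 i g * M g j) p j) := by
      ext p j
      rcases p with i | i <;> rfl
    obtain ⟨e⟩ := hcard r0 (by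
      let : Algebra k[X] L := φ.toAlgebra
      have : FaithfulSMul k[X] L := (faithfulSMul_iff_algebraMap_injective _ _).2 inj
      rw [hel]
      exact linearIndependent_algebraMap_comp_iff.2 hi) fun g => by
        refine (Submodule.mem_span_range_iff_exists_fun L).2 ⟨fun p => φ (c g p), ?_⟩
        ext j
        rw [hel, hc g j]
        simp [Finset.sum_apply]
    have hdvd : ∀ J, th α (ex r0 ∘ e) ∣ α J := fun J => by
      have h1 : (Matrix.of fun i j => M (J i) (f1 j)) = (Matrix.of fun i p => c (J i) (e p)) *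
          Matrix.of fun i j => ∑ g, (ex r0 ∘ e) i g * M g (f1 j) := by
        ext1 i j
        rw [Matrix.of_apply, hc, Matrix.mul_apply, ← e.sum_comp]
        simp [hex]
      have h2 := hαβ J f1
      rw [h1, Matrix.det_mul, det_th hαβ, ← mul_assoc] at h2
      exact Dvd.intro_left _ (mul_right_cancel₀ hf1 h2)
    obtain ⟨c0, hc0, hθ⟩ := isUnit_iff.1 (isUnit_of_dvd_one (hρ ▸ Finset.dvd_sum fun J _ =>
      (hdvd J).mul_left (ρ J)))
    have hc1 : (0 : ℝ) < ‖(c0 : L)‖ := by simpa using hc0.ne_zero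
    let Θ : (Fin n × Φ → L) → L := fun z => ∑ J : Fin u → Φ, (∏ i, Sum.elim
      (fun i => φ' ∘ Pi.single (a i) 1) (fun i g => z (i, g)) (e i) (J i)) * φ' (α J)
    have hΘ : Continuous Θ := by
      refine continuous_finsetSum _ fun J _ => (continuous_finsetProd _ fun i _ => ?_).mul
        continuous_const
      rcases e i with p | p
      · exact continuous_const
      · exact continuous_apply _
    have hΘ' : ∀ r : Fin n → Φ → k[X], Θ (fun z => φ' (r z.1 z.2)) = φ' (th α (ex r ∘ e)) :=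
      fun r => by
        simp only [Θ, th, map_sum, map_mul, map_prod, Function.comp_apply]
        refine Finset.sum_congr rfl fun J _ => congrArg (· * _) (Finset.prod_congr rfl fun i _ => ?_)
        rcases e i with p | p <;> rfl
    obtain ⟨δ, hδ, h3⟩ := Metric.continuousAt_iff.1 (hΘ.continuousAt
      (x := fun z => φ' (r0 z.1 z.2))) _ hc1
    choose r1 h4 h5 using fun (i : Fin n) (g : Φ) => dense A hX hA t' (r0 i g) δ hδ
    have h6 := h3 (x := fun z => φ' (r1 z.1 z.2)) ((dist_pi_lt_iff hδ).2 fun z => h5 z.1 z.2)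
    rw [hΘ', hΘ', ← hθ, dist_eq_norm, ← map_sub] at h6
    have h7 : ∀ ψ : k[X] →+* L, ψ (Polynomial.C c0) = c0 →
        ‖ψ (th α (ex r1 ∘ e) - Polynomial.C c0)‖ < ‖(c0 : L)‖ →
        ‖ψ (th α (ex r1 ∘ e))‖ = ‖(c0 : L)‖ := fun ψ h h' => by
      have := IsUltrametricDist.norm_add_eq_max_of_norm_ne_norm h'.ne
      rwa [map_sub, h, sub_add_cancel, max_eq_right (by rw [← h, ← map_sub, h]; exact h'.le)]
        at this
    have h8 := h7 φ (by simp [hφ]) (lt_of_le_of_lt (le2 _) h6)
    have h9 := h7 φ' (by simp [hφ']) h6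
    obtain ⟨b, hb, hbA⟩ := common A (fun z : Fin n × Φ => r1 z.1 z.2) fun z => h4 z.1 z.2
    set r : Fin n → Φ → k[X] := fun i g => Polynomial.C b * r1 i g with hr'
    have h10 : th α (ex r ∘ e) = Polynomial.C (∏ i, Sum.elim (fun _ => 1) (fun _ => b) (e i)) *
        th α (ex r1 ∘ e) := by
      simp only [th, map_prod, Finset.mul_sum, ← mul_assoc, ← Finset.prod_mul_distrib,
        Function.comp_apply]
      refine Finset.sum_congr rfl fun J _ => congrArg (· * _) (Finset.prod_congr rfl fun i _ => ?_)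
      rcases e i with p | p <;> simp [ex, hr']
    have h11 : (∏ i, Sum.elim (fun _ => 1) (fun _ => b) (e i) : k) ≠ 0 :=
      Finset.prod_ne_zero_iff.2 fun i _ => by rcases e i with p | p <;> simp [hb]
    have h12 : ‖φ' (th α (ex r ∘ e))‖₊ = ‖φ (th α (ex r ∘ e))‖₊ ∧ φ (th α (ex r ∘ e)) ≠ 0 := by
      rw [h10, map_mul, map_mul]
      refine ⟨NNReal.eq ?_, mul_ne_zero (fun h => h11 (C_eq_zero.1 (inj (h.trans (map_zero φ).symm))))
        (norm_pos_iff.1 (h8 ▸ hc1))⟩
      rw [coe_nnnorm, coe_nnnorm, norm_mul, norm_mul, h8, h9]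
      simp [hφ, hφ']
    obtain ⟨k1, k2⟩ := K1 r e
    have h13 : volL S (rows t r M) ≠ 0 := fun h => by
      rw [h, mul_zero] at k1
      exact mul_ne_zero (nnnorm_ne_zero_iff.2 h12.2) hB0 k1.symm
    refine ⟨n, r, fun i g => hbA (i, g), h13, fun g => dst_of_mem ?_, ?_⟩
    · rw [hun, Submodule.eq_of_le_of_finrank_eq (hle r) (by
        rw [finrank_span_eq_card (hind r h13), ← Fintype.card_congr e, Fintype.card_fin]
        exact hu.symm)]
      exact Submodule.subset_span ⟨g, rfl⟩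
    · refine mul_left_cancel₀ hγ0 ?_
      rw [← mul_assoc, ← mul_assoc, k1, k2, h12.1, mul_right_comm]

end Pool.Agent.PD3A
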