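import Pool.Agent.Lib.MP_d98eb9_al.W.Defs2

/-! Statements for Theorem A (internal lemma for splittings of PD_3-groups). -/

namespace Pool.Agent.PD3A

open MeasureTheory Pool.Agent.Lib.MP_d98eb9_al.W
open scoped NNReal Classical

/-- THEOREM A. -/
def ThmA : Prop :=
  ∀ (G Q : Type) [Group G] [Group Q] [Countable Q] (n : ℕ) (s : Fin n → Q) (ψ : G →* Q)
    (d : G → (Q × Fin n →₀ ℤ)),
    (∀ a b, d (a * b) = d a + (d b).mapDomain fun p => (ψ a * p.1, p.2)) →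
    (∀ a, (d a).sum (fun p k => Finsupp.single (p.1 * s p.2) k - Finsupp.single p.1 k)
      = Finsupp.single (ψ a) 1 - Finsupp.single 1 1) →
    Function.Injective d → AZD G

/-! ### Canonical functions of the weights -/

/-- polynomials in `τ` (`none`) and the variables `t e` -/
abbrev P (E : Type) : Type := MvPolynomial (Option E) ℚ

section Canon

variable {E I : Type}

/-- weight of a monomial -/
def wt (w : E → ℤ) (m : Option E →₀ ℕ) : ℤ := m.sum fun o k => (k : ℤ) * o.elim (-1) w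

/-- Gauss norm -/
noncomputable def nrm (w : E → ℤ) (p : P E) : ℝ≥0 := p.support.sup fun m => (2 : ℝ≥0) ^ wt w m

/-- sup norm of a vector -/
noncomputable def vn (w : E → ℤ) (y : I →₀ P E) : ℝ≥0 := y.support.sup fun i => nrm w (y i)

/-- distance to the span of `S` -/
noncomputable def del (w : E → ℤ) (S : Set (I →₀ P E)) (y : I →₀ P E) : ℝ≥0 :=
  ⨅ qz : {q : P E // q ≠ 0} × Submodule.span (P E) S, vn w (qz.1.1 • y - qz.2.1) / nrm w qz.1.1

/-- volume modulo `S` -/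
noncomputable def vol (w : E → ℤ) (S : Set (I →₀ P E)) {u : ℕ} (y : Fin u → I →₀ P E) : ℝ≥0 :=
  ∏ i, del w (S ∪ y '' Set.Iio i) (y i)

/-- the rows that do not contain the variable `e` -/
def free (e : E) (R : Set (I →₀ P E)) : Set (I →₀ P E) :=
  {ρ ∈ R | ∀ i, ∀ m ∈ (ρ i).support, m (some e) = 0}

/-- the current through `e` is at most `n` -/
def Pv (R : Set (I →₀ P E)) (e : E) (n : ℕ) (w : E → ℤ) : Prop :=
  ∃ (u : ℕ) (y : Fin u → I →₀ P E), (∀ i, y i ∈ Submodule.span (P E) R) ∧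
    vol w (free e R) y ≠ 0 ∧ (∀ ρ ∈ R, del w (free e R ∪ Set.range y) ρ = 0) ∧
    vol (w + Pi.single e 1) (free e R) y ≤ 2 ^ n * vol w (free e R) y

/-- the current through `e` -/
noncomputable def cur (R : Set (I →₀ P E)) (e : E) (w : E → ℤ) : ℕ := sInf {n | Pv R e n w}

/-- the site `l` is a strict pivot -/
def Piv (R : Set (I →₀ P E)) (l : I) (w : E → ℤ) : Prop := del w R (Finsupp.single l 1) < 1

/-- potentials on all finite slices -/
def Pot (lam : E →₀ ℤ) (v : E → (E → ℤ) → ℕ) (C : Set (E → ℤ)) : Prop :=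
  ∀ (w0 : E → ℤ) (E1 : Finset E), lam.support ⊆ E1 → ∃ (F : (E → ℤ) → ℤ) (W : ℤ),
    ∀ w : E → ℤ, (∀ e, e ∉ E1 → w e = w0 e) →
      (∀ e ∈ E1, F (w + Pi.single e 1) - F w = v e w) ∧
        F w - F (w - lam) = (if w ∈ C then 1 else 0) - W

/-- renaming of variables and sites -/
noncomputable def ren (g : E ≃ E) (h : I ≃ I) (y : I →₀ P E) : I →₀ P E :=
  Finsupp.equivMapDomain h (y.mapRange (MvPolynomial.rename (Option.map g)) (map_zero _))

end Canon

/-- Block CM: measurability. -/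
def CM : Prop :=
  ∀ (E I : Type) [Countable E] [Countable I] (R : Set (I →₀ P E)),
    (∀ e, Measurable (cur R e)) ∧ ∀ l, MeasurableSet {w | Piv R l w}

/-- Block CE: equivariance. -/
def CE : Prop :=
  ∀ (E I : Type) (R : Set (I →₀ P E)) (g : E ≃ E) (h : I ≃ I), ren g h '' R = R → ∀ w : E → ℤ,
    (∀ e, cur R (g e) (w ∘ g.symm) = cur R e w) ∧ ∀ l, Piv R (h l) (w ∘ g.symm) ↔ Piv R l w

/-- The deterministic theorem. -/
def Det : Prop :=
  ∀ (E I : Type) (R : Set (I →₀ P E)) (l : I) (lam : E →₀ ℤ),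
    (∀ e, (R \ free e R).Finite) → {ρ ∈ R | ρ l ≠ 0}.Finite →
    (∀ ρ ∈ R, ∃ h : ℤ, ∀ i, ∀ m ∈ (ρ i).support,
      lam.sum (fun e k => k * (m (some e) : ℤ)) = h + if i = l then 1 else 0) →
    (∀ e, ∃ D, ∀ w, cur R e w ≤ D) ∧ Pot lam (cur R) {w | Piv R l w}

/-! ### The valued field -/

/-- A complete discretely valued field with generic elements. -/
structure Fld (E : Type) : Type 1 where
  L : Type
  [nf : NontriviallyNormedField L]
  [um : IsUltrametricDist L]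
  [cs : CompleteSpace L]
  [cz : CharZero L]
  τ : L
  x : E → L
  disc : ∀ z : L, z ≠ 0 → ∃ n : ℤ, ‖z‖₊ = 2 ^ n
  gauss : ∀ (w : E → ℤ) (p : P E),
    ‖MvPolynomial.aeval (fun o : Option E => o.elim τ fun e => x e * τ ^ (-w e)) p‖₊ = nrm w p

attribute [instance] Fld.nf Fld.um Fld.cs Fld.cz

/-- evaluation at the weight `w` -/
noncomputable def Fld.ev {E : Type} (K : Fld E) (w : E → ℤ) : P E →+* K.L :=
  (MvPolynomial.aeval fun o : Option E => o.elim K.τ fun e => K.x e * K.τ ^ (-w e)).toRingHom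

/-- the closed subfield of the variables in `D` -/
noncomputable def Fld.k {E : Type} (K : Fld E) (D : Set E) : Subfield K.L :=
  (Subfield.closure (insert K.τ (K.x '' D))).topologicalClosure

/-- Block FL. -/
def FL : Prop := ∀ E : Type, Nonempty (Fld E)

/-- Block GA: the variables outside `D` are generic over `K.k D`. -/
def GA : Prop :=
  ∀ (E : Type) (K : Fld E) (D : Set E) (s : Finset (E →₀ ℕ)) (c : (E →₀ ℕ) → K.L),
    (∀ m ∈ s, c m ∈ K.k D ∧ ∀ e ∈ D, m e = 0) →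
    ∀ m ∈ s, ‖c m‖₊ ≤ ‖∑ m ∈ s, c m * m.prod fun e j => K.x e ^ j‖₊

section Val

variable {L : Type} [NormedField L]

/-- sup norm -/
noncomputable def vnL {I : Type} (y : I →₀ L) : ℝ≥0 := y.support.sup fun i => ‖y i‖₊

/-- distance to a subspace -/
noncomputable def delL {I : Type} (S : Submodule L (I →₀ L)) (y : I →₀ L) : ℝ≥0 :=
  ⨅ z : S, vnL (y - z.1)

/-- largest minor -/
noncomputable def mm {ι C : Type} [Fintype ι] [Fintype C] (y : ι → C → L) : ℝ≥0 :=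
  Finset.univ.sup fun f : ι → C => ‖(Matrix.of fun i j => y i (f j)).det‖₊

/-- distance to a span -/
noncomputable def dst {C : Type} [Fintype C] (S : Set (C → L)) (y : C → L) : ℝ≥0 :=
  Metric.infNndist y (Submodule.span L S : Set (C → L))

/-- volume modulo a span -/
noncomputable def volL {C : Type} [Fintype C] (S : Set (C → L)) {u : ℕ} (y : Fin u → C → L) :
    ℝ≥0 := ∏ i, dst (S ∪ y '' Set.Iio i) (y i)

/-- evaluation of polynomials over a subfield -/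
noncomputable def evs {σ : Type} (k : Subfield L) (τ : L) (x : σ → L) (s : σ → ℤ) :
    MvPolynomial σ k →+* L :=
  MvPolynomial.eval₂Hom k.subtype fun e => x e * τ ^ (-s e)

end Val

/-- Block B3: distances do not change under field extension. -/
def B3 : Prop :=
  ∀ (L : Type) [NormedField L] [IsUltrametricDist L] (k : Subfield L) (I : Type)
    (S : Set (I →₀ L)) (y : I →₀ L), (∀ v ∈ S, ∀ i, v i ∈ k) → (∀ i, y i ∈ k) →
    ∀ z ∈ Submodule.span L S, ∃ z' ∈ Submodule.span k S, vnL (y - z') ≤ vnL (y - z)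

/-- Block DL: the canonical distance is the distance in the valued field. -/
def DL : Prop :=
  ∀ (E I : Type) (K : Fld E) (w : E → ℤ) (S : Set (I →₀ P E)) (y : I →₀ P E),
    del w S y = delL (Submodule.span K.L ((fun v => v.mapRange (K.ev w) (map_zero _)) '' S))
      (y.mapRange (K.ev w) (map_zero _))

/-- Block ON: orthonormal bases over a closed subfield. -/
def ON : Prop :=
  ∀ (L : Type) [NormedField L] [IsUltrametricDist L] [CompleteSpace L] (k : Subfield L) (τ : L)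
    (V : Type) [AddCommGroup V] [Module L V] (N : V → ℝ≥0) (ι : Type) [Finite ι] (b : ι → V),
    IsClosed (k : Set L) → τ ∈ k → ‖τ‖₊ = 2⁻¹ → (∀ a c, N (a + c) ≤ max (N a) (N c)) →
    (∀ (z : L) a, N (z • a) = ‖z‖₊ * N a) → (∀ a, N a ≠ 0 → ∃ n : ℤ, N a = 2 ^ n) →
    ∃ (n : ℕ) (b' : Fin n → V), (∀ j, b' j ∈ Submodule.span k (Set.range b)) ∧
      (∀ κ : Fin n → k, N (∑ j, (κ j : L) • b' j) = Finset.univ.sup fun j => ‖(κ j : L)‖₊) ∧
      ∀ i, ∃ κ : Fin n → k, N (b i - ∑ j, (κ j : L) • b' j) = 0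

/-- The finite model of a slice. -/
def MD : Prop :=
  ∀ (E I : Type) (K : Fld E) (R : Set (I →₀ P E)) (l : I) (E1 : Finset E) (w0 : E → ℤ)
    (Φ : Finset (I →₀ P E)), (Φ : Set (I →₀ P E)) ⊆ R →
    (∀ ρ ∈ R, ρ ∉ Φ → ρ l = 0 ∧ ∀ e ∈ E1, ρ ∈ free e R) →
    ∃ (n : ℕ) (M : Φ → Option (Fin n) → MvPolynomial E1 (K.k (E1 : Set E)ᶜ)),
      (∀ g j, ∀ m ∈ (M g j).support, ∃ i, (i = l ↔ j = none) ∧
        ∃ m' ∈ (g.1 i).support, ∀ e : E1, m e = m' (some e)) ∧
      ∀ w : E → ℤ, (∀ e, e ∉ E1 → w e = w0 e) →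
        ∃ Λ : (I →₀ P E) →ₛₗ[K.ev w] (Option (Fin n) → K.L),
          (∀ (g : Φ) j, Λ g.1 j = evs _ K.τ (fun e : E1 => K.x e) (fun e => w e) (M g j)) ∧
          (∀ ρ ∈ R, ρ ∉ Φ → Λ ρ = 0) ∧ Λ (Finsupp.single l 1) = Pi.single none 1 ∧
          ∀ T : Set (I →₀ P E), R \ Φ ⊆ T →
            T ⊆ Submodule.span (P E) (insert (Finsupp.single l 1) R) →
            ∀ y ∈ Submodule.span (P E) (insert (Finsupp.single l 1) R),
              del w T y = dst (Λ '' T) (Λ y)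

/-- Block MDa. -/
def MDa : Prop := B3 → DL → ON → MD

/-- Block RF: volumes are largest minors. -/
def RF : Prop :=
  ∀ (L : Type) [NormedField L] [IsUltrametricDist L] (ι C : Type) [Fintype ι] [Fintype C]
    (γ : ι → C → L),
    (∀ (u : ℕ) (y : Fin u → C → L), mm γ * volL (Set.range γ) y = mm (Sum.elim γ y)) ∧
    (mm γ ≠ 0 ↔ LinearIndependent L γ) ∧
    ∀ o : C, mm γ ≠ 0 → (dst (Set.range γ) (Pi.single o 1) < 1 ↔
      ∀ f : ι → C, (∀ j, f j ≠ o) → ‖(Matrix.of fun i j => γ i (f j)).det‖₊ < mm γ)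

/-- Block UF: primitive factorisation of a rank one family. -/
def UF : Prop :=
  ∀ (k : Type) [Field k] (σ A B : Type) [Finite σ] [Fintype A] (x : A → B → MvPolynomial σ k),
    (∀ J J' f f', x J f * x J' f' = x J f' * x J' f) → (∃ J f, x J f ≠ 0) →
    ∃ (α : A → MvPolynomial σ k) (β : B → MvPolynomial σ k), (∀ J f, x J f = α J * β f) ∧
      ∀ e, ∃ r : A → MvPolynomial σ k, ∑ J, r J * α J ≠ 0 ∧
        ∀ m ∈ (∑ J, r J * α J).support, m e = 0

/-- The finite theorem: factorisation of the minors and the gauge identity. -/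
def FT : Prop :=
  ∀ (L : Type) [NontriviallyNormedField L] [IsUltrametricDist L] [CompleteSpace L]
    (k : Subfield L) (τ : L) (σ Φ C : Type) [Fintype σ] [Fintype Φ] [Fintype C] (x : σ → L)
    (M : Φ → C → MvPolynomial σ k) (o : C) (lam : σ → ℤ), τ ∈ k → ‖τ‖₊ = 2⁻¹ →
    (∀ z : L, z ≠ 0 → ∃ n : ℤ, ‖z‖₊ = 2 ^ n) → (∀ s, Function.Injective (evs k τ x s)) →
    (∀ g, ∃ h : ℤ, ∀ j, ∀ m ∈ (M g j).support,
      ∑ e, lam e * (m e : ℤ) = h + if j = o then 1 else 0) →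
    ∃ (u : ℕ) (α : (Fin u → Φ) → MvPolynomial σ k) (β : (Fin u → C) → MvPolynomial σ k)
      (F : (σ → ℤ) → ℤ) (W : ℤ),
      (∀ J f, (Matrix.of fun i j => M (J i) (f j)).det = α J * β f) ∧
      (∀ e, ∃ r : (Fin u → Φ) → MvPolynomial σ k, ∑ J, r J * α J ≠ 0 ∧
        ∀ m ∈ (∑ J, r J * α J).support, m e = 0) ∧
      (∀ s, Module.finrank L (Submodule.span L (Set.range fun g j => evs k τ x s (M g j))) = u) ∧
      (∀ s, (Finset.univ.sup fun f => ‖evs k τ x s (β f)‖₊) = 2 ^ F s) ∧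
      ∀ s, F s - F (s - lam) =
        (if dst (Set.range fun g j => evs k τ x s (M g j)) (Pi.single o 1) < 1 then 1 else 0) - W

/-- Block FTa. -/
def FTa : Prop := RF → UF → FT

/-- the vectors `r M`, evaluated at `t` -/
noncomputable def rows {L : Type} [Field L] {k : Subfield L} {ι Φ C : Type} [Fintype Φ] (t : L)
    (r : ι → Φ → Polynomial k) (M : Φ → C → Polynomial k) : ι → C → L :=
  fun i j => Polynomial.eval₂ k.subtype t (∑ g, r i g * M g j)

/-- The one-variable theorem; `t`, `t'` are the two values of the variable, `Ψ` the constant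
rows, `A` the countable ring of coefficients. -/
def OV : Prop :=
  ∀ (L : Type) [NontriviallyNormedField L] [IsUltrametricDist L] [CompleteSpace L]
    (k : Subfield L) (t t' : L) (Φ C : Type) [Fintype Φ] [Fintype C]
    (M : Φ → C → Polynomial k) (Ψ : Set Φ) (A : Subring (Polynomial k)) (u d : ℕ)
    (α : (Fin u → Φ) → Polynomial k) (β : (Fin u → C) → Polynomial k),
    t ≠ 0 → ‖t'‖₊ = 2 * ‖t‖₊ →
    (∀ (p : Polynomial k) i, ‖(p.coeff i : L)‖₊ * ‖t‖₊ ^ i ≤ ‖p.eval₂ k.subtype t‖₊) →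
    (∀ (p : Polynomial k) i, ‖(p.coeff i : L)‖₊ * ‖t'‖₊ ^ i ≤ ‖p.eval₂ k.subtype t'‖₊) →
    (∀ g ∈ Ψ, ∀ j, (M g j).natDegree = 0) → (∀ g j, (M g j).natDegree ≤ d) →
    Polynomial.X ∈ A →
    (∀ (c : k) (ε : ℝ), 0 < ε → ∃ a b : k, Polynomial.C a ∈ A ∧ Polynomial.C b ∈ A ∧ b ≠ 0 ∧
      ‖(c : L) - a / b‖ < ε) →
    (∀ J f, (Matrix.of fun i j => M (J i) (f j)).det = α J * β f) →
    (∃ r : (Fin u → Φ) → Polynomial k, ∑ J, r J * α J = 1) → (∃ f, β f ≠ 0) →
    Module.finrank L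
      (Submodule.span L (Set.range fun g j => (M g j).eval₂ k.subtype t)) = u →
    ∀ (B B' : ℝ≥0) (S : Set (C → L)),
      B = (Finset.univ.sup fun f => ‖(β f).eval₂ k.subtype t‖₊) →
      B' = (Finset.univ.sup fun f => ‖(β f).eval₂ k.subtype t'‖₊) →
      S = (fun g j => (M g j).eval₂ k.subtype t) '' Ψ →
      (B ≤ B' ∧ B' ≤ 2 ^ (u * d) * B) ∧
      (∀ (n : ℕ) (r : Fin n → Φ → Polynomial k), volL S (rows t r M) ≠ 0 →
        (∀ g, dst (S ∪ Set.range (rows t r M)) (fun j => (M g j).eval₂ k.subtype t) = 0) →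
        volL S (rows t r M) * B' ≤ volL S (rows t' r M) * B) ∧
      ∃ (n : ℕ) (r : Fin n → Φ → Polynomial k), (∀ i g, r i g ∈ A) ∧ volL S (rows t r M) ≠ 0 ∧
        (∀ g, dst (S ∪ Set.range (rows t r M)) (fun j => (M g j).eval₂ k.subtype t) = 0) ∧
        volL S (rows t r M) * B' = volL S (rows t' r M) * B

/-- Block OVa. -/
def OVa : Prop := RF → OV

/-- Block DT: assembly of the deterministic theorem. -/
def DT : Prop := FL → GA → MD → FT → OV → Det

/-! ### Probability -/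

/-- Haar probability on sequences of digits. -/
structure Nice {ι : Type} (N : ℕ) (μ : Measure (ι → ZMod N)) : Prop where
  prob : IsProbabilityMeasure μ
  add : ∀ η : ι → ZMod N, MeasurePreserving (fun ω => ω + η) μ μ
  perm : ∀ g : ι ≃ ι, MeasurePreserving (fun ω : ι → ZMod N => ω ∘ g) μ μ
  erg : ∀ s : Set (ι → ZMod N), MeasurableSet s →
    (∀ η : ι →₀ ZMod N, (fun ω : ι → ZMod N => ω + ⇑η) ⁻¹' s = s) → μ s = 0 ∨ μ s = 1

/-- Block HM. -/
def HM : Prop :=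
  ∀ (ι : Type) [Countable ι] (N : ℕ), N ≠ 0 → ∃ μ : Measure (ι → ZMod N), Nice N μ

/-- the digits of level `i` -/
def dig {E : Type} {N : ℕ} (ω : ℕ × E → ZMod N) (i : ℕ) : E → ℤ := fun e => (ω (i, e)).val

/-- the level `i` height of a chain -/
def lev {E : Type} {N : ℕ} (ω : ℕ × E → ZMod N) (i : ℕ) (m : E →₀ ℤ) : ℤ :=
  m.sum fun e k => k * dig ω i e

/-- the lexicographic order on chains -/
def LT {E : Type} {N : ℕ} (ω : ℕ × E → ZMod N) (m m' : E →₀ ℤ) : Prop :=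
  ∃ i, (∀ j < i, lev ω j m = lev ω j m') ∧ lev ω i m < lev ω i m'

/-- Block TB: ties are rare. -/
def TB : Prop :=
  ∀ (E : Type) (N : ℕ) (μ : Measure (ℕ × E → ZMod N)), 2 ≤ N → Nice N μ → ∀ m : E →₀ ℤ, m ≠ 0 →
    μ.real {ω | lev ω 0 m = 0} ≤ 1 / N ∧ μ {ω | ∀ i, lev ω i m = 0} = 0

/-- Block PR: the pivot density is almost an integer. -/
def PR : Prop :=
  ∀ (E : Type) (n : ℕ) (inn out : Fin n → E) (v : E → (E → ℤ) → ℕ) (C : Set (E → ℤ)),
    MeasurableSet C → (∀ e, Measurable (v e)) → (∀ e, ∃ D, ∀ w, v e w ≤ D) →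
    (∀ x, ∃ g : E ≃ E, ∀ w, v (inn x) (w ∘ g) = v (out x) w) →
    Pot (∑ x, (Finsupp.single (inn x) 1 - Finsupp.single (out x) 1)) v C →
    ∃ K : ℝ, ∀ (N : ℕ) (μ : Measure (ℕ × E → ZMod N)), 2 ≤ N → Nice N μ →
      ∃ W : ℤ, |μ.real {ω | dig ω 0 ∈ C} - W| ≤ K / N

/-- the identity is the largest point of a function orthogonal to all translates of `ξ` -/
def Top {G : Type} [Group G] (ξ : G → ℝ) (lt : G → G → Prop) : Prop :=
  ∃ y : G →₀ ℚ, (∀ c, ∑ b ∈ y.support, (y b : ℝ) * ξ (c * b) = 0) ∧ y 1 ≠ 0 ∧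
    ∀ b ∈ y.support, b ≠ 1 → lt b 1

/-- Block P1: the pivot bound for invariant random orders. -/
def P1 : Prop :=
  ∀ (G : Type) [Group G] [Countable G] (ξ : G → ℝ), Summable (fun h => ξ h ^ 2) → ξ ≠ 0 →
    ∃ ρ : ℝ, ρ < 1 ∧ ∀ (Ω : Type) [MeasurableSpace Ω] (μ : Measure Ω) [IsProbabilityMeasure μ]
      (T : G → Ω → Ω) (lt : Ω → G → G → Prop), (∀ c, MeasurePreserving (T c) μ μ) →
      (∀ a b, MeasurableSet {ω | lt ω a b}) →
      (∀ ω c a b, lt (T c ω) (c * a) (c * b) ↔ lt ω a b) → (∀ ω a, ¬ lt ω a a) →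
      (∀ ω a b c, lt ω a b → lt ω b c → lt ω a c) →
      (∀ᵐ ω ∂μ, ∀ a b, a ≠ b → lt ω a b ∨ lt ω b a) → μ.real {ω | Top ξ (lt ω)} ≤ ρ

/-! ### The rows of a group ring element -/

/-- the row of `g`; `D q` is the chain `d q`, shifted to be nonnegative -/
noncomputable def row {G Q X : Type} [Group G] [Group Q] (ψ : G →* Q) (a : G →₀ ℚ)
    (D : G → (Q × X →₀ ℕ)) (g : Q) : Q →₀ P (Q × X) :=
  a.sum fun q c => Finsupp.single (g * ψ q)
    (MvPolynomial.monomial ((D q).mapDomain fun p => some (g * p.1, p.2)) c)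

/-- Block L1: the rows are banded, homogeneous and invariant. -/
def L1 : Prop :=
  ∀ (G Q : Type) [Group G] [Group Q] (n : ℕ) (s : Fin n → Q) (ψ : G →* Q)
    (d : G → (Q × Fin n →₀ ℤ)) (a : G →₀ ℚ) (D : G → (Q × Fin n →₀ ℕ)) (m0 : Q × Fin n →₀ ℤ),
    (∀ b, (d b).sum (fun p k => Finsupp.single (p.1 * s p.2) k - Finsupp.single p.1 k)
      = Finsupp.single (ψ b) 1 - Finsupp.single 1 1) →
    (∀ q ∈ a.support, ∀ p, (D q p : ℤ) = d q p + m0 p) →
    (∀ e, (Set.range (row ψ a D) \ free e (Set.range (row ψ a D))).Finite) ∧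
    {ρ ∈ Set.range (row ψ a D) | ρ 1 ≠ 0}.Finite ∧
    (∀ ρ ∈ Set.range (row ψ a D), ∃ h : ℤ, ∀ i, ∀ m ∈ (ρ i).support,
      (∑ x, (Finsupp.single ((s x)⁻¹, x) 1 - Finsupp.single (1, x) 1) : Q × Fin n →₀ ℤ).sum
        (fun e k => k * (m (some e) : ℤ)) = h + if i = 1 then 1 else 0) ∧
    ∀ g : Q, ren (Equiv.prodCongr (Equiv.mulLeft g) (Equiv.refl (Fin n))) (Equiv.mulLeft g) ''
      Set.range (row ψ a D) = Set.range (row ψ a D)

/-- Block L2: a strict pivot site gives a pivot of the order; a row without ties has one. -/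
def L2 : Prop :=
  ∀ (G Q X : Type) [Group G] [Group Q] (ψ : G →* Q) (d : G → (Q × X →₀ ℤ)) (a : G →₀ ℚ)
    (D : G → (Q × X →₀ ℕ)) (m0 : Q × X →₀ ℤ) (N : ℕ) (ω : ℕ × (Q × X) → ZMod N),
    (∀ b c, d (b * c) = d b + (d c).mapDomain fun p => (ψ b * p.1, p.2)) →
    Function.Injective d → (∀ q ∈ a.support, ∀ p, (D q p : ℤ) = d q p + m0 p) →
    (∀ ξ : G → ℝ, (∀ c, ∑ b ∈ a.support, (a b : ℝ) * ξ (c * b) = 0) →
      (∀ m : Q × X →₀ ℤ, m ≠ 0 → ∃ i, lev ω i m ≠ 0) →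
      Piv (Set.range (row ψ a D)) 1 (dig ω 0) → Top ξ fun b c => LT ω (d b) (d c)) ∧
    (a ≠ 0 → (∀ q ∈ a.support, ∀ q' ∈ a.support, q ≠ q' → lev ω 0 (d q - d q') ≠ 0) →
      ∃ q ∈ a.support, Piv (Set.range (row ψ a D)) (ψ q) (dig ω 0))

/-- Block LK: final assembly. -/
def LK : Prop := CM → CE → Det → HM → TB → PR → P1 → L1 → L2 → ThmA

end Pool.Agent.PD3A
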