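import Pool.Agent.Lib.MP_d98eb9_al.W.Linnell
import Pool.Agent.Lib.MP_d98eb9_al.TA.St

/-! The pivot bound for an invariant random order. -/

namespace Pool.Agent.PD3A.P1p

open MeasureTheory Filter Topology Pool.Agent.Lib.MP_d98eb9_al
open W W.L2 W.Linnell

section proj

variable {V : Type} [NormedAddCommGroup V] [InnerProductSpace ℝ V] [CompleteSpace V]

/-- The closed span of the vectors `v i` with `C i`. -/
noncomputable def cs (v : ℕ → V) (C : ℕ → Prop) : Submodule ℝ V :=
  (Submodule.span ℝ (v '' {i | C i})).topologicalClosure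

omit [CompleteSpace V] in
lemma cs_closed (v : ℕ → V) (C : ℕ → Prop) : IsClosed (cs v C : Set V) :=
  Submodule.isClosed_topologicalClosure _

instance (v : ℕ → V) (C : ℕ → Prop) : CompleteSpace (cs v C) := (cs_closed v C).completeSpace_coe

omit [CompleteSpace V] in
lemma mem_cs (v : ℕ → V) {C : ℕ → Prop} {i : ℕ} (h : C i) : v i ∈ cs v C :=
  Submodule.le_topologicalClosure _ (Submodule.subset_span ⟨i, h, rfl⟩)

omit [CompleteSpace V] in
lemma cs_le {v : ℕ → V} {C : ℕ → Prop} (K : Submodule ℝ V) (hK : IsClosed (K : Set V))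
    (h : ∀ i, C i → v i ∈ K) : cs v C ≤ K := by
  refine Submodule.topologicalClosure_minimal _ (Submodule.span_le.2 ?_) hK
  rintro _ ⟨i, hi, rfl⟩
  exact h i hi

omit [InnerProductSpace ℝ V] [CompleteSpace V] in
lemma sm_aux {Ω : Type} [MeasurableSpace Ω] {n : ℕ} (Φ : (Fin n → Prop) → V)
    (c : Ω → Fin n → Prop) (hc : Measurable c) : StronglyMeasurable fun ω => Φ (c ω) :=
  (StronglyMeasurable.of_discrete (f := Φ)).comp_measurable hc

lemma sm_proj {Ω : Type} [MeasurableSpace Ω] (v : ℕ → V) (C : ℕ → Ω → Prop)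
    (hC : ∀ i, MeasurableSet {ω | C i ω}) (x : V) :
    StronglyMeasurable fun ω => (cs v fun i => C i ω).starProjection x := by
  let Φ : (n : ℕ) → (Fin n → Prop) → V := fun n c =>
    (cs v fun i => ∃ h : i < n, c ⟨i, h⟩).starProjection x
  refine stronglyMeasurable_of_tendsto atTop
    (f := fun n ω => Φ n fun i => C i ω) (fun n => ?_) (tendsto_pi_nhds.2 fun ω => ?_)
  · exact sm_aux (Φ n) (fun ω i => C i ω)
      (measurable_pi_lambda _ fun i => measurableSet_setOfPred.1 (hC i))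
  · have h1 : (⨆ n : ℕ, cs v fun i => ∃ _ : i < n, C i ω).topologicalClosure
        = cs v fun i => C i ω := by
      refine le_antisymm (Submodule.topologicalClosure_minimal _ (iSup_le fun n => ?_)
        (cs_closed _ _)) (cs_le _ (Submodule.isClosed_topologicalClosure _) fun i hi => ?_)
      · exact cs_le _ (cs_closed _ _) fun i hi => mem_cs v hi.2
      · exact Submodule.le_topologicalClosure _
          (Submodule.mem_iSup_of_mem (i + 1) (mem_cs v ⟨Nat.lt_succ_self i, hi⟩))
    have h2 := Submodule.starProjection_tendsto_closure_iSup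
      (fun n : ℕ => cs v fun i => ∃ _ : i < n, C i ω)
      (fun n m hnm => cs_le _ (cs_closed _ _) fun i hi => mem_cs v ⟨hi.1.trans_le hnm, hi.2⟩) x
    simp only [h1] at h2
    exact h2

end proj

variable {G : Type} [Group G]

/-- Left translation. -/
noncomputable def Lt (g : G) : E G →L[ℝ] E G := re (Equiv.mulLeft g⁻¹)

lemma Lt_apply (g : G) (x : E G) (c : G) : Lt g x c = x (g⁻¹ * c) := rfl

lemma inner_Lt (g : G) (x y : E G) : inner ℝ (Lt g x) (Lt g y) = inner ℝ x y := inner_re _ x y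

lemma Lt_Lt (g k : G) (x : E G) : Lt g (Lt k x) = Lt (g * k) x := by
  ext c
  simp [Lt_apply, mul_assoc]

lemma Lt_one (x : E G) : Lt 1 x = x := by
  ext c
  simp [Lt_apply]

/-- The wandering vectors of a random order. -/
theorem core [Countable G] {Ω : Type} [MeasurableSpace Ω] (μ : Measure Ω)
    [IsProbabilityMeasure μ] (T : G → Ω → Ω) (hT : ∀ g, MeasurePreserving (T g) μ μ)
    (lt : Ω → G → G → Prop) (hm : ∀ p, MeasurableSet {ω | lt ω p 1})
    (he : ∀ ω g p q, lt (T g ω) p q ↔ lt ω (g * p) (g * q))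
    (htr : ∀ ω p q r, lt ω p q → lt ω q r → lt ω p r) (hir : ∀ ω p, ¬ lt ω p p)
    (htot : ∀ᵐ ω ∂μ, ∀ p q, p ≠ q → lt ω p q ∨ lt ω q p)
    (v : ℕ → E G) (hv : ∀ g i, ∃ j, v j = Lt g (v i))
    (x : E G) (hx : ∀ i, inner ℝ (v i) x = 0) (y : G) (s : ℝ) :
    μ {ω | ∃ i, v i 1 ≠ 0 ∧ ∀ p, v i p ≠ 0 → p ≠ 1 → lt ω p 1}
      ≤ ENNReal.ofReal (‖dl y - s • x‖ ^ 2) := by
  classical
  let C : ℕ → Ω → Prop := fun i ω => ∀ p, v i p ≠ 0 → lt ω p 1
  let D : ℕ → Ω → Prop := fun i ω => v i 1 ≠ 0 ∧ ∀ p, v i p ≠ 0 → p ≠ 1 → lt ω p 1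
  have hC : ∀ i, MeasurableSet {ω | C i ω} := fun i => by
    refine measurableSet_setOfPred.2 (Measurable.forall fun p => measurable_const.imp ?_)
    exact measurableSet_setOfPred.1 (hm p)
  have hD : ∀ i, MeasurableSet {ω | D i ω} := fun i => by
    refine measurableSet_setOfPred.2 (measurable_const.and (Measurable.forall fun p =>
      measurable_const.imp (measurable_const.imp ?_)))
    exact measurableSet_setOfPred.1 (hm p)
  let M : Ω → Submodule ℝ (E G) := fun ω => cs v fun i => C i ω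
  let z : ℕ → Ω → E G := fun i ω => v i - (M ω).starProjection (v i)
  let e : ℕ → Ω → E G := fun i ω => ‖z i ω‖⁻¹ • z i ω
  have hz : ∀ i, StronglyMeasurable (z i) := fun i =>
    stronglyMeasurable_const.sub (sm_proj v C hC (v i))
  have hes : ∀ i, StronglyMeasurable (e i) := fun i =>
    (hz i).norm.measurable.inv.stronglyMeasurable.smul (hz i)
  have hem : ∀ i y, Measurable fun ω => e i ω y := fun i y => by
    have := ((innerSL ℝ (dl y)).continuous.comp_stronglyMeasurable (hes i)).measurable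
    simpa [inner_dl] using this
  let D' : ℕ → Ω → Prop := fun i ω => D i ω ∨ ¬ ∃ j, D j ω
  have hD' : ∀ i, MeasurableSet {ω | D' i ω} := fun i =>
    measurableSet_setOfPred.2 ((measurableSet_setOfPred.1 (hD i)).or
      (Measurable.exists fun j => measurableSet_setOfPred.1 (hD j)).not)
  have hex : ∀ ω, ∃ i, D' i ω := fun ω => by
    by_cases h : ∃ j, D j ω
    · exact h.imp fun j hj => Or.inl hj
    · exact ⟨0, Or.inr h⟩
  have hDm : MeasurableSet {ω | ∃ j, D j ω} :=
    measurableSet_setOfPred.2 (Measurable.exists fun j => measurableSet_setOfPred.1 (hD j))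
  let η : Ω → E G := fun ω => e (Nat.find (hex ω)) ω
  have hηm : ∀ y, Measurable fun ω => η ω y := fun y =>
    Measurable.find (f := fun i ω => e i ω y) (fun i => hem i y) hD' hex
  let F : Ω → G → ENNReal := fun ω p => if ∃ j, D j ω then ENNReal.ofReal (η ω p ^ 2) else 0
  have hF : ∀ p, Measurable fun ω => F ω p := fun p =>
    Measurable.ite hDm ((hηm p).pow_const 2).ennreal_ofReal measurable_const
  have hM1 : ∀ ω, ∀ m ∈ M ω, m 1 = 0 := fun ω m hmm => by
    have := cs_le (innerSL ℝ (dl (1 : G))).ker (ContinuousLinearMap.isClosed_ker _)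
      (fun i hi => by
        have h0 : v i 1 = 0 := by
          by_contra h
          exact hir ω 1 (hi 1 h)
        simpa [inner_dl] using h0) hmm
    simpa [inner_dl] using this
  have hgood : ∀ ω, (∃ i, D i ω) → ‖η ω‖ = 1 ∧ η ω ∈ (M ω)ᗮ ∧
      ∀ K : Submodule ℝ (E G), IsClosed (K : Set (E G)) →
        (∀ i, (∀ p, v i p ≠ 0 → p = 1 ∨ lt ω p 1) → v i ∈ K) → η ω ∈ K := fun ω hω => by
    have h1 : D (Nat.find (hex ω)) ω := (Nat.find_spec (hex ω)).resolve_right (not_not.2 hω)
    set i := Nat.find (hex ω)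
    have hmM : (M ω).starProjection (v i) ∈ M ω := (M ω).starProjection_apply_mem _
    have hz0 : z i ω ≠ 0 := fun h0 => by
      have h2 : v i = (M ω).starProjection (v i) := sub_eq_zero.1 h0
      exact h1.1 (by rw [h2]; exact hM1 ω _ hmM)
    refine ⟨?_, Submodule.smul_mem _ _ ((M ω).sub_starProjection_mem_orthogonal _),
      fun K hK h => K.smul_mem _ (K.sub_mem (h i fun p hp => ?_)
        (cs_le K hK (fun j hj => h j fun p hp => Or.inr (hj p hp)) hmM))⟩
    · change ‖‖z i ω‖⁻¹ • z i ω‖ = 1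
      rw [norm_smul, norm_inv, norm_norm, inv_mul_cancel₀ (norm_ne_zero_iff.2 hz0)]
    · by_cases h2 : p = 1
      · exact Or.inl h2
      · exact Or.inr (h1.2 p hp h2)
  have hbes : ∀ᵐ ω ∂μ, ∑' c, F (T c ω) (c⁻¹ * y) ≤ ENNReal.ofReal (‖dl y - s • x‖ ^ 2) := by
    filter_upwards [htot] with ω h2
    have hlt : ∀ c d, (∃ i, D i (T c ω)) → (∃ i, D i (T d ω)) → lt ω d c →
        inner ℝ (Lt d (η (T d ω))) (Lt c (η (T c ω))) = 0 := by
      intro c d hc hd hdc
      have h3 : Lt (c⁻¹ * d) (η (T d ω)) ∈ M (T c ω) := by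
        refine (hgood _ hd).2.2 ((M (T c ω)).comap (Lt (c⁻¹ * d) : E G →ₗ[ℝ] E G))
          ((cs_closed _ _).preimage (Lt (c⁻¹ * d)).continuous) fun i hi => ?_
        obtain ⟨j, hj⟩ := hv (c⁻¹ * d) i
        change Lt (c⁻¹ * d) (v i) ∈ M (T c ω)
        rw [← hj]
        refine mem_cs v fun p hp => ?_
        rw [hj, Lt_apply] at hp
        rw [he, mul_one]
        rcases hi _ hp with h | h
        · have h4 : c * p = d := by
            rw [inv_mul_eq_one] at h
            rw [← h, mul_inv_cancel_left]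
          rwa [h4]
        · rw [he, mul_one] at h
          have h4 : d * ((c⁻¹ * d)⁻¹ * p) = c * p := by group
          rw [h4] at h
          exact htr _ _ _ _ h hdc
      have h4 := (Submodule.mem_orthogonal _ _).1 (hgood _ hc).2.1 _ h3
      rw [← inner_Lt c, Lt_Lt, mul_inv_cancel_left] at h4
      exact h4
    have ho : Orthonormal ℝ fun c : {c : G // ∃ i, D i (T c ω)} => Lt c.1 (η (T c.1 ω)) := by
      refine ⟨fun c => ?_, fun c d hne => ?_⟩
      · have h3 := inner_Lt c.1 (η (T c.1 ω)) (η (T c.1 ω))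
        rw [real_inner_self_eq_norm_sq, real_inner_self_eq_norm_sq, (hgood _ c.2).1] at h3
        exact (pow_eq_one_iff_of_nonneg (norm_nonneg _) two_ne_zero).1 (by simpa using h3)
      · rcases h2 c.1 d.1 (fun h => hne (Subtype.ext h)) with h | h
        · exact hlt d.1 c.1 d.2 c.2 h
        · rw [real_inner_comm]
          exact hlt c.1 d.1 c.2 d.2 h
    have h5 : ∀ c : {c : G // ∃ i, D i (T c ω)},
        ‖inner ℝ (Lt c.1 (η (T c.1 ω))) (dl y - s • x)‖ ^ 2 = η (T c.1 ω) (c.1⁻¹ * y) ^ 2 := by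
      intro c
      have h6 : inner ℝ (Lt c.1 (η (T c.1 ω))) x = 0 := by
        have := (hgood _ c.2).2.2 ((innerSL ℝ x) ∘L Lt c.1).ker
          (ContinuousLinearMap.isClosed_ker _) fun i _ => by
            obtain ⟨j, hj⟩ := hv c.1 i
            change inner ℝ x (Lt c.1 (v i)) = 0
            rw [← hj, real_inner_comm, hx]
        rw [real_inner_comm]
        exact this
      rw [inner_sub_right, real_inner_smul_right, h6, mul_zero, sub_zero, real_inner_comm,
        inner_dl, Lt_apply, Real.norm_eq_abs, sq_abs]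
    have h6 := ho.tsum_inner_products_le (dl y - s • x)
    have h7 := ho.inner_products_summable (dl y - s • x)
    simp only [h5] at h6 h7
    have h8 : ∑' c, F (T c ω) (c⁻¹ * y) = ∑' c : {c : G // ∃ i, D i (T c ω)},
        ENNReal.ofReal (η (T c.1 ω) (c.1⁻¹ * y) ^ 2) := by
      rw [← tsum_subtype_eq_of_support_subset (f := fun c => F (T c ω) (c⁻¹ * y))
        (s := {c : G | ∃ i, D i (T c ω)}) fun c hc => by_contra fun h => hc (if_neg h)]
      exact tsum_congr fun c => if_pos c.2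
    rw [h8, ← ENNReal.ofReal_tsum_of_nonneg (fun c => sq_nonneg _) h7]
    exact ENNReal.ofReal_le_ofReal h6
  have hone : ∫⁻ ω, ∑' c, F (T c ω) (c⁻¹ * y) ∂μ = μ {ω | ∃ j, D j ω} := by
    rw [lintegral_tsum (f := fun c ω => F (T c ω) (c⁻¹ * y))
      fun c => ((hF (c⁻¹ * y)).comp (hT c).measurable).aemeasurable]
    have h1 : ∀ c, ∫⁻ ω, F (T c ω) (c⁻¹ * y) ∂μ = ∫⁻ ω, F ω (c⁻¹ * y) ∂μ := fun c =>
      (hT c).lintegral_comp (hF _)
    simp only [h1]
    rw [← lintegral_tsum fun c => (hF (c⁻¹ * y)).aemeasurable, ← lintegral_indicator_one hDm]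
    refine lintegral_congr fun ω => ?_
    by_cases hω : ∃ j, D j ω
    · have h3 : Summable fun p => η ω p ^ 2 := (mem_iff _).1 (η ω).2
      have h4 : ∑' p, η ω p ^ 2 = 1 := by
        have h5 := inner_E (η ω) (η ω)
        rw [real_inner_self_eq_norm_sq, (hgood ω hω).1] at h5
        simpa [sq] using h5.symm
      have h6 := ((Equiv.inv G).trans (Equiv.mulRight y)).tsum_eq
        fun p => ENNReal.ofReal (η ω p ^ 2)
      rw [← ENNReal.ofReal_tsum_of_nonneg (fun c => sq_nonneg _) h3, h4, ENNReal.ofReal_one] at h6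
      rw [Set.indicator_of_mem (show ω ∈ {ω | ∃ j, D j ω} from hω), Pi.one_apply, ← h6]
      exact tsum_congr fun c => if_pos hω
    · rw [Set.indicator_of_notMem (show ω ∉ {ω | ∃ j, D j ω} from hω), ENNReal.tsum_eq_zero]
      exact fun c => if_neg hω
  have h4 := lintegral_mono_ae hbes
  rwa [hone, lintegral_const, measure_univ, mul_one] at h4

/-- A finitely supported rational function as a square-summable function. -/
noncomputable def vq (r : G →₀ ℚ) : E G :=
  ⟨fun h => (r h : ℝ), (mem_iff _).2 (summable_of_ne_finset_zero (s := r.support)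
    fun c hc => by simp [Finsupp.notMem_support_iff.1 hc])⟩

omit [Group G] in
lemma vq_apply (r : G →₀ ℚ) (h : G) : vq r h = (r h : ℝ) := rfl

theorem p1 : P1 := by
  intro G _ _ ξ hξ h0
  obtain ⟨y, hy⟩ := Function.ne_iff.1 h0
  let x : E G := ⟨ξ, (mem_iff _).2 hξ⟩
  have hxy : x y ≠ 0 := hy
  have hb : 0 < ‖x‖ ^ 2 := by
    refine pow_pos (norm_pos_iff.2 fun h => hxy ?_) 2
    rw [h]
    rfl
  refine ⟨‖dl y - (x y / ‖x‖ ^ 2) • x‖ ^ 2, ?_, fun Ω _ μ _ T lt hT hm he hir htr htot => ?_⟩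
  · rw [norm_sub_sq_real, norm_dl, real_inner_smul_right, inner_dl, norm_smul, mul_pow,
      Real.norm_eq_abs, sq_abs]
    have h1 : (x y / ‖x‖ ^ 2) ^ 2 * ‖x‖ ^ 2 = x y / ‖x‖ ^ 2 * x y := by field_simp
    have h2 : 0 < x y / ‖x‖ ^ 2 * x y := by
      rw [div_mul_eq_mul_div]
      exact div_pos (mul_self_pos.2 hxy) hb
    linarith
  let I : Set (G →₀ ℚ) := {r | ∀ c, ∑ b ∈ r.support, (r b : ℝ) * ξ (c * b) = 0}
  obtain ⟨f, hf⟩ := (Set.to_countable I).exists_eq_range ⟨0, fun c => by simp⟩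
  have hfI : ∀ i, f i ∈ I := fun i => hf ▸ Set.mem_range_self i
  have h1 := core μ (fun g => T g⁻¹) (fun g => hT _) lt (fun p => hm p 1)
    (fun ω g p q => by simpa using he ω g⁻¹ (g * p) (g * q)) htr hir htot (fun i => vq (f i))
    (fun g i => ?_) x (fun i => ?_) y (x y / ‖x‖ ^ 2)
  · refine ENNReal.toReal_le_of_le_ofReal (sq_nonneg _) (le_trans (measure_mono ?_) h1)
    rintro ω ⟨r, hr, hr1, hr2⟩
    obtain ⟨i, rfl⟩ : r ∈ Set.range f := hf ▸ hr
    refine ⟨i, by simpa [vq_apply] using hr1, fun p hp => hr2 p ?_⟩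
    simpa [vq_apply] using hp
  · have h2 : (f i).equivMapDomain (Equiv.mulLeft g) ∈ I := fun c => by
      rw [← hfI i (c * g)]
      refine (Finset.sum_equiv (Equiv.mulLeft g) (fun b => by simp) fun b _ => ?_).symm
      simp [mul_assoc]
    obtain ⟨j, hj⟩ : _ ∈ Set.range f := hf ▸ h2
    refine ⟨j, ?_⟩
    ext c
    simp [vq_apply, Lt_apply, hj]
  · rw [inner_E, tsum_eq_sum (s := (f i).support), ← hfI i 1]
    · exact Finset.sum_congr rfl fun b _ => by rw [one_mul]; rfl
    · intro c hc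
      simp [vq_apply, Finsupp.notMem_support_iff.1 hc]

end Pool.Agent.PD3A.P1p
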