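import Pool.Agent.Lib.MP_d98eb9_al.TA.St

/-! The pivot density is almost an integer. -/

namespace Pool.Agent.PD3A.PRp

open MeasureTheory
open scoped Classical

variable {E : Type}

lemma meas_dig (N : ℕ) : Measurable fun ω : ℕ × E → ZMod N => dig ω 0 :=
  measurable_pi_lambda _ fun e =>
    (measurable_from_top (f := fun z : ZMod N => (z.val : ℤ))).comp (measurable_pi_apply (0, e))

lemma int_comp {Ω : Type} [MeasurableSpace Ω] {μ : Measure Ω} {T : Ω → Ω}
    (hT : MeasurePreserving T μ μ) {f : Ω → ℝ} (hf : Measurable f) :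
    ∫ ω, f (T ω) ∂μ = ∫ ω, f ω ∂μ := by
  rw [← integral_map_of_stronglyMeasurable hT.measurable hf.stronglyMeasurable, hT.map_eq]

lemma digit {ι : Type} {N : ℕ} {μ : Measure (ι → ZMod N)} (hN : 2 ≤ N) (h : Nice N μ) (i : ι)
    (j : ZMod N) : μ.real {ω | ω i = j} = 1 / N := by
  have := h.prob
  have : NeZero N := ⟨by omega⟩
  have hm : ∀ j : ZMod N, MeasurableSet ((fun ω : ι → ZMod N => ω i) ⁻¹' {j}) := fun j =>
    measurable_pi_apply i MeasurableSpace.measurableSet_top
  have h1 : ∀ k : ZMod N, μ.real ((fun ω : ι → ZMod N => ω i) ⁻¹' {k}) = μ.real {ω | ω i = j} := by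
    intro k
    have h2 := (h.add (Pi.single i (k - j))).measureReal_preimage (hm k).nullMeasurableSet
    rw [← h2]
    congr 1
    ext ω
    simp only [Set.mem_preimage, Pi.add_apply, Pi.single_eq_same, Set.mem_singleton_iff,
      Set.mem_ofPred_eq]
    constructor
    · intro h3
      linear_combination h3
    · intro h3
      linear_combination h3
  have h2 := sum_measureReal_preimage_singleton (μ := μ) (Finset.univ : Finset (ZMod N))
    (f := fun ω : ι → ZMod N => ω i) fun y _ => hm y
  simp only [h1, Finset.sum_const, Finset.card_univ, ZMod.card, Finset.coe_univ,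
    Set.preimage_univ, probReal_univ, nsmul_eq_mul] at h2
  have h3 : (N : ℝ) ≠ 0 := Nat.cast_ne_zero.2 (by omega)
  field_simp
  linarith

/-- The shift by `η` almost preserves expectations. -/
def Sm (η : E → ℤ) : Prop :=
  ∃ K : ℝ, ∀ (N : ℕ) (μ : Measure (ℕ × E → ZMod N)), 2 ≤ N → Nice N μ →
    ∀ (f : (E → ℤ) → ℝ) (D : ℝ), Measurable f → (∀ w, |f w| ≤ D) →
      |∫ ω, f (dig ω 0 + η) ∂μ - ∫ ω, f (dig ω 0) ∂μ| ≤ D * K / N

lemma sm_zero : Sm (0 : E → ℤ) := ⟨0, fun N μ _ _ f D _ _ => by simp⟩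

lemma Sm.add {a b : E → ℤ} (ha : Sm a) (hb : Sm b) : Sm (a + b) := by
  obtain ⟨K, hK⟩ := ha
  obtain ⟨K', hK'⟩ := hb
  refine ⟨K + K', fun N μ hN h f D hf hD => ?_⟩
  have h1 := hK N μ hN h (fun w => f (w + b)) D (hf.comp (measurable_add_const b)) fun w => hD _
  have h2 := hK' N μ hN h f D hf hD
  simp only [add_assoc] at h1
  rw [mul_add, add_div]
  exact (abs_sub_le _ _ _).trans (add_le_add h1 h2)

lemma Sm.neg {a : E → ℤ} (ha : Sm a) : Sm (-a) := by
  obtain ⟨K, hK⟩ := ha
  refine ⟨K, fun N μ hN h f D hf hD => ?_⟩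
  have h1 := hK N μ hN h (fun w => f (w + -a)) D (hf.comp (measurable_add_const _)) fun w => hD _
  simp only [add_neg_cancel_right] at h1
  rwa [abs_sub_comm]

lemma intg {Ω : Type} [MeasurableSpace Ω] {μ : Measure Ω} [IsFiniteMeasure μ] {f : Ω → ℝ}
    (hf : Measurable f) {D : ℝ} (hD : ∀ w, |f w| ≤ D) : Integrable f μ :=
  Integrable.of_bound hf.aestronglyMeasurable D (ae_of_all _ hD)

lemma sm_single (e : E) : Sm (Pi.single e 1 : E → ℤ) := by
  refine ⟨2, fun N μ hN h f D hf hD => ?_⟩
  have := h.prob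
  have : Fact (1 < N) := ⟨by omega⟩
  have : NeZero N := ⟨by omega⟩
  have hB : MeasurableSet {ω : ℕ × E → ZMod N | ω (0, e) = -1} :=
    measurable_pi_apply (X := fun _ : ℕ × E => ZMod N) (0, e)
      (MeasurableSpace.measurableSet_top (s := {-1}))
  have m1 : Measurable fun ω : ℕ × E → ZMod N => f (dig ω 0 + Pi.single e 1) :=
    hf.comp ((meas_dig N).add_const _)
  have m2 : Measurable fun ω : ℕ × E → ZMod N => f (dig ω 0) := hf.comp (meas_dig N)
  have hT := h.add (Pi.single (0, e) 1)
  have m3 : Measurable fun ω : ℕ × E → ZMod N => f (dig (ω + Pi.single (0, e) 1) 0) :=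
    m2.comp hT.measurable
  rw [← int_comp hT m2, ← integral_sub (intg m1 fun _ => hD _) (intg m3 fun _ => hD _)]
  have h1 := norm_integral_le_of_norm_le (μ := μ)
    (f := fun ω => f (dig ω 0 + Pi.single e 1) - f (dig (ω + Pi.single (0, e) 1) 0))
    (g := Set.indicator {ω : ℕ × E → ZMod N | ω (0, e) = -1} fun _ => D * 2)
    ((integrable_const _).indicator hB) (ae_of_all _ fun ω => ?_)
  · rw [integral_indicator_const _ hB, digit hN h, smul_eq_mul] at h1
    refine h1.trans (le_of_eq ?_)
    ring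
  by_cases hω : ω (0, e) = -1
  · rw [Set.indicator_of_mem (show ω ∈ {ω : ℕ × E → ZMod N | ω (0, e) = -1} from hω)]
    refine (norm_sub_le _ _).trans ?_
    have := add_le_add (hD (dig ω 0 + Pi.single e 1)) (hD (dig (ω + Pi.single (0, e) 1) 0))
    simp only [Real.norm_eq_abs]
    linarith
  · rw [Set.indicator_of_notMem (show ω ∉ {ω : ℕ × E → ZMod N | ω (0, e) = -1} from hω)]
    have h2 : dig (ω + Pi.single (0, e) 1) 0 = dig ω 0 + Pi.single e 1 := by
      ext e'
      by_cases he : e' = e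
      · subst he
        have h3 : (ω (0, e')).val + (1 : ZMod N).val < N := by
          rw [ZMod.val_one]
          by_contra h4
          have h5 := ZMod.val_lt (ω (0, e'))
          have h6 : (ω (0, e')).val + 1 = N := by omega
          apply hω
          have h7 := congrArg (Nat.cast : ℕ → ZMod N) h6
          rw [Nat.cast_add, ZMod.natCast_zmod_val, Nat.cast_one, ZMod.natCast_self] at h7
          exact eq_neg_of_add_eq_zero_left h7
        simp [dig, ZMod.val_add_of_lt h3, ZMod.val_one]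
      · simp [dig, he]
    simp [h2]

lemma sm_sum {ι : Type} (s : Finset ι) (ed : ι → E) :
    Sm (∑ y ∈ s, Pi.single (ed y) 1 : E → ℤ) :=
  Finset.sum_induction _ Sm (fun _ _ => Sm.add) sm_zero fun _ _ => sm_single _

/-- The sum of the first `k` unit vectors. -/
noncomputable def pre {n : ℕ} (ed : Fin n → E) (k : ℕ) : E → ℤ :=
  ∑ y ∈ Finset.univ.filter fun y : Fin n => y.val < k, Pi.single (ed y) 1

lemma pre_succ {n : ℕ} (ed : Fin n → E) (x : Fin n) :
    pre ed (x + 1) = pre ed x + Pi.single (ed x) 1 := by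
  have h : (Finset.univ.filter fun y : Fin n => y.val < x + 1)
      = insert x (Finset.univ.filter fun y : Fin n => y.val < x) := by
    ext y
    simp only [Finset.mem_filter, Finset.mem_univ, true_and, Finset.mem_insert, Fin.ext_iff]
    omega
  rw [pre, h, Finset.sum_insert (by simp), add_comm]
  rfl

lemma pre_off {n : ℕ} {ed : Fin n → E} {E1 : Finset E} (h : ∀ x, ed x ∈ E1) (k : ℕ) {e : E}
    (he : e ∉ E1) : pre ed k e = 0 := by
  rw [pre, Finset.sum_apply]
  exact Finset.sum_eq_zero fun y _ => Pi.single_eq_of_ne' (fun h0 : ed y = e => he (h0 ▸ h y)) _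

lemma tele {n : ℕ} (ed : Fin n → E) (F : (E → ℤ) → ℤ) (z : E → ℤ) :
    ∑ x : Fin n, (F (z + pre ed x + Pi.single (ed x) 1) - F (z + pre ed x))
      = F (z + pre ed n) - F z := by
  have h := Fin.sum_univ_eq_sum_range (fun k => F (z + pre ed (k + 1)) - F (z + pre ed k)) n
  rw [Finset.sum_range_sub fun k => F (z + pre ed k)] at h
  simpa [pre_succ, add_assoc, show pre ed 0 = 0 by simp [pre]] using h

theorem pr : PR := by
  intro E n inn out v C hC hv hD hg hP
  choose D hD using hD
  choose g hg using hg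
  let G : (E → ℤ) → ℤ := fun w => (if w ∈ C then 1 else 0) -
    ∑ x : Fin n, ((v (inn x) (w + (-pre inn n + pre inn x)) : ℤ)
      - v (out x) (w + (-pre inn n + pre out x)))
  have hlam : ⇑(∑ x, (Finsupp.single (inn x) 1 - Finsupp.single (out x) 1) : E →₀ ℤ)
      = pre inn n - pre out n := by
    ext e
    simp [pre, Finsupp.single_apply, Pi.single_apply, eq_comm, Finset.sum_sub_distrib]
  have hG : ∀ w w' : E → ℤ, {e | w e ≠ w' e}.Finite → G w = G w' := by
    intro w w' hw
    let E1 : Finset E := hw.toFinset ∪ (Finset.univ.image inn ∪ Finset.univ.image out)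
    have hi : ∀ x, inn x ∈ E1 := fun x => by simp [E1]
    have ho : ∀ x, out x ∈ E1 := fun x => by simp [E1]
    obtain ⟨F, W, hF⟩ := hP w' E1 fun e he => by
      by_contra h
      apply Finsupp.mem_support_iff.1 he
      rw [hlam, Pi.sub_apply, pre_off hi n h, pre_off ho n h, sub_zero]
    have key : ∀ u : E → ℤ, (∀ e, e ∉ E1 → u e = w' e) → G u = W := by
      intro u hu
      have h1 : ∀ (ed : Fin n → E), (∀ x, ed x ∈ E1) →
          ∑ x : Fin n, (v (ed x) (u + (-pre inn n + pre ed x)) : ℤ)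
            = F (u - pre inn n + pre ed n) - F (u - pre inn n) := by
        intro ed hed
        rw [← tele]
        refine Finset.sum_congr rfl fun x _ => ?_
        rw [← ((hF (u + (-pre inn n + pre ed x)) fun e he => ?_).1 _ (hed x)), ← add_assoc,
          ← sub_eq_add_neg]
        rw [Pi.add_apply, Pi.add_apply, Pi.neg_apply, pre_off hi n he, pre_off hed x he, hu e he]
        simp
      have h2 := (hF u hu).2
      rw [hlam, ← sub_add] at h2
      simp only [G, Finset.sum_sub_distrib, h1 inn hi, h1 out ho, sub_add_cancel]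
      linarith
    rw [key w fun e he => by_contra fun h => he (by simp [E1, h]), key w' fun _ _ => rfl]
  have mv : ∀ e, Measurable fun w => (v e w : ℤ) := fun e =>
    (measurable_from_top (f := fun k : ℕ => (k : ℤ))).comp (hv e)
  have mr : ∀ e, Measurable fun w => (v e w : ℝ) := fun e =>
    (measurable_from_top (f := fun k : ℕ => (k : ℝ))).comp (hv e)
  have br : ∀ e w, |(v e w : ℝ)| ≤ D e := fun e w => by
    rw [Nat.abs_cast]
    exact_mod_cast hD e w
  have mG : Measurable G :=
    (Measurable.ite hC measurable_const measurable_const).sub (Finset.measurable_sum _ fun x _ =>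
      ((mv _).comp (measurable_add_const _)).sub ((mv _).comp (measurable_add_const _)))
  have s1 : ∀ (ed : Fin n → E) (x : Fin n), Sm (-pre inn n + pre ed x) := fun ed x =>
    (sm_sum _ inn).neg.add (sm_sum _ ed)
  choose K hK using s1
  refine ⟨∑ x, (D (inn x) * K inn x + D (out x) * K out x), fun N μ hN h => ?_⟩
  have := h.prob
  have mG' : Measurable fun ω : ℕ × E → ZMod N => G (dig ω 0) := mG.comp (meas_dig N)
  have hA : ∀ j : ℤ, MeasurableSet {ω : ℕ × E → ZMod N | G (dig ω 0) = j} := fun j =>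
    mG' (MeasurableSpace.measurableSet_top (s := {j}))
  obtain ⟨W, hW⟩ : ∃ W : ℤ, μ {ω | G (dig ω 0) = W} = 1 := by
    by_contra h0
    have h1 : μ (⋃ j : ℤ, {ω | G (dig ω 0) = j}) = 0 := by
      refine measure_iUnion_null fun j => (h.erg _ (hA j) fun η => ?_).resolve_right
        fun h2 => h0 ⟨j, h2⟩
      ext ω
      simp only [Set.mem_preimage, Set.mem_ofPred_eq]
      rw [hG (dig (ω + ⇑η) 0) (dig ω 0)]
      refine ((η.support.image Prod.snd).finite_toSet).subset fun e he => ?_
      by_contra h3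
      have h4 : η (0, e) = 0 := by
        by_contra h5
        exact h3 (Finset.mem_coe.2 (Finset.mem_image.2 ⟨(0, e), Finsupp.mem_support_iff.2 h5, rfl⟩))
      exact he (by simp [dig, h4])
    have h2 : (⋃ j : ℤ, {ω : ℕ × E → ZMod N | G (dig ω 0) = j}) = Set.univ :=
      Set.eq_univ_of_forall fun ω => Set.mem_iUnion.2 ⟨_, rfl⟩
    rw [h2, measure_univ] at h1
    exact one_ne_zero h1
  refine ⟨W, ?_⟩
  have hW' : ∀ᵐ ω ∂μ, G (dig ω 0) = W := (mem_ae_iff_prob_eq_one (hA W)).2 hW
  have hCm : MeasurableSet {ω : ℕ × E → ZMod N | dig ω 0 ∈ C} := meas_dig N hC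
  have i1 : ∀ (e : E) (η : E → ℤ),
      Integrable (fun ω : ℕ × E → ZMod N => (v e (dig ω 0 + η) : ℝ)) μ := fun e η =>
    intg ((mr e).comp ((meas_dig N).add_const η)) fun _ => br e _
  have h1 : μ.real {ω | dig ω 0 ∈ C} - W
      = ∑ x : Fin n, (∫ ω, (v (inn x) (dig ω 0 + (-pre inn n + pre inn x)) : ℝ) ∂μ
        - ∫ ω, (v (out x) (dig ω 0 + (-pre inn n + pre out x)) : ℝ) ∂μ) := by
    have h2 : (W : ℝ) = ∫ _ω, (W : ℝ) ∂μ := by simp
    rw [← integral_indicator_one hCm, h2, ← integral_sub ((integrable_const _).indicator hCm)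
      (integrable_const _)]
    simp only [← integral_sub (i1 _ _) (i1 _ _)]
    rw [← integral_finsetSum (f := fun (x : Fin n) ω =>
      (v (inn x) (dig ω 0 + (-pre inn n + pre inn x)) : ℝ)
        - v (out x) (dig ω 0 + (-pre inn n + pre out x))) _ fun x _ => (i1 _ _).sub (i1 _ _)]
    refine integral_congr_ae (hW'.mono fun ω hω => ?_)
    have h3 := congrArg (Int.cast : ℤ → ℝ) hω
    simp only [G] at h3
    push_cast at h3
    by_cases h4 : dig ω 0 ∈ C
    · simp only [h4, if_true] at h3
      simp only [Set.indicator_of_mem (show ω ∈ {ω | dig ω 0 ∈ C} from h4), Pi.one_apply]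
      linarith
    · simp only [h4, if_false] at h3
      simp only [Set.indicator_of_notMem (show ω ∉ {ω | dig ω 0 ∈ C} from h4)]
      linarith
  rw [h1, Finset.sum_div]
  refine (Finset.abs_sum_le_sum_abs _ _).trans (Finset.sum_le_sum fun x _ => ?_)
  have h2 := hK inn x N μ hN h _ _ (mr (inn x)) (br _)
  have h3 := hK out x N μ hN h _ _ (mr (out x)) (br _)
  have h4 : ∫ ω, (v (inn x) (dig ω 0) : ℝ) ∂μ = ∫ ω, (v (out x) (dig ω 0) : ℝ) ∂μ := by
    rw [← int_comp (f := fun ω => (v (inn x) (dig ω 0) : ℝ))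
      (h.perm ((Equiv.refl ℕ).prodCongr (g x))) ((mr (inn x)).comp (meas_dig N))]
    refine integral_congr_ae (ae_of_all _ fun ω => ?_)
    simp only [← hg x]
    rfl
  rw [h4] at h2
  rw [abs_sub_comm] at h3
  rw [add_div]
  exact (abs_sub_le _ _ _).trans (add_le_add h2 h3)

end Pool.Agent.PD3A.PRp
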