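import Pool.Agent.Lib.MP_d98eb9_al.TA.St

/-! Block TB: ties are rare. -/

namespace Pool.Agent.PD3A

open MeasureTheory Set

theorem tb_measurable_lev {E : Type} {N : ℕ} (i : ℕ) (m : E →₀ ℤ) :
    Measurable fun ω : ℕ × E → ZMod N => lev ω i m := by
  unfold lev dig Finsupp.sum
  refine Finset.measurable_sum _ fun e _ => measurable_const.mul ?_
  exact (measurable_from_top (f := fun z : ZMod N => (z.val : ℤ))).comp (measurable_pi_apply (i, e))

theorem tb_digit_eq {E : Type} {N : ℕ} [NeZero N] {i : ℕ} {m : E →₀ ℤ} {e0 : E} (he : m e0 ≠ 0)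
    {ω ω' : ℕ × E → ZMod N} (hag : ∀ e, e ≠ e0 → ω (i, e) = ω' (i, e))
    (h : lev ω i m = lev ω' i m) : ω (i, e0) = ω' (i, e0) := by
  have h0 : lev ω i m - lev ω' i m = m e0 * (dig ω i e0 - dig ω' i e0) := by
    unfold lev Finsupp.sum
    rw [← Finset.sum_sub_distrib, Finset.sum_eq_single e0]
    · ring
    · intro e _ hne
      simp only [dig, hag e hne, sub_self]
    · intro hn
      exact absurd (Finsupp.mem_support_iff.mpr he) hn
  rw [h, sub_self] at h0
  have h1 : dig ω i e0 = dig ω' i e0 := sub_eq_zero.mp ((mul_eq_zero.mp h0.symm).resolve_left he)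
  unfold dig at h1
  exact ZMod.val_injective N (by exact_mod_cast h1)

theorem tb_card_le {ι κ : Type} {N : ℕ} {μ : Measure (ι → ZMod N)} (hμ : Nice N μ)
    {A : Set (ι → ZMod N)} (hA : MeasurableSet A) (s : Finset κ) (η : κ → ι → ZMod N)
    (hd : ∀ j j', ∀ ω, ω + η j ∈ A → ω + η j' ∈ A → j = j') : (s.card : ℝ) * μ.real A ≤ 1 := by
  haveI := hμ.prob
  have h := sum_measure_le_measure_univ (μ := μ) (s := s) (t := fun j => (fun ω => ω + η j) ⁻¹' A)
    (fun j _ => ((hμ.add (η j)).measurable hA).nullMeasurableSet)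
    (fun j _ j' _ hne => Disjoint.aedisjoint (Set.disjoint_left.mpr fun ω h1 h2 =>
      hne (hd j j' ω h1 h2)))
  simp only [(hμ.add _).measure_preimage hA.nullMeasurableSet, Finset.sum_const, measure_univ,
    nsmul_eq_mul] at h
  have h2 := ENNReal.toReal_mono ENNReal.one_ne_top h
  simpa [Measure.real] using h2

theorem tb : TB := by
  classical
  intro E N μ hN hμ m hm
  haveI : NeZero N := ⟨by omega⟩
  haveI : Fact (1 < N) := ⟨by omega⟩
  haveI := hμ.prob
  obtain ⟨e0, he⟩ : ∃ e0, m e0 ≠ 0 := by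
    by_contra h
    exact hm (Finsupp.ext fun e => not_not.mp fun h' => h ⟨e, h'⟩)
  have hA : ∀ i, MeasurableSet {ω : ℕ × E → ZMod N | lev ω i m = 0} := fun i =>
    tb_measurable_lev i m (measurableSet_singleton 0)
  constructor
  · have h := tb_card_le hμ (hA 0) (Finset.univ : Finset (ZMod N))
      (fun j => Pi.single (0, e0) j) (by
        intro j j' ω h1 h2
        have := tb_digit_eq (i := 0) he (ω := ω + Pi.single (0, e0) j)
          (ω' := ω + Pi.single (0, e0) j') (fun e hne => by
            have : ((0 : ℕ), e) ≠ (0, e0) := fun h => hne (Prod.mk.inj h).2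
            simp [Pi.single_eq_of_ne this]) (by
            rw [show lev _ 0 m = 0 from h1, show lev _ 0 m = 0 from h2])
        simpa using this)
    rw [Finset.card_univ, ZMod.card] at h
    have hpos : (0 : ℝ) < N := by exact_mod_cast (by omega : 0 < N)
    rw [le_div_iff₀ hpos, mul_comm]
    exact h
  · have hB : MeasurableSet {ω : ℕ × E → ZMod N | ∀ i, lev ω i m = 0} := by
      rw [Set.setOf_forall]
      exact MeasurableSet.iInter hA
    have h : ∀ k : ℕ, (k : ℝ) * μ.real {ω : ℕ × E → ZMod N | ∀ i, lev ω i m = 0} ≤ 1 := by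
      intro k
      have := tb_card_le hμ hB (Finset.range k) (fun j => Pi.single (j, e0) 1) (by
        intro j j' ω h1 h2
        by_contra hjj
        have := tb_digit_eq (i := j) he (ω := ω + Pi.single (j, e0) 1)
          (ω' := ω + Pi.single (j', e0) 1) (fun e hne => by
            have a1 : (j, e) ≠ (j, e0) := fun h => hne (Prod.mk.inj h).2
            have a2 : (j, e) ≠ (j', e0) := fun h => hne (Prod.mk.inj h).2
            simp [Pi.single_eq_of_ne a1, Pi.single_eq_of_ne a2]) (by
            rw [show lev _ j m = 0 from h1 j, show lev _ j m = 0 from h2 j])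
        have a3 : (j, e0) ≠ (j', e0) := fun h => hjj (Prod.mk.inj h).1
        simp [Pi.single_eq_of_ne a3] at this)
      simpa using this
    have h0 : μ.real {ω : ℕ × E → ZMod N | ∀ i, lev ω i m = 0} = 0 := by
      by_contra hne
      have hpos : 0 < μ.real {ω : ℕ × E → ZMod N | ∀ i, lev ω i m = 0} :=
        lt_of_le_of_ne measureReal_nonneg (Ne.symm hne)
      obtain ⟨k, hk⟩ := exists_nat_gt (1 / μ.real {ω : ℕ × E → ZMod N | ∀ i, lev ω i m = 0})
      rw [div_lt_iff₀ hpos] at hk
      exact absurd (h k) (not_le.mpr hk)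
    exact (measureReal_eq_zero_iff (measure_ne_top _ _)).mp h0

end Pool.Agent.PD3A
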