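import Pool.Agent.Lib.MP_d98eb9_al.TA.St

/-! Primitive factorisation of a rank one family. -/

namespace Pool.Agent.PD3A

open scoped Classical

namespace UFx

open Polynomial

attribute [local instance] Polynomial.algebra Polynomial.isLocalization in
lemma bez {R A : Type} [CommRing R] [IsDomain R] [IsGCDMonoid R] [Fintype A] (α : A → R[X])
    (h : ∀ g, (∀ J, g ∣ α J) → IsUnit g) :
    ∃ (r : A → R[X]) (b : R), b ≠ 0 ∧ ∑ J, r J * α J = C b := by
  let K := FractionRing R
  let : NormalizedGCDMonoid R := Nonempty.some inferInstance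
  let I : Ideal K[X] := (Ideal.span (Set.range α)).map (algebraMap R[X] K[X])
  obtain ⟨g, hg⟩ := (IsPrincipalIdealRing.principal I).principal
  have h1 : ∀ J, g ∣ (α J).map (algebraMap R K) := fun J => Ideal.mem_span_singleton.1 (by
    change _ ∈ Submodule.span _ _
    rw [← hg]
    exact Ideal.mem_map_of_mem _ (Ideal.subset_span ⟨J, rfl⟩))
  have hg0 : g ≠ 0 := fun h0 => not_isUnit_zero (h 0 fun J => by
    have := h1 J
    rw [h0, zero_dvd_iff, Polynomial.map_eq_zero_iff (IsFractionRing.injective R K)] at this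
    rw [this])
  obtain ⟨b, hb, h2⟩ := IsLocalization.integerNormalization_spec (nonZeroDivisors R) g
  set p := IsLocalization.integerNormalization (nonZeroDivisors R) g
  have hb0 : algebraMap R K b ≠ 0 := IsFractionRing.to_map_ne_zero_of_mem_nonZeroDivisors hb
  have h3 : C (algebraMap R K p.content) * p.primPart.map (algebraMap R K)
      = C (algebraMap R K b) * g := by
    rw [← map_C, ← Polynomial.map_mul, ← eq_C_content_mul_primPart, h2, Algebra.smul_def]
    rfl
  have h4 : p.primPart.map (algebraMap R K) ∣ g :=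
    (isUnit_C.2 (Ne.isUnit hb0)).dvd_mul_left.1 (Dvd.intro_left _ h3)
  have h5 : IsUnit p.primPart := h _ fun J =>
    (isPrimitive_primPart p).dvd_of_fraction_map_dvd_fraction_map (K := K) (h4.trans (h1 J))
  have h6 : IsUnit g :=
    (isUnit_or_eq_zero_of_isUnit_integerNormalization_primPart (K := K) hg0 h5)
  have h7 : (1 : K[X]) ∈ I := by
    rw [hg]
    exact Ideal.mem_span_singleton.2 h6.dvd
  obtain ⟨⟨x, y, c, hc, rfl⟩, h8⟩ := (IsLocalization.mem_map_algebraMap_iff
    ((nonZeroDivisors R).map (C : R →+* R[X])) K[X]).1 h7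
  obtain ⟨r, hr⟩ := (Submodule.mem_span_range_iff_exists_fun _).1 x.2
  refine ⟨r, c, nonZeroDivisors.ne_zero hc, hr.trans ?_⟩
  rw [one_mul] at h8
  exact (map_injective _ (IsFractionRing.injective R K) h8).symm

end UFx

open MvPolynomial

theorem uf : UF := by
  intro k _ σ A B _ _ x hx ⟨J0, f0, h0⟩
  let : NormalizedGCDMonoid (MvPolynomial σ k) := Nonempty.some inferInstance
  obtain ⟨α, hα, hg⟩ := Finset.extract_gcd (s := Finset.univ) (fun J => x J f0) ⟨J0, by simp⟩
  set d := Finset.univ.gcd fun J => x J f0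
  have h1 : d * α J0 ≠ 0 := hα J0 (by simp) ▸ h0
  have h2 : ∀ J f, x J f * α J0 = α J * x J0 f := fun J f =>
    mul_left_cancel₀ (left_ne_zero_of_mul h1) (by
      have := hx J J0 f f0
      rw [hα J0 (by simp), hα J (by simp)] at this
      linear_combination this)
  have h3 : ∀ f, α J0 ∣ x J0 f := fun f => by
    have h4 := Finset.gcd_mul_right' (s := Finset.univ) (f := α) (x J0 f)
    rw [hg, one_mul] at h4
    exact (Finset.dvd_gcd fun J _ => Dvd.intro_left _ (h2 J f)).trans h4.dvd
  choose β hβ using h3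
  refine ⟨α, β, fun J f => mul_right_cancel₀ (right_ne_zero_of_mul h1) (by
    rw [h2, hβ]; ring), fun e => ?_⟩
  let E := (Equiv.optionSubtypeNe e).symm
  let Ψ := (renameEquiv k E).trans (optionEquivLeft k {b // b ≠ e})
  obtain ⟨r, b, hb, h4⟩ := UFx.bez (fun J => Ψ (α J)) fun g hd => by
    have h5 : Ψ.symm g ∣ Finset.univ.gcd α := Finset.dvd_gcd fun J _ => by
      simpa using map_dvd Ψ.symm (hd J)
    exact Ψ.apply_symm_apply g ▸ (isUnit_of_dvd_one (hg ▸ h5)).map Ψ
  have h5 : Ψ (∑ J, Ψ.symm (r J) * α J) = Polynomial.C b := by simp [← h4]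
  refine ⟨fun J => Ψ.symm (r J), fun h6 => hb ?_, fun m hm => ?_⟩
  · rw [h6, map_zero] at h5
    exact Polynomial.C_eq_zero.1 h5.symm
  · have h6 := congrArg Polynomial.natDegree h5
    rw [Polynomial.natDegree_C] at h6
    change (optionEquivLeft k _ (rename E _)).natDegree = 0 at h6
    rw [natDegree_optionEquivLeft, show none = E e by simp [E],
      degreeOf_rename_of_injective E.injective] at h6
    exact Nat.le_zero.1 (degreeOf_le_iff.1 h6.le m hm)

end Pool.Agent.PD3A
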