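import Pool.Agent.Lib.MP_d98eb9_al.TA.B3
import Pool.Agent.Lib.MP_d98eb9_al.TA.CE
import Pool.Agent.Lib.MP_d98eb9_al.TA.CM
import Pool.Agent.Lib.MP_d98eb9_al.TA.DT
import Pool.Agent.Lib.MP_d98eb9_al.TA.FL
import Pool.Agent.Lib.MP_d98eb9_al.TA.FT
import Pool.Agent.Lib.MP_d98eb9_al.TA.GA
import Pool.Agent.Lib.MP_d98eb9_al.TA.HM
import Pool.Agent.Lib.MP_d98eb9_al.TA.L2
import Pool.Agent.Lib.MP_d98eb9_al.TA.LK
import Pool.Agent.Lib.MP_d98eb9_al.TA.MD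
import Pool.Agent.Lib.MP_d98eb9_al.TA.ON
import Pool.Agent.Lib.MP_d98eb9_al.TA.OV
import Pool.Agent.Lib.MP_d98eb9_al.TA.P1
import Pool.Agent.Lib.MP_d98eb9_al.TA.PR
import Pool.Agent.Lib.MP_d98eb9_al.TA.TB
import Pool.Agent.Lib.MP_d98eb9_al.TA.UF

/-! Theorem A. -/

namespace Pool.Agent.PD3A

theorem thmA : ThmA :=
  lk cm ce (dt FLp.fl ga (mda b3 dl on) (fta rf uf) (ova rf)) hm tb PRp.pr P1p.p1 l1 l2

end Pool.Agent.PD3A
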