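import Pool.Agent.Lib.MP_d98eb9_al.TA.St

/-! Distances do not change under field extension; the canonical distance. -/

namespace Pool.Agent.PD3A

open scoped NNReal Classical

namespace B3x

variable {L I : Type} [NormedField L]

lemma le_vnL (y : I →₀ L) (i : I) : ‖y i‖₊ ≤ vnL y := by
  by_cases h : i ∈ y.support
  · exact Finset.le_sup (f := fun i => ‖y i‖₊) h
  · simp [Finsupp.notMem_support_iff.1 h]

lemma vnL_le {y : I →₀ L} {c : ℝ≥0} (h : ∀ i, ‖y i‖₊ ≤ c) : vnL y ≤ c :=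
  Finset.sup_le fun i _ => h i

lemma vnL_smul (a : L) (y : I →₀ L) : vnL (a • y) = ‖a‖₊ * vnL y := by
  by_cases ha : a = 0
  · simp [ha, vnL]
  rw [vnL, vnL, NNReal.mul_finset_sup, Finsupp.support_smul_eq ha]
  simp

lemma fin [IsUltrametricDist L] (k : Subfield L) (n : ℕ) : ∀ (v : Fin n → I →₀ L) (y : I →₀ L),
    (∀ j i, v j i ∈ k) → (∀ i, y i ∈ k) → ∀ c : Fin n → L, ∃ c' : Fin n → k,
      vnL (y - ∑ j, (c' j : L) • v j) ≤ vnL (y - ∑ j, c j • v j) := by
  induction n with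
  | zero => exact fun v y _ _ c => ⟨0, by simp⟩
  | succ n ih =>
    intro v y hv hy c
    by_cases h0 : v 0 = 0
    · obtain ⟨c', h⟩ := ih (fun j => v j.succ) y (fun j => hv _) hy fun j => c j.succ
      exact ⟨Fin.cons 0 c', by simpa [Fin.sum_univ_succ, h0] using h⟩
    obtain ⟨i0, -, h1⟩ := Finset.exists_mem_eq_sup _ (Finsupp.support_nonempty_iff.2 h0)
      fun i => ‖v 0 i‖₊
    have h2 : ∀ i, ‖v 0 i‖₊ ≤ ‖v 0 i0‖₊ := fun i => (le_vnL _ i).trans_eq h1
    have h3 : v 0 i0 ≠ 0 := fun h => h0 (Finsupp.ext fun i => by simpa [h] using h2 i)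
    have h4 : ∀ z : I →₀ L, vnL (z - (z i0 / v 0 i0) • v 0) ≤ vnL z := fun z => vnL_le fun i => by
      rw [Finsupp.sub_apply, sub_eq_add_neg]
      refine (IsUltrametricDist.nnnorm_add_le_max _ _).trans (max_le (le_vnL z i) ?_)
      rw [nnnorm_neg, Finsupp.smul_apply, smul_eq_mul, nnnorm_mul, nnnorm_div, div_mul_eq_mul_div,
        div_le_iff₀ (nnnorm_pos.2 h3)]
      exact mul_le_mul' (le_vnL z i0) (h2 i)
    have h5 : ∀ z : I →₀ L, (∀ i, z i ∈ k) → ∀ i, (z - (z i0 / v 0 i0) • v 0) i ∈ k :=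
      fun z hz i => k.sub_mem (hz i) (k.mul_mem (k.div_mem (hz i0) (hv 0 i0)) (hv 0 i))
    obtain ⟨c', h⟩ := ih (fun j => v j.succ - (v j.succ i0 / v 0 i0) • v 0) _
      (fun j => h5 _ (hv _)) (h5 y hy) fun j => c j.succ
    refine ⟨Fin.cons ⟨y i0 / v 0 i0 - ∑ j, (c' j : L) * (v j.succ i0 / v 0 i0), k.sub_mem
      (k.div_mem (hy i0) (hv 0 i0)) (k.sum_mem fun j _ => k.mul_mem (c' j).2
        (k.div_mem (hv _ i0) (hv 0 i0)))⟩ c', le_trans (le_of_eq ?_) (h.trans (le_trans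
          (le_of_eq ?_) (h4 (y - ∑ j, c j • v j))))⟩
    · congr 1
      simp only [Fin.sum_univ_succ, Fin.cons_zero, Fin.cons_succ, smul_sub, sub_smul,
        Finset.sum_sub_distrib, smul_smul, Finset.sum_smul]
      abel
    · congr 1
      simp only [Fin.sum_univ_succ, smul_sub, Finset.sum_sub_distrib, smul_smul, Finsupp.sub_apply,
        Finsupp.add_apply, Finsupp.smul_apply, Finsupp.finsetSum_apply, smul_eq_mul, sub_div,
        add_div, Finset.sum_div, sub_smul, add_smul, Finset.sum_smul, mul_div_cancel_right₀ _ h3,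
        mul_div_assoc]
      abel

end B3x

open B3x

theorem b3 : B3 := by
  intro L _ _ k I S y hS hy z hz
  obtain ⟨n, c, v, rfl⟩ := Submodule.mem_span_set'.1 hz
  obtain ⟨c', h⟩ := fin k n (fun j => (v j).1) y (fun j => hS _ (v j).2) hy c
  exact ⟨_, Submodule.sum_mem _ fun j _ => Submodule.smul_mem _ (c' j)
    (Submodule.subset_span (v j).2), h⟩

theorem dl : DL := by
  intro E I K w S y
  have hn : ∀ p, ‖K.ev w p‖₊ = nrm w p := K.gauss w
  have inj : ∀ p, p ≠ 0 → K.ev w p ≠ 0 := fun p hp h0 => by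
    obtain ⟨m, hm⟩ := MvPolynomial.support_nonempty.2 hp
    have h1 : (2 : ℝ≥0) ^ wt w m ≤ nrm w p := Finset.le_sup (f := fun m => (2 : ℝ≥0) ^ wt w m) hm
    rw [← hn, h0, nnnorm_zero, nonpos_iff_eq_zero] at h1
    exact zpow_ne_zero _ two_ne_zero h1
  let T : (I →₀ P E) →+ (I →₀ K.L) := Finsupp.mapRange.addMonoidHom (K.ev w).toAddMonoidHom
  have hT : ∀ v i, T v i = K.ev w (v i) := fun v i => rfl
  have hs : ∀ (q : P E) v, T (q • v) = K.ev w q • T v := fun q v => by
    ext i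
    simp [hT]
  have hv : ∀ v, vn w v = vnL (T v) := fun v => by
    refine le_antisymm (Finset.sup_le fun i _ => (hn _).symm.trans_le (le_vnL (T v) i))
      (vnL_le fun i => ?_)
    rw [hT, hn]
    by_cases h : i ∈ v.support
    · exact Finset.le_sup (f := fun i => nrm w (v i)) h
    · simp [Finsupp.notMem_support_iff.1 h, nrm]
  have key : ∀ (q : P E) z, q ≠ 0 → vn w (q • y - z) / nrm w q
      = vnL (T y - (K.ev w q)⁻¹ • T z) := fun q z hq => by
    have h1 := inj q hq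
    rw [hv, ← hn, div_eq_iff (nnnorm_ne_zero_iff.2 h1), mul_comm, ← vnL_smul, map_sub, hs,
      smul_sub, smul_inv_smul₀ h1]
  change _ = delL (Submodule.span K.L (T '' S)) (T y)
  have : Nonempty {q : P E // q ≠ 0} := ⟨⟨1, one_ne_zero⟩⟩
  apply le_antisymm
  · refine le_ciInf fun z => ?_
    have hk : ∀ p, K.ev w p ∈ Subfield.closure ((K.ev w).range : Set K.L) := fun p =>
      Subfield.subset_closure ⟨p, rfl⟩
    obtain ⟨z', h1, h2⟩ := b3 K.L (Subfield.closure ((K.ev w).range : Set K.L)) I (T '' S) (T y)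
      (by rintro _ ⟨v, -, rfl⟩ i; exact hk _) (fun i => hk _) z z.2
    obtain ⟨q, hq, z0, hz0, rfl⟩ : ∃ q : P E, q ≠ 0 ∧ ∃ z0 ∈ Submodule.span (P E) S,
        z' = (K.ev w q)⁻¹ • T z0 := by
      clear h2
      induction h1 using Submodule.span_induction with
      | mem v h =>
        obtain ⟨v, h, rfl⟩ := h
        exact ⟨1, one_ne_zero, v, Submodule.subset_span h, by simp⟩
      | zero => exact ⟨1, one_ne_zero, 0, zero_mem _, by simp⟩
      | add a b _ _ ha hb =>
        obtain ⟨q, hq, z, hz, rfl⟩ := ha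
        obtain ⟨q', hq', z', hz', rfl⟩ := hb
        refine ⟨q * q', mul_ne_zero hq hq', q' • z + q • z', add_mem (Submodule.smul_mem _ _ hz)
          (Submodule.smul_mem _ _ hz'), ?_⟩
        have := inj q hq
        have := inj q' hq'
        rw [map_add, hs, hs, smul_add, smul_smul, smul_smul, map_mul]
        congr 2 <;> field_simp
      | smul c a _ ha =>
        obtain ⟨q, hq, z, hz, rfl⟩ := ha
        obtain ⟨c, hc⟩ := c
        obtain ⟨_, ha, _, hb, rfl⟩ := Subfield.mem_closure_iff.1 hc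
        rw [Subring.closure_eq] at ha hb
        obtain ⟨a, rfl⟩ := ha
        obtain ⟨b, rfl⟩ := hb
        change ∃ q' : P E, q' ≠ 0 ∧ ∃ z0 ∈ _, (K.ev w a / K.ev w b) • ((K.ev w q)⁻¹ • T z) = _
        by_cases hb : b = 0
        · exact ⟨1, one_ne_zero, 0, zero_mem _, by simp [hb]⟩
        refine ⟨b * q, mul_ne_zero hb hq, a • z, Submodule.smul_mem _ _ hz, ?_⟩
        rw [hs, smul_smul, smul_smul, map_mul]
        congr 1
        ring
    exact (ciInf_le (OrderBot.bddBelow _) (⟨⟨q, hq⟩, ⟨z0, hz0⟩⟩ : {q : P E // q ≠ 0} ×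
      Submodule.span (P E) S)).trans ((key q z0 hq).trans_le h2)
  · refine le_ciInf fun ⟨q, z⟩ => ?_
    rw [key _ _ q.2]
    refine ciInf_le (OrderBot.bddBelow _) (⟨_, Submodule.smul_mem _ _ ?_⟩ :
      Submodule.span K.L (T '' S))
    obtain ⟨z, hz⟩ := z
    induction hz using Submodule.span_induction with
    | mem v h => exact Submodule.subset_span ⟨v, h, rfl⟩
    | zero => simp
    | add a b _ _ ha hb => simpa using add_mem ha hb
    | smul q a _ ha => exact hs q a ▸ Submodule.smul_mem _ _ ha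

end Pool.Agent.PD3A
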