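import Pool.Agent.Lib.MP_d98eb9_al.TA.St

/-! Block L1: the rows are banded, homogeneous and invariant. -/

namespace Pool.Agent.PD3A

open scoped NNReal Classical

namespace L1a

variable {G Q X : Type} [Group G] [Group Q]

lemma row_apply (ψ : G →* Q) (a : G →₀ ℚ) (D : G → (Q × X →₀ ℕ)) (g i : Q) :
    row ψ a D g i = ∑ q ∈ a.support, if g * ψ q = i then
      MvPolynomial.monomial ((D q).mapDomain fun p => some (g * p.1, p.2)) (a q) else 0 := by
  simp only [row, Finsupp.sum, Finsupp.finsetSum_apply, Finsupp.single_apply]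

lemma supp_row {ψ : G →* Q} {a : G →₀ ℚ} {D : G → (Q × X →₀ ℕ)} {g i : Q}
    {m : Option (Q × X) →₀ ℕ} (h : m ∈ (row ψ a D g i).support) :
    ∃ q ∈ a.support, g * ψ q = i ∧ m = (D q).mapDomain fun p => some (g * p.1, p.2) := by
  rw [row_apply] at h
  obtain ⟨q, hq, h⟩ := Finset.mem_biUnion.1 (MvPolynomial.support_sum h)
  split_ifs at h with h1
  · exact ⟨q, hq, h1, Finset.mem_singleton.1 (MvPolynomial.support_monomial_subset h)⟩
  · simp at h

lemma inj (g : Q) : Function.Injective fun p : Q × X => some (g * p.1, p.2) := by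
  rintro ⟨a, x⟩ ⟨b, y⟩ h
  simpa using h

lemma map_apply {M : Type} [AddCommMonoid M] (g : Q) (v : Q × X →₀ M) (c : Q) (x : X) :
    (v.mapDomain fun p => some (g * p.1, p.2)) (some (c, x)) = v (g⁻¹ * c, x) := by
  rw [← Finsupp.mapDomain_apply (inj g) v (g⁻¹ * c, x)]
  simp

lemma bd_apply {n : ℕ} (s : Fin n → Q) (v : Q × Fin n →₀ ℤ) (c : Q) :
    (v.sum fun p k => Finsupp.single (p.1 * s p.2) k - Finsupp.single p.1 k) c
      = ∑ x, (v (c * (s x)⁻¹, x) - v (c, x)) := by
  induction v using Finsupp.induction_linear with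
  | zero => simp
  | add f g hf hg =>
    rw [Finsupp.sum_add_index' (by simp) (by intros; simp only [Finsupp.single_add]; abel),
      Finsupp.add_apply, hf, hg, ← Finset.sum_add_distrib]
    refine Finset.sum_congr rfl fun x _ => ?_
    simp only [Finsupp.add_apply]
    ring
  | single p k =>
    obtain ⟨b, y⟩ := p
    rw [Finsupp.sum_single_index (by simp), Finset.sum_eq_single y (fun x _ hx => by
      simp [hx.symm]) (by simp)]
    simp [Finsupp.single_apply, eq_mul_inv_iff_mul_eq]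

lemma ren_row (ψ : G →* Q) (a : G →₀ ℚ) (D : G → (Q × X →₀ ℕ)) (g g' : Q) :
    ren (Equiv.prodCongr (Equiv.mulLeft g) (Equiv.refl X)) (Equiv.mulLeft g) (row ψ a D g')
      = row ψ a D (g * g') := by
  refine Finsupp.ext fun i => ?_
  rw [ren, Finsupp.equivMapDomain_apply, Finsupp.mapRange_apply, row_apply, row_apply, map_sum]
  refine Finset.sum_congr rfl fun q _ => ?_
  have h : g' * ψ q = (Equiv.mulLeft g).symm i ↔ g * g' * ψ q = i := by
    simp [eq_inv_mul_iff_mul_eq, mul_assoc]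
  rw [apply_ite (MvPolynomial.rename _), map_zero, MvPolynomial.rename_monomial,
    ← Finsupp.mapDomain_comp]
  refine if_congr h ?_ rfl
  simp [Function.comp_def, mul_assoc]

end L1a

open L1a in
theorem l1 : L1 := by
  intro G Q _ _ n s ψ d a D m0 hb hD
  refine ⟨fun e => ?_, ?_, ?_, fun g => ?_⟩
  · refine ((a.support.biUnion fun q => (D q).support.image fun p => e.1 * p.1⁻¹).finite_toSet.image
      (row ψ a D)).subset ?_
    rintro _ ⟨⟨g, rfl⟩, h⟩
    have h1 : ¬ ∀ i, ∀ m ∈ (row ψ a D g i).support, m (some e) = 0 := fun h1 => h ⟨⟨g, rfl⟩, h1⟩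
    push Not at h1
    obtain ⟨i, m, hm, h1⟩ := h1
    obtain ⟨q, hq, -, rfl⟩ := supp_row hm
    refine ⟨g, Finset.mem_coe.2 (Finset.mem_biUnion.2 ⟨q, hq, Finset.mem_image.2
      ⟨(g⁻¹ * e.1, e.2), Finsupp.mem_support_iff.2 ?_, by simp⟩⟩), rfl⟩
    rwa [← map_apply g]
  · refine ((a.support.image fun q => (ψ q)⁻¹).finite_toSet.image (row ψ a D)).subset ?_
    rintro _ ⟨⟨g, rfl⟩, h⟩
    obtain ⟨m, hm⟩ := MvPolynomial.support_nonempty.2 h
    obtain ⟨q, hq, h1, -⟩ := supp_row hm
    exact ⟨g, Finset.mem_coe.2 (Finset.mem_image.2 ⟨q, hq, (eq_inv_of_mul_eq_one_left h1).symm⟩),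
      rfl⟩
  · rintro _ ⟨g, rfl⟩
    refine ⟨∑ x, (m0 (g⁻¹ * (s x)⁻¹, x) - m0 (g⁻¹, x)) - Finsupp.single (1 : Q) (1 : ℤ) g⁻¹,
      fun i m hm => ?_⟩
    obtain ⟨q, hq, rfl, rfl⟩ := supp_row hm
    have h1 := bd_apply s (d q) g⁻¹
    rw [hb, Finsupp.sub_apply] at h1
    have h2 : Finsupp.single (ψ q) (1 : ℤ) g⁻¹ = if g * ψ q = 1 then 1 else 0 := by
      rw [Finsupp.single_apply]
      exact if_congr (by rw [mul_eq_one_iff_inv_eq, eq_comm]) rfl rfl
    rw [← Finsupp.sum_finsetSum_index (by simp) (by intros; ring), ← h2, sub_add_comm, h1,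
      ← Finset.sum_add_distrib]
    refine Finset.sum_congr rfl fun x _ => ?_
    rw [Finsupp.sum_sub_index (by intros; ring), Finsupp.sum_single_index (by simp),
      Finsupp.sum_single_index (by simp), map_apply, map_apply, hD q hq, hD q hq, mul_one]
    ring
  · rw [← Set.range_comp, Function.comp_def]
    simp only [ren_row]
    exact (Equiv.mulLeft g).surjective.range_comp (row ψ a D)

end Pool.Agent.PD3A
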