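import Pool.Agent.Lib.MP_d98eb9_al.TA.St

/-! Block MDa: the finite model of a slice. -/

namespace Pool.Agent.PD3A

open scoped NNReal Classical

namespace MDp

section Val

variable {L : Type} [NormedField L] {I : Type}

theorem le_vnL (y : I →₀ L) (i : I) : ‖y i‖₊ ≤ vnL y := by
  by_cases h : i ∈ y.support
  · exact Finset.le_sup (f := fun i => ‖y i‖₊) h
  · rw [Finsupp.notMem_support_iff.1 h]; simp

theorem vnL_le {y : I →₀ L} {r : ℝ≥0} (h : ∀ i, ‖y i‖₊ ≤ r) : vnL y ≤ r :=
  Finset.sup_le fun i _ => h i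

theorem vnL_add [IsUltrametricDist L] (a c : I →₀ L) : vnL (a + c) ≤ max (vnL a) (vnL c) :=
  vnL_le fun i => (IsUltrametricDist.nnnorm_add_le_max (a i) (c i)).trans
    (max_le_max (le_vnL a i) (le_vnL c i))

theorem vnL_smul_le (z : L) (a : I →₀ L) : vnL (z • a) ≤ ‖z‖₊ * vnL a :=
  vnL_le fun i => by
    rw [Finsupp.smul_apply, smul_eq_mul, nnnorm_mul]
    exact mul_le_mul_right (le_vnL a i) _

theorem vnL_val (a : I →₀ L) (h : vnL a ≠ 0) : ∃ i, a i ≠ 0 ∧ vnL a = ‖a i‖₊ := by
  rcases a.support.eq_empty_or_nonempty with h0 | h0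
  · exact absurd (by rw [vnL, h0]; rfl) h
  · obtain ⟨i, hi, e⟩ := Finset.exists_mem_eq_sup _ h0 fun i => ‖a i‖₊
    exact ⟨i, Finsupp.mem_support_iff.1 hi, e⟩

variable (S : Submodule L (I →₀ L))

theorem delL_le (y : I →₀ L) {z : I →₀ L} (hz : z ∈ S) : delL S y ≤ vnL (y - z) :=
  ciInf_le (f := fun z : S => vnL (y - z.1)) (OrderBot.bddBelow _) ⟨z, hz⟩

theorem le_delL {y : I →₀ L} {r : ℝ≥0} (h : ∀ z ∈ S, r ≤ vnL (y - z)) : r ≤ delL S y :=
  le_ciInf fun z : S => h z.1 z.2

theorem delL_lt {y : I →₀ L} {r : ℝ≥0} (h : delL S y < r) : ∃ z ∈ S, vnL (y - z) < r := by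
  by_contra hn
  push Not at hn
  exact absurd (le_delL S hn) (not_le.2 h)

theorem delL_mem {y : I →₀ L} (h : y ∈ S) : delL S y = 0 := by
  have := delL_le S y h
  rw [sub_self] at this
  exact le_antisymm (this.trans (vnL_le fun i => by simp)) zero_le

theorem delL_add [IsUltrametricDist L] (a c : I →₀ L) :
    delL S (a + c) ≤ max (delL S a) (delL S c) := by
  by_contra hn
  rw [not_le, max_lt_iff] at hn
  obtain ⟨z1, h1, e1⟩ := delL_lt S hn.1
  obtain ⟨z2, h2, e2⟩ := delL_lt S hn.2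
  have h3 := delL_le S (a + c) (S.add_mem h1 h2)
  rw [show a + c - (z1 + z2) = (a - z1) + (c - z2) by abel] at h3
  exact absurd (h3.trans (vnL_add _ _)) (not_le.2 (max_lt e1 e2))

theorem delL_smul_le (z : L) (a : I →₀ L) : delL S (z • a) ≤ ‖z‖₊ * delL S a := by
  have e : ‖z‖₊ * delL S a = ⨅ s : S, ‖z‖₊ * vnL (a - s.1) := NNReal.mul_iInf _ _
  rw [e]
  refine le_ciInf fun s => (delL_le S _ (S.smul_mem z s.2)).trans ?_
  rw [← smul_sub]
  exact vnL_smul_le _ _

theorem delL_smul (z : L) (a : I →₀ L) : delL S (z • a) = ‖z‖₊ * delL S a := by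
  refine le_antisymm (delL_smul_le S z a) ?_
  by_cases hz : z = 0
  · simp [hz]
  · have h := delL_smul_le S z⁻¹ (z • a)
    rw [inv_smul_smul₀ hz] at h
    calc ‖z‖₊ * delL S a ≤ ‖z‖₊ * (‖z⁻¹‖₊ * delL S (z • a)) := mul_le_mul_right h _
      _ = delL S (z • a) := by rw [← mul_assoc, ← nnnorm_mul, mul_inv_cancel₀ hz]; simp

theorem delL_disc (hd : ∀ z : L, z ≠ 0 → ∃ n : ℤ, ‖z‖₊ = 2 ^ n) (a : I →₀ L)
    (h : delL S a ≠ 0) : ∃ n : ℤ, delL S a = 2 ^ n := by
  have hv : ∀ z ∈ S, ∃ n : ℤ, vnL (a - z) = 2 ^ n := fun z hz => by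
    obtain ⟨i, hi, e⟩ := vnL_val (a - z) fun h0 =>
      h (le_antisymm (h0 ▸ delL_le S a hz) zero_le)
    obtain ⟨n, hn⟩ := hd _ hi
    exact ⟨n, e.trans hn⟩
  have hp : 0 < delL S a := pos_iff_ne_zero.2 h
  obtain ⟨z, hz, e⟩ := delL_lt S (r := 2 * delL S a) (lt_two_mul_self hp)
  obtain ⟨n, hn⟩ := hv z hz
  refine ⟨n, le_antisymm (hn ▸ delL_le S a hz) (le_delL S fun z' hz' => ?_)⟩
  obtain ⟨m, hm⟩ := hv z' hz'
  have h1 : delL S a ≤ 2 ^ m := hm ▸ delL_le S a hz'
  have h2 : (2 : ℝ≥0) ^ n < 2 ^ (m + 1) := by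
    rw [zpow_add_one₀ two_ne_zero, mul_comm]
    exact (hn ▸ e).trans_le (mul_le_mul_right h1 _)
  rw [zpow_lt_zpow_iff_right₀ one_lt_two] at h2
  rw [hm]
  exact zpow_le_zpow_right₀ one_le_two (by omega)

theorem delL_sum [IsUltrametricDist L] {J : Type} (s : Finset J) (f : J → I →₀ L) {r : ℝ≥0}
    (h : ∀ j ∈ s, delL S (f j) ≤ r) : delL S (∑ j ∈ s, f j) ≤ r := by
  induction s using Finset.induction_on with
  | empty => rw [Finset.sum_empty, delL_mem S S.zero_mem]; exact zero_le
  | insert a s ha ih =>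
    rw [Finset.sum_insert ha]
    exact (delL_add S _ _).trans (max_le (h a (Finset.mem_insert_self _ _))
      (ih fun j hj => h j (Finset.mem_insert_of_mem hj)))

theorem delL_null [IsUltrametricDist L] {z : I →₀ L} (hz : delL S z = 0) (a : I →₀ L) :
    delL S (z + a) = delL S a := by
  refine le_antisymm (by simpa [hz] using delL_add S z a) ?_
  have h := delL_add S ((-1 : L) • z) (z + a)
  rw [delL_smul, hz, mul_zero, neg_one_smul, neg_add_cancel_left] at h
  simpa using h

/-- orthonormal over the subfield implies orthonormal over the field -/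
theorem orth [IsUltrametricDist L] (hB : B3) (k : Subfield L) (G : Set (I →₀ L)) (l : I) {n : ℕ}
    (b : Fin n → I →₀ L) (hG : ∀ v ∈ G, ∀ i, v i ∈ k) (hGl : ∀ v ∈ G, v l = 0)
    (hb : ∀ j i, b j i ∈ k) (hbl : ∀ j, b j l = 0)
    (ho : ∀ κ : Fin n → k, delL (Submodule.span L G) (∑ j, (κ j : L) • b j) =
      Finset.univ.sup fun j => ‖(κ j : L)‖₊) (c : Option (Fin n) → L) :
    delL (Submodule.span L G) (c none • Finsupp.single l 1 + ∑ j, c (some j) • b j) = ‖c‖₊ := by
  have hSl : ∀ s ∈ Submodule.span L G, s l = 0 := fun s hs =>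
    (Submodule.span_le (p := LinearMap.ker (Finsupp.lapply l))).2 hGl hs
  refine le_antisymm ((delL_add _ _ _).trans (max_le ?_ (delL_sum _ _ _ fun j _ => ?_))) ?_
  · rw [delL_smul]
    refine (mul_le_of_le_one_right zero_le ?_).trans (nnnorm_le_pi_nnnorm c none)
    refine (delL_le _ _ (Submodule.zero_mem _)).trans (vnL_le fun i => ?_)
    rw [sub_zero, Finsupp.single_apply]
    split_ifs <;> simp
  · rw [delL_smul]
    refine (mul_le_of_le_one_right zero_le ?_).trans (nnnorm_le_pi_nnnorm c (some j))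
    have h := ho (Pi.single j 1)
    rw [Finset.sum_eq_single j (fun i _ hi => by simp [Pi.single_eq_of_ne hi]) (by simp)] at h
    simp only [Pi.single_eq_same, OneMemClass.coe_one, one_smul] at h
    rw [h]
    refine Finset.sup_le fun i _ => ?_
    rw [Pi.single_apply]
    split_ifs <;> simp
  · refine pi_nnnorm_le_iff.2 fun j => le_delL _ fun s hs => ?_
    rcases j with _ | j
    · refine le_trans (le_of_eq ?_) (le_vnL _ l)
      simp [hbl, hSl s hs]
    · refine le_trans ?_ (vnL_le (y := ∑ j, c (some j) • b j - s) fun i => ?_)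
      swap
      · by_cases hi : i = l
        · simp [hi, hbl, hSl s hs]
        · refine le_trans (le_of_eq ?_) (le_vnL _ i)
          simp [Finsupp.single_eq_of_ne hi]
      refine le_trans ?_ (delL_le _ _ hs)
      by_cases hc : c (some j) = 0
      · simp [hc]
      have e : ∑ j, c (some j) • b j =
          c (some j) • (b j - ∑ i ∈ Finset.univ.erase j, (-(c (some i) / c (some j))) • b i) := by
        rw [← Finset.add_sum_erase _ _ (Finset.mem_univ j), smul_sub, Finset.smul_sum,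
          sub_eq_add_neg, ← Finset.sum_neg_distrib]
        refine congrArg _ (Finset.sum_congr rfl fun i _ => ?_)
        rw [smul_smul, ← neg_smul]
        congr 1
        field_simp
      rw [e, delL_smul]
      refine le_mul_of_one_le_right zero_le (le_delL _ fun s hs => ?_)
      obtain ⟨z', hz', hle⟩ := hB L k I (G ∪ b '' {i | i ≠ j}) (b j)
        (by
          rintro v (hv | ⟨i, -, rfl⟩)
          · exact hG v hv
          · exact hb i) (hb j)
        (∑ i ∈ Finset.univ.erase j, (-(c (some i) / c (some j))) • b i + s)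
        (Submodule.add_mem _ (Submodule.sum_mem _ fun i hi => Submodule.smul_mem _ _
          (Submodule.subset_span (Or.inr ⟨i, Finset.ne_of_mem_erase hi, rfl⟩)))
          (Submodule.span_mono Set.subset_union_left hs))
      rw [← sub_sub] at hle
      refine le_trans ?_ hle
      have key : ∃ κ : Fin n → k, κ j = 0 ∧
          z' - ∑ i, (κ i : L) • b i ∈ Submodule.span L G := by
        clear hle
        induction hz' using Submodule.span_induction with
        | mem v hv =>
          rcases hv with hv | ⟨i, hi, rfl⟩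
          · exact ⟨0, rfl, by simpa using Submodule.subset_span hv⟩
          · refine ⟨Pi.single i 1, Pi.single_eq_of_ne' hi _, ?_⟩
            rw [Finset.sum_eq_single i (fun i' _ hi' => by simp [Pi.single_eq_of_ne hi'])
              (by simp)]
            simp
        | zero => exact ⟨0, rfl, by simp⟩
        | add u v _ _ hu hv =>
          obtain ⟨κ, h1, h2⟩ := hu
          obtain ⟨κ', h3, h4⟩ := hv
          refine ⟨κ + κ', by simp [h1, h3], ?_⟩
          convert Submodule.add_mem _ h2 h4 using 1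
          simp only [Pi.add_apply, AddMemClass.coe_add, add_smul, Finset.sum_add_distrib]
          abel
        | smul a u _ hu =>
          obtain ⟨κ, h1, h2⟩ := hu
          refine ⟨a • κ, by simp [h1], ?_⟩
          convert Submodule.smul_mem _ (a : L) h2 using 1
          simp only [Pi.smul_apply, smul_eq_mul, MulMemClass.coe_mul, mul_smul, smul_sub,
            Finset.smul_sum]
          rfl
      obtain ⟨κ, h1, h2⟩ := key
      have h3 := delL_le _ (∑ i, ((Pi.single j 1 - κ : Fin n → k) i : L) • b i) h2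
      have e2 : ∑ i, ((Pi.single j 1 - κ : Fin n → k) i : L) • b i -
          (z' - ∑ i, (κ i : L) • b i) = b j - z' := by
        simp only [Pi.sub_apply, AddSubgroupClass.coe_sub, sub_smul, Finset.sum_sub_distrib]
        rw [Finset.sum_eq_single j (fun i _ hi => by simp [Pi.single_eq_of_ne hi]) (by simp)]
        simp
      rw [e2, ho] at h3
      refine le_trans (le_trans (le_of_eq ?_) (Finset.le_sup (Finset.mem_univ j))) h3
      simp [h1]

end Val

section Split

variable {E : Type} (K : Fld E) (E1 : Finset E) (w0 : E → ℤ)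

theorem tau_mem (D : Set E) : K.τ ∈ K.k D :=
  Subfield.le_topologicalClosure _ (Subfield.subset_closure (Set.mem_insert _ _))

theorem x_mem {D : Set E} {e : E} (h : e ∈ D) : K.x e ∈ K.k D :=
  Subfield.le_topologicalClosure _ (Subfield.subset_closure (Set.mem_insert_of_mem _ ⟨e, h, rfl⟩))

theorem tau_norm : ‖K.τ‖₊ = 2⁻¹ := by
  have h := K.gauss 0 (MvPolynomial.X none)
  rw [MvPolynomial.aeval_X, nrm, MvPolynomial.support_X, Finset.sup_singleton, wt,
    Finsupp.sum_single_index (by simp)] at h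
  simpa using h

/-- the image of a variable -/
noncomputable def sv (o : Option E) : MvPolynomial E1 (K.k (E1 : Set E)ᶜ) :=
  o.elim (MvPolynomial.C ⟨K.τ, tau_mem K _⟩) fun e =>
    if h : e ∈ E1 then MvPolynomial.X ⟨e, h⟩ else
      MvPolynomial.C ⟨K.x e * K.τ ^ (-w0 e), mul_mem (x_mem K h) (zpow_mem (tau_mem K _) _)⟩

/-- splitting off the variables of `E1` -/
noncomputable def spl : P E →+* MvPolynomial E1 (K.k (E1 : Set E)ᶜ) :=
  MvPolynomial.eval₂Hom (MvPolynomial.C.comp (Rat.castHom _)) (sv K E1 w0)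

theorem evs_spl {w : E → ℤ} (hw : ∀ e, e ∉ E1 → w e = w0 e) (p : P E) :
    evs _ K.τ (fun e : E1 => K.x e) (fun e => w e) (spl K E1 w0 p) = K.ev w p := by
  have : (evs _ K.τ (fun e : E1 => K.x e) (fun e => w e)).comp (spl K E1 w0) = K.ev w := by
    refine MvPolynomial.ringHom_ext' (RingHom.ext_rat _ _) fun o => ?_
    rcases o with _ | e
    · simp [spl, sv, evs, Fld.ev]
    · by_cases h : e ∈ E1
      · simp [spl, sv, evs, Fld.ev, h]
      · simp [spl, sv, evs, Fld.ev, h, hw e h]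
  exact RingHom.congr_fun this p

theorem spl_mono (m : Option E →₀ ℕ) : ∃ (a : E1 →₀ ℕ) (c : K.k (E1 : Set E)ᶜ),
    (∀ e : E1, a e = m (some e)) ∧
      spl K E1 w0 (MvPolynomial.monomial m 1) = MvPolynomial.monomial a c := by
  induction m using Finsupp.induction_linear with
  | zero => exact ⟨0, 1, fun _ => rfl, by simp⟩
  | add m m' h h' =>
    obtain ⟨a, c, h1, h2⟩ := h
    obtain ⟨a', c', h3, h4⟩ := h'
    refine ⟨a + a', c * c', fun e => by simp [h1, h3], ?_⟩
    rw [← MvPolynomial.monomial_mul, ← h2, ← h4, ← map_mul, MvPolynomial.monomial_mul, one_mul]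
  | single o n =>
    rw [← MvPolynomial.X_pow_eq_monomial, map_pow, spl, MvPolynomial.eval₂Hom_X']
    rcases o with _ | e
    · exact ⟨0, _, fun e => by simp, by rw [sv, Option.elim_none, ← map_pow]; rfl⟩
    · by_cases h : e ∈ E1
      · refine ⟨Finsupp.single ⟨e, h⟩ n, 1, fun e' => ?_, ?_⟩
        · simp [Finsupp.single_apply, Subtype.ext_iff]
        · rw [sv, Option.elim_some, dif_pos h, MvPolynomial.X_pow_eq_monomial]
      · refine ⟨0, _, fun e' => ?_, by rw [sv, Option.elim_some, dif_neg h, ← map_pow]; rfl⟩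
        rw [Finsupp.single_eq_of_ne]
        · rfl
        · rintro ⟨rfl⟩
          exact h e'.2

theorem spl_supp (p : P E) {a : E1 →₀ ℕ} (ha : a ∈ (spl K E1 w0 p).support) :
    ∃ m ∈ p.support, ∀ e : E1, a e = m (some e) := by
  rw [MvPolynomial.mem_support_iff, p.as_sum, map_sum, MvPolynomial.coeff_sum] at ha
  obtain ⟨m, hm, h⟩ := Finset.exists_ne_zero_of_sum_ne_zero ha
  obtain ⟨a', c, h1, h2⟩ := spl_mono K E1 w0 m
  rw [← mul_one (MvPolynomial.coeff m p), ← MvPolynomial.C_mul_monomial, map_mul, h2, spl,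
    MvPolynomial.eval₂Hom_C, RingHom.comp_apply, MvPolynomial.C_mul_monomial,
    MvPolynomial.coeff_monomial] at h
  have : a' = a := by
    by_contra hn
    exact h (if_neg hn)
  exact ⟨m, hm, this ▸ h1⟩

theorem ev_free (p : P E) (hp : ∀ e ∈ E1, ∀ m ∈ p.support, m (some e) = 0) :
    ∃ c ∈ K.k (E1 : Set E)ᶜ, ∀ w : E → ℤ, (∀ e, e ∉ E1 → w e = w0 e) → K.ev w p = c := by
  have h : spl K E1 w0 p = MvPolynomial.C (MvPolynomial.coeff 0 (spl K E1 w0 p)) := by
    ext a
    rw [MvPolynomial.coeff_C]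
    split_ifs with h0
    · rw [h0]
    · by_contra hn
      obtain ⟨m, hm, h⟩ := spl_supp K E1 w0 p (a := a)
        (MvPolynomial.mem_support_iff.2 fun h1 => hn (by rw [h1]))
      exact h0 (Finsupp.ext fun e => ((h e).trans (hp e e.2 m hm)).symm)
  refine ⟨_, (MvPolynomial.coeff 0 (spl K E1 w0 p)).2, fun w hw => ?_⟩
  rw [← evs_spl K E1 w0 hw, h]
  simp [evs]

/-- evaluation of vectors -/
noncomputable def evv (I : Type) (w : E → ℤ) : (I →₀ P E) →ₛₗ[K.ev w] (I →₀ K.L) where
  toFun v := v.mapRange (K.ev w) (map_zero _)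
  map_add' a b := by ext i; simp
  map_smul' c a := by ext i; simp

theorem evv_apply {I : Type} (w : E → ℤ) (v : I →₀ P E) (i : I) :
    evv K I w v i = K.ev w (v i) := rfl

end Split

theorem dst_eq {L : Type} [NormedField L] [IsUltrametricDist L] {I C : Type} [Fintype C]
    (S0 W : Submodule L (I →₀ L)) (lam : (I →₀ L) →ₗ[L] (C → L))
    (hW : ∀ v ∈ W, delL S0 v = ‖lam v‖₊) (T : Set (I →₀ L)) (h0 : S0 ≤ Submodule.span L T)
    (hT : Submodule.span L T ≤ W) {y : I →₀ L} (hy : y ∈ W) :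
    delL (Submodule.span L T) y = dst (lam '' T) (lam y) := by
  rw [dst, ← Submodule.map_span]
  refine le_antisymm ?_ (le_delL _ fun z hz => ?_)
  · rw [← NNReal.coe_le_coe, Metric.coe_infNndist,
      Metric.le_infDist ⟨0, Submodule.zero_mem _⟩]
    rintro _ ⟨z, hz, rfl⟩
    rw [dist_eq_norm, ← map_sub, ← coe_nnnorm, NNReal.coe_le_coe, ← hW _ (W.sub_mem hy (hT hz))]
    refine le_delL _ fun s hs => ?_
    rw [sub_sub]
    exact delL_le _ _ (Submodule.add_mem _ hz (h0 hs))
  · refine le_trans ?_ (sub_zero (y - z) ▸ delL_le S0 (y - z) S0.zero_mem)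
    rw [hW _ (W.sub_mem hy (hT hz)), ← NNReal.coe_le_coe, Metric.coe_infNndist, coe_nnnorm,
      map_sub, ← dist_eq_norm]
    exact Metric.infDist_le_dist_of_mem ⟨z, hz, rfl⟩

end MDp

open MDp in
theorem mda : MDa := by
  intro hB hD hO E I K R l E1 w0 Φ hΦ hR
  set k := K.k (E1 : Set E)ᶜ with hk
  set G : Set (I →₀ K.L) := evv K I w0 '' (R \ Φ) with hG
  have hfree : ∀ ρ ∈ R \ (Φ : Set _), ∀ i, ∃ c ∈ k, ∀ w : E → ℤ, (∀ e, e ∉ E1 → w e = w0 e) →
      K.ev w (ρ i) = c := fun ρ hρ i =>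
    ev_free K E1 w0 _ fun e he => ((hR ρ hρ.1 hρ.2).2 e he).2 i
  have hGk : ∀ v ∈ G, ∀ i, v i ∈ k := by
    rintro _ ⟨ρ, hρ, rfl⟩ i
    obtain ⟨c, hc, h⟩ := hfree ρ hρ i
    rw [evv_apply, h w0 fun _ _ => rfl]
    exact hc
  have hGl : ∀ v ∈ G, v l = 0 := by
    rintro _ ⟨ρ, hρ, rfl⟩
    rw [evv_apply, (hR ρ hρ.1 hρ.2).1, map_zero]
  have hGw : ∀ w : E → ℤ, (∀ e, e ∉ E1 → w e = w0 e) → ∀ ρ ∈ R \ (Φ : Set _),
      evv K I w ρ ∈ Submodule.span K.L G := fun w hw ρ hρ => by
    refine Submodule.subset_span ⟨ρ, hρ, Finsupp.ext fun i => ?_⟩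
    obtain ⟨c, -, h⟩ := hfree ρ hρ i
    rw [evv_apply, evv_apply, h w hw, h w0 fun _ _ => rfl]
  set S0 := Submodule.span K.L G with hS0
  set I0 : Finset I := (Φ.biUnion fun g => g.support).erase l with hI0
  obtain ⟨n, b, hb1, hb2, hb3⟩ := hO K.L k K.τ (I →₀ K.L) (delL S0) I0
    (fun i => Finsupp.single i.1 1) (Subfield.isClosed_topologicalClosure _) (tau_mem K _)
    (tau_norm K) (delL_add S0) (delL_smul S0) (delL_disc S0 K.disc)
  choose κ hκ using hb3
  have hbk : ∀ j, (∀ i, b j i ∈ k) ∧ b j l = 0 := fun j => by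
    have := hb1 j
    generalize b j = v at this ⊢
    induction this using Submodule.span_induction with
    | mem v hv =>
      obtain ⟨i, rfl⟩ := hv
      refine ⟨fun i' => ?_, Finsupp.single_eq_of_ne (Finset.ne_of_mem_erase i.2).symm⟩
      rw [Finsupp.single_apply]
      split_ifs
      exacts [k.one_mem, k.zero_mem]
    | zero => exact ⟨fun _ => k.zero_mem, rfl⟩
    | add u v _ _ hu hv =>
      exact ⟨fun i => k.add_mem (hu.1 i) (hv.1 i), by simp [hu.2, hv.2]⟩
    | smul a u _ hu =>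
      exact ⟨fun i => k.mul_mem a.2 (hu.1 i), by simp [hu.2]⟩
  let φ : (Option (Fin n) → K.L) →ₗ[K.L] (I →₀ K.L) :=
    Fintype.linearCombination K.L fun o => o.elim (Finsupp.single l 1) b
  have hφ : ∀ c, φ c = c none • Finsupp.single l 1 + ∑ j, c (some j) • b j := fun c => by
    simp [φ, Fintype.linearCombination_apply, Fintype.sum_option]
  have hN : ∀ c, delL S0 (φ c) = ‖c‖₊ := fun c => by
    rw [hφ]
    exact orth hB k G l b hGk hGl (fun j => (hbk j).1) (fun j => (hbk j).2) hb2 c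
  let Z : Submodule K.L (I →₀ K.L) :=
    { carrier := {v | delL S0 v = 0}
      add_mem' := fun {u v} hu hv => (delL_null S0 hu v).trans hv
      zero_mem' := delL_mem S0 S0.zero_mem
      smul_mem' := fun c v hv => by
        have hv' : delL S0 v = 0 := hv
        show delL S0 (c • v) = 0
        rw [delL_smul, hv', mul_zero] }
  obtain ⟨r, hr⟩ := (Z.mkQ.comp φ).exists_leftInverse_of_injective (by
    rw [LinearMap.ker_eq_bot']
    intro c hc
    have : delL S0 (φ c) = 0 := (Submodule.Quotient.mk_eq_zero Z).1 hc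
    rw [hN] at this
    simpa using this)
  let lam := r.comp Z.mkQ
  have l1 : ∀ c, lam (φ c) = c := fun c => LinearMap.congr_fun hr c
  have l2 : ∀ v ∈ Z, lam v = 0 := fun v hv => by
    show r (Z.mkQ v) = 0
    rw [Submodule.mkQ_apply, (Submodule.Quotient.mk_eq_zero Z).2 hv, map_zero]
  set W := Z ⊔ LinearMap.range φ with hWd
  have hW : ∀ v ∈ W, delL S0 v = ‖lam v‖₊ := fun v hv => by
    obtain ⟨z, hz, _, ⟨c, rfl⟩, rfl⟩ := Submodule.mem_sup.1 hv
    rw [delL_null S0 hz, hN, map_add, l2 z hz, l1, zero_add]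
  have e1 : φ (Pi.single none 1) = Finsupp.single l 1 := by simp [hφ]
  have e2 : ∀ i : I0, Finsupp.single i.1 1 - φ (fun o => o.elim 0 fun j => (κ i j : K.L)) ∈ Z :=
    fun i => by
      show delL S0 _ = 0
      rw [hφ]
      simpa using hκ i
  have l3 : lam (Finsupp.single l 1) = Pi.single none 1 := by rw [← e1, l1]
  have l4 : ∀ i : I0, lam (Finsupp.single i.1 1) = fun o => o.elim 0 fun j => (κ i j : K.L) :=
    fun i => by
      have := l2 _ (e2 i)
      rwa [map_sub, l1, sub_eq_zero] at this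
  have w1 : Finsupp.single l 1 ∈ W := Submodule.mem_sup_right ⟨_, e1⟩
  have w2 : ∀ i : I0, Finsupp.single i.1 1 ∈ W := fun i =>
    Submodule.mem_sup.2 ⟨_, e2 i, _, ⟨_, rfl⟩, sub_add_cancel _ _⟩
  have dec : ∀ (w : E → ℤ) (g : Φ), evv K I w g.1 = K.ev w (g.1 l) • Finsupp.single l 1 +
      ∑ i : I0, K.ev w (g.1 i) • Finsupp.single i.1 1 := fun w g => by
    ext i
    rw [Finsupp.add_apply, Finsupp.finsetSum_apply, evv_apply]
    by_cases hi : i ∈ I0
    · rw [Finset.sum_eq_single ⟨i, hi⟩ (fun i' _ h => by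
        simp [Finsupp.single_eq_of_ne fun e : i = i'.1 => h (Subtype.ext e.symm)]) (by simp)]
      simp [Finsupp.single_eq_of_ne (Finset.ne_of_mem_erase hi)]
    · rw [Finset.sum_eq_zero fun i' _ => by
        simp [Finsupp.single_eq_of_ne fun e : i = i'.1 => hi (e ▸ i'.2)]]
      by_cases hl : i = l
      · simp [hl]
      · have : g.1 i = 0 := by
          by_contra hn
          exact hi (Finset.mem_erase.2 ⟨hl, Finset.mem_biUnion.2
            ⟨g.1, g.2, Finsupp.mem_support_iff.2 hn⟩⟩)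
        simp [this, Finsupp.single_eq_of_ne hl]
  refine ⟨n, fun g o => o.elim (spl K E1 w0 (g.1 l)) fun j =>
    ∑ i : I0, MvPolynomial.C (κ i j) * spl K E1 w0 (g.1 i), fun g o m hm => ?_, fun w hw => ?_⟩
  · rcases o with _ | j
    · exact ⟨l, by simp, spl_supp K E1 w0 _ hm⟩
    · simp only [Option.elim_some] at hm
      rw [MvPolynomial.mem_support_iff, MvPolynomial.coeff_sum] at hm
      obtain ⟨i, -, h⟩ := Finset.exists_ne_zero_of_sum_ne_zero hm
      rw [MvPolynomial.coeff_C_mul] at h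
      exact ⟨i, by simpa using Finset.ne_of_mem_erase i.2,
        spl_supp K E1 w0 _ (MvPolynomial.mem_support_iff.2 (right_ne_zero_of_mul h))⟩
  · have e3 : evv K I w (Finsupp.single l 1) = Finsupp.single l 1 := by
      show Finsupp.mapRange (K.ev w) (map_zero _) _ = _
      rw [Finsupp.mapRange_single, map_one]
    have hsp : ∀ y ∈ Submodule.span (P E) (insert (Finsupp.single l 1) R), evv K I w y ∈ W := by
      intro y hy
      refine (Submodule.span_le (p := W.comap (evv K I w))).2 ?_ hy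
      rintro ρ (rfl | hρ)
      · show evv K I w _ ∈ W
        rw [e3]
        exact w1
      · show evv K I w ρ ∈ W
        by_cases h : ρ ∈ Φ
        · rw [dec w ⟨ρ, h⟩]
          exact W.add_mem (W.smul_mem _ w1) (W.sum_mem fun i _ => W.smul_mem _ (w2 i))
        · exact Submodule.mem_sup_left (delL_mem S0 (hGw w hw ρ ⟨hρ, h⟩))
    refine ⟨lam.comp (evv K I w), fun g o => ?_, fun ρ hρ h => ?_, ?_, fun T h1 h2 y hy => ?_⟩
    · rw [LinearMap.comp_apply, dec w g, map_add, map_sum, map_smul, l3]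
      have hev : ∀ p, evs k K.τ (fun e : E1 => K.x e) (fun e => w e) (spl K E1 w0 p) = K.ev w p :=
        evs_spl K E1 w0 hw
      simp only [map_smul, l4]
      rcases o with _ | j
      · simp [hev]
      · simp only [Option.elim_some, map_sum, map_mul, hev]
        simp [evs, mul_comm]
    · exact l2 _ (delL_mem S0 (hGw w hw ρ ⟨hρ, h⟩))
    · rw [LinearMap.comp_apply, e3, l3]
    · rw [hD E I K w T y, LinearMap.coe_comp, Set.image_comp]
      refine dst_eq S0 W lam hW (evv K I w '' T) (Submodule.span_le.2 ?_)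
        (Submodule.span_le.2 ?_) (hsp y hy)
      · rintro _ ⟨ρ, hρ, rfl⟩
        refine Submodule.subset_span ⟨ρ, h1 hρ, Finsupp.ext fun i => ?_⟩
        obtain ⟨c, -, h⟩ := hfree ρ hρ i
        rw [evv_apply, evv_apply, h w hw, h w0 fun _ _ => rfl]
      · rintro _ ⟨t, ht, rfl⟩
        exact hsp t (h2 ht)

end Pool.Agent.PD3A
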