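import Pool.Agent.Lib.MP_d98eb9_al.TA.St

/-! One-variable theory, part 1: tools. -/

namespace Pool.Agent.PD3A

open Polynomial
open scoped NNReal Classical

namespace OVx

section Ring

variable {R : Type} [CommRing R] {ι Φ C : Type} [Fintype ι] [Fintype Φ]

lemma det_expand (r : ι → Φ → R) (M : Φ → ι → R) :
    (Matrix.of fun i j => ∑ g, r i g * M g j).det
      = ∑ J : ι → Φ, (∏ i, r i (J i)) * (Matrix.of fun i j => M (J i) j).det := by
  have h := (Matrix.detRowAlternating (R := R) (n := ι)).toMultilinearMap.map_sum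
    (fun i g => r i g • M g)
  have h1 : (Matrix.of fun i j => ∑ g, r i g * M g j) = fun i => ∑ g, r i g • M g := by
    ext i j
    simp [Finset.sum_apply]
  rw [h1]
  refine h.trans (Finset.sum_congr rfl fun J _ => ?_)
  exact (Matrix.detRowAlternating (R := R) (n := ι)).toMultilinearMap.map_smul_univ
    (fun i => r i (J i)) fun i => M (J i)

end Ring

section Nrm

variable {L : Type} [NormedField L]

lemma mm_equiv {ι ι' C : Type} [Fintype ι] [Fintype ι'] [Fintype C] (e : ι' ≃ ι)
    (y : ι → C → L) : mm (y ∘ e) = mm y := by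
  have key : ∀ f : ι → C, (Matrix.of fun i j => (y ∘ e) i ((f ∘ e) j)).det
      = (Matrix.of fun i j => y i (f j)).det := fun f =>
    Matrix.det_submatrix_equiv_self e (Matrix.of fun i j => y i (f j))
  apply le_antisymm
  · refine Finset.sup_le fun f _ => ?_
    have h := key (f ∘ e.symm)
    simp only [Function.comp_assoc, Equiv.symm_comp_self, Function.comp_id] at h
    rw [h]
    exact Finset.le_sup (f := fun f : ι → C => ‖(Matrix.of fun i j => y i (f j)).det‖₊)
      (Finset.mem_univ _)
  · refine Finset.sup_le fun f _ => ?_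
    rw [← key f]
    exact Finset.le_sup (f := fun f : ι' → C => ‖(Matrix.of fun i j => (y ∘ e) i (f j)).det‖₊)
      (Finset.mem_univ _)

lemma volL_congr {C : Type} [Fintype C] {S S' : Set (C → L)}
    (h : Submodule.span L S = Submodule.span L S') {u : ℕ} (y : Fin u → C → L) :
    volL S y = volL S' y := by
  simp only [volL, dst, Submodule.span_union, h]

lemma dst_of_mem {C : Type} [Fintype C] {S : Set (C → L)} {y : C → L}
    (h : y ∈ Submodule.span L S) : dst S y = 0 :=
  NNReal.eq (Metric.infDist_zero_of_mem h)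

variable [IsUltrametricDist L] {k : Subfield L}

lemma ev_le (t : L) (p : k[X]) (c : ℝ≥0)
    (h : ∀ i ∈ p.support, ‖(p.coeff i : L)‖₊ * ‖t‖₊ ^ i ≤ c) : ‖p.eval₂ k.subtype t‖₊ ≤ c := by
  rw [eval₂_eq_sum, Polynomial.sum]
  refine IsUltrametricDist.nnnorm_sum_le_of_forall_le fun i hi => ?_
  rw [nnnorm_mul, nnnorm_pow]
  exact h i hi

end Nrm

lemma mem_of_dst {L : Type} [NontriviallyNormedField L] [CompleteSpace L] {C : Type} [Fintype C]
    {S : Set (C → L)} {y : C → L} (h : dst S y = 0) : y ∈ Submodule.span L S :=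
  ((Submodule.span L S).closed_of_finiteDimensional.mem_iff_infDist_zero ⟨0, zero_mem _⟩).2
    (congrArg NNReal.toReal h)

/-- A generating tuple that starts with given rows of unit minor. -/
lemma gen {R : Type} [CommRing R] [IsDomain R] [IsPrincipalIdealRing R] {κ Φ C : Type}
    [Fintype κ] [Fintype Φ] [Fintype C] (M : Φ → C → R) (a : κ → Φ) (f : κ → C)
    (hu : IsUnit (Matrix.of fun i j => M (a i) (f j)).det) :
    ∃ (n : ℕ) (r : Fin n → Φ → R),
      LinearIndependent R (Sum.elim (M ∘ a) fun i j => ∑ g, r i g * M g j) ∧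
      ∀ g, ∃ c : κ ⊕ Fin n → R, ∀ j,
        M g j = ∑ p, c p * Sum.elim (M ∘ a) (fun i j => ∑ g, r i g * M g j) p j := by
  set A : Matrix κ κ R := Matrix.of fun i j => M (a i) (f j) with hA
  let Z : Submodule R (C → R) := LinearMap.ker (LinearMap.funLeft R R f)
  let N : Submodule R (C → R) := Submodule.span R (Set.range M) ⊓ Z
  obtain ⟨n, b⟩ := Submodule.basisOfPid (Pi.basisFun R C) N
  have h1 : ∀ i, ∃ c : Φ → R, ∑ g, c g • M g = (b i).1 := fun i =>
    (Submodule.mem_span_range_iff_exists_fun R).1 (b i).2.1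
  choose r hr using h1
  have h2 : (fun i j => ∑ g, r i g * M g j) = fun i => (b i).1 := by
    ext i j
    simp [← hr, Finset.sum_apply]
  have h3 : ∀ c : κ → R, ∑ i, c i • M (a i) ∈ Z → c = 0 := fun c hc => by
    have h4 : Matrix.vecMul c A = 0 := by
      ext j
      simpa [Matrix.vecMul, dotProduct, hA, Finset.sum_apply] using congrFun hc j
    have := congrArg (fun v => Matrix.vecMul v A⁻¹) h4
    simpa [Matrix.vecMul_vecMul, Matrix.mul_nonsing_inv _ hu] using this
  refine ⟨n, r, ?_, fun g => ?_⟩
  · rw [h2]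
    refine LinearIndependent.sum_type ?_ (b.linearIndependent.map' N.subtype (by simp)) ?_
    · exact Fintype.linearIndependent_iff.2 fun c hc => congrFun (h3 c (by
        have : ∑ i, c i • M (a i) = 0 := hc
        rw [this]; exact zero_mem _))
    · rw [Submodule.disjoint_def]
      intro z hz hz'
      obtain ⟨c, rfl⟩ := (Submodule.mem_span_range_iff_exists_fun R).1 hz
      have h5 : Submodule.span R (Set.range fun i => (b i).1) ≤ Z :=
        Submodule.span_le.2 (by rintro _ ⟨i, rfl⟩; exact (b i).2.2)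
      simp [h3 c (h5 hz')]
  · set c : κ → R := Matrix.vecMul (fun j => M g (f j)) A⁻¹ with hc
    have h4 : M g - ∑ i, c i • M (a i) ∈ N := by
      refine ⟨sub_mem (Submodule.subset_span ⟨g, rfl⟩) (Submodule.sum_mem _ fun i _ =>
        Submodule.smul_mem _ _ (Submodule.subset_span ⟨a i, rfl⟩)), ?_⟩
      have h5 : Matrix.vecMul c A = fun j => M g (f j) := by
        rw [hc, Matrix.vecMul_vecMul, Matrix.nonsing_inv_mul _ hu, Matrix.vecMul_one]
      change (M g - ∑ i, c i • M (a i)) ∘ f = 0
      ext j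
      have := congrFun h5 j
      simp only [Matrix.vecMul, dotProduct, hA, Matrix.of_apply] at this
      simp [Finset.sum_apply, this]
    refine ⟨Sum.elim c (b.repr ⟨_, h4⟩), fun j => ?_⟩
    have h6 := congrFun (congrArg Subtype.val (b.sum_repr ⟨_, h4⟩)) j
    simp only [Submodule.coe_sum, Submodule.coe_smul, Finset.sum_apply, Pi.smul_apply,
      smul_eq_mul, Pi.sub_apply] at h6
    rw [h2, Fintype.sum_sum_type]
    simp only [Sum.elim_inl, Sum.elim_inr, Function.comp_apply]
    rw [h6]
    ring

end OVx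

end Pool.Agent.PD3A
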