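import Pool.Agent.Lib.MP_d98eb9_al.TA.OV1

/-! Volumes are largest minors. -/

namespace Pool.Agent.PD3A

open scoped NNReal Classical

namespace RFx

variable {L : Type} [NormedField L] {ι C : Type} [Fintype ι] [Fintype C]

/-- the minor on the columns `f` -/
noncomputable abbrev mn (y : ι → C → L) (f : ι → C) : L := (Matrix.of fun i j => y i (f j)).det

lemma le_mm (y : ι → C → L) (f : ι → C) : ‖mn y f‖₊ ≤ mm y :=
  Finset.le_sup (f := fun f : ι → C => ‖mn y f‖₊) (Finset.mem_univ f)

lemma exists_max (y : ι → C → L) (h : mm y ≠ 0) : ∃ f, ‖mn y f‖₊ = mm y := by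
  by_cases hn : Nonempty (ι → C)
  · obtain ⟨f, -, hf⟩ := Finset.exists_mem_eq_sup Finset.univ Finset.univ_nonempty
      fun f : ι → C => ‖mn y f‖₊
    exact ⟨f, hf.symm⟩
  · exact absurd (le_antisymm (Finset.sup_le fun f _ => absurd ⟨f⟩ hn) (by simp)) h

omit [Fintype C] in
lemma mn_mul (G : Matrix ι ι L) (y : ι → C → L) (f : ι → C) :
    mn (fun i => ∑ p, G i p • y p) f = G.det * mn y f := by
  rw [mn, mn, ← Matrix.det_mul]
  congr 1
  ext i j
  simp [Matrix.mul_apply, Finset.sum_apply]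

lemma mm_mul (G : Matrix ι ι L) (y : ι → C → L) :
    mm (fun i => ∑ p, G i p • y p) = ‖G.det‖₊ * mm y := by
  rw [mm, mm, NNReal.mul_finset_sup]
  exact Finset.sup_congr rfl fun f _ => (congrArg _ (mn_mul G y f)).trans (nnnorm_mul _ _)

omit [Fintype C] in
/-- reduced rows -/
lemma red (y : ι → C → L) (f : ι → C) (h : mn y f ≠ 0) : ∃ G : Matrix ι ι L,
    G.det * mn y f = 1 ∧ (∀ i j, (∑ p, G i p • y p) (f j) = if i = j then 1 else 0) ∧
    (∀ i c, (∑ p, G i p • y p) c * mn y f = mn y (Function.update f i c)) ∧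
    ∀ z ∈ Submodule.span L (Set.range y), z = ∑ i, z (f i) • ∑ p, G i p • y p := by
  set A : Matrix ι ι L := Matrix.of fun i j => y i (f j) with hA
  have hu : IsUnit A.det := Ne.isUnit h
  have h1 : A⁻¹.det * mn y f = 1 := Matrix.det_nonsing_inv_mul_det _ hu
  have h2 : ∀ i j, (∑ p, A⁻¹ i p • y p) (f j) = if i = j then 1 else 0 := fun i j => by
    have := congrFun (congrFun (Matrix.nonsing_inv_mul A hu) i) j
    simpa [Matrix.mul_apply, Matrix.one_apply, Finset.sum_apply, hA] using this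
  refine ⟨A⁻¹, h1, h2, fun i c => ?_, fun z hz => ?_⟩
  · have h3 := mn_mul A⁻¹ y (Function.update f i c)
    have h4 : (Matrix.of fun i' j => (∑ p, A⁻¹ i' p • y p) (Function.update f i c j))
        = (1 : Matrix ι ι L).updateCol i fun i' => (∑ p, A⁻¹ i' p • y p) c := by
      ext i' j
      by_cases hj : j = i
      · subst hj
        simp
      · rw [Matrix.of_apply, Function.update_of_ne hj, h2, Matrix.updateCol_ne hj,
          Matrix.one_apply]
    rw [mn, h4, ← Matrix.cramer_apply, Matrix.cramer_one] at h3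
    change (∑ p, A⁻¹ i p • y p) c = _ at h3
    rw [h3, mul_right_comm, h1, one_mul]
  · obtain ⟨c, rfl⟩ := (Submodule.mem_span_range_iff_exists_fun L).1 hz
    have h3 : Matrix.vecMul (Matrix.vecMul c A) A⁻¹ = c := by
      rw [Matrix.vecMul_vecMul, Matrix.mul_nonsing_inv _ hu, Matrix.vecMul_one]
    simp only [Finset.smul_sum, smul_smul]
    rw [Finset.sum_comm]
    refine Finset.sum_congr rfl fun p _ => ?_
    rw [← Finset.sum_smul, ← congrFun h3 p]
    simp [Matrix.vecMul, dotProduct, hA, Finset.sum_apply]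

lemma mm_ne_iff (γ : ι → C → L) : mm γ ≠ 0 ↔ LinearIndependent L γ := by
  refine ⟨fun h => ?_, fun h h0 => ?_⟩
  · obtain ⟨f, hf⟩ := exists_max γ h
    exact LinearIndependent.of_comp (LinearMap.funLeft L L f)
      (Matrix.linearIndependent_rows_of_det_ne_zero (A := Matrix.of fun i j => γ i (f j))
        fun h0 => h (by rw [← hf, mn, h0, nnnorm_zero]))
  · have h1 := LinearIndependent.rank_matrix (M := Matrix.of γ) h
    obtain ⟨κ, a, ha, hsp, hli⟩ := exists_linearIndependent' L (Matrix.of γ).col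
    have : Finite κ := Finite.of_injective a ha
    let : Fintype κ := Fintype.ofFinite κ
    rw [Matrix.rank_eq_finrank_span_cols, ← hsp, finrank_span_eq_card hli] at h1
    let e := Fintype.equivOfCardEq h1.symm
    have h2 : IsUnit (Matrix.of fun i j => γ i ((a ∘ e) j)) :=
      Matrix.linearIndependent_cols_iff_isUnit.1 (hli.comp e e.injective)
    have h3 := le_mm γ (a ∘ e)
    rw [h0, nonpos_iff_eq_zero, nnnorm_eq_zero] at h3
    exact ((Matrix.isUnit_iff_isUnit_det _).1 h2).ne_zero h3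

variable [IsUltrametricDist L]

omit [Fintype C] in
lemma hada (A : Matrix ι ι L) (c : ι → ℝ≥0) (h : ∀ i j, ‖A i j‖₊ ≤ c i) :
    ‖A.det‖₊ ≤ ∏ i, c i := by
  rw [← Matrix.det_transpose, Matrix.det_apply']
  refine IsUltrametricDist.nnnorm_sum_le_of_forall_le fun σ _ => ?_
  rw [nnnorm_mul, nnnorm_prod]
  refine (mul_le_of_le_one_left (by simp) ?_).trans (Finset.prod_le_prod' fun i _ => h _ _)
  rcases Int.units_eq_one_or (Equiv.Perm.sign σ) with h | h <;> simp [h]

lemma core (γ : ι → C → L) (z : C → L) : mm (Sum.elim γ fun _ : Unit => z)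
    = mm γ * dst (Set.range γ) z := by
  by_cases h0 : mm γ = 0
  · rw [h0, zero_mul]
    by_contra h
    exact (mm_ne_iff γ).2 (((mm_ne_iff _).1 h).comp Sum.inl Sum.inl_injective) h0
  obtain ⟨f, hf⟩ := exists_max γ h0
  have hf0 : mn γ f ≠ 0 := fun h => h0 (by rw [← hf, h, nnnorm_zero])
  obtain ⟨G, h1, h2, h3, h4⟩ := red γ f hf0
  set Y : ι → C → L := fun i => ∑ p, G i p • γ p with hY
  have hY1 : ∀ i c, ‖Y i c‖₊ ≤ 1 := fun i c => by
    have h5 := le_mm γ (Function.update f i c)
    rw [← h3, nnnorm_mul, hf] at h5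
    exact le_of_mul_le_mul_right (by rwa [one_mul]) (pos_iff_ne_zero.2 h0)
  have hYm : ∀ c : ι → L, ∑ i, c i • Y i ∈ Submodule.span L (Set.range γ) := fun c =>
    Submodule.sum_mem _ fun i _ => Submodule.smul_mem _ _ (Submodule.sum_mem _ fun p _ =>
      Submodule.smul_mem _ _ (Submodule.subset_span ⟨p, rfl⟩))
  set z' : C → L := z - ∑ i, z (f i) • Y i with hz'
  have hd : dst (Set.range γ) z = ‖z'‖₊ := by
    apply le_antisymm
    · have := Metric.infDist_le_dist_of_mem (x := z) (hYm fun i => z (f i))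
      rw [dist_eq_norm] at this
      exact this
    · refine NNReal.coe_le_coe.1 ((Metric.le_infDist ⟨0, zero_mem _⟩).2 fun v hv => ?_)
      rw [dist_eq_norm]
      have h5 : z' = (z - v) - ∑ i, (z - v) (f i) • Y i := by
        simp only [Pi.sub_apply, sub_smul, Finset.sum_sub_distrib, hz']
        rw [← h4 v hv]
        abel
      rw [h5]
      change ‖_‖₊ ≤ ‖z - v‖₊
      refine (pi_nnnorm_le_iff).2 fun c => ?_
      rw [Pi.sub_apply, sub_eq_add_neg]
      refine (IsUltrametricDist.nnnorm_add_le_max _ _).trans (max_le (nnnorm_le_pi_nnnorm _ c) ?_)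
      rw [nnnorm_neg, Finset.sum_apply]
      refine IsUltrametricDist.nnnorm_sum_le_of_forall_le fun i _ => ?_
      rw [Pi.smul_apply, smul_eq_mul, nnnorm_mul]
      exact (mul_le_of_le_one_right (by simp) (hY1 i c)).trans (nnnorm_le_pi_nnnorm _ _)
  have h5 := mm_mul (Matrix.fromBlocks G 0 (Matrix.of fun _ p => -∑ i, z (f i) * G i p) 1)
    (Sum.elim γ fun _ : Unit => z)
  have h6 : (fun i => ∑ p, Matrix.fromBlocks G 0 (Matrix.of fun _ p => -∑ i, z (f i) * G i p)
      (1 : Matrix Unit Unit L) i p • Sum.elim γ (fun _ : Unit => z) p)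
      = Sum.elim Y fun _ : Unit => z' := by
    ext1 i
    rcases i with i | i
    · simp [Fintype.sum_sum_type, hY]
    · simp only [Fintype.sum_sum_type, hz', hY, Finset.smul_sum, smul_smul, Sum.elim_inr]
      rw [Finset.sum_comm]
      simp [Finset.sum_smul, sub_eq_neg_add]
  have h7 : mm (Sum.elim Y fun _ : Unit => z') = ‖z'‖₊ := by
    apply le_antisymm
    · refine Finset.sup_le fun g _ => (hada _ (Sum.elim (fun _ => 1) fun _ => ‖z'‖₊) ?_).trans
        (by simp [Fintype.prod_sum_type])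
      rintro (i | i) j
      · exact hY1 _ _
      · exact nnnorm_le_pi_nnnorm z' _
    · refine pi_nnnorm_le_iff.2 fun c => le_trans (le_of_eq ?_)
        (le_mm _ (Sum.elim f fun _ => c))
      have h8 : (Matrix.of fun i j => Sum.elim Y (fun _ : Unit => z') i
          (Sum.elim f (fun _ : Unit => c) j)) = Matrix.fromBlocks 1 (Matrix.of fun i _ => Y i c) 0
            (Matrix.of fun _ _ => z' c) := by
        ext (i | i) (j | j)
        · simpa [Matrix.one_apply, hY] using h2 i j
        · rfl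
        · have : ∀ i, Y i (f j) = if i = j then 1 else 0 := fun i => h2 i j
          simp [hz', Finset.sum_apply, this]
        · rfl
      rw [mn, h8]
      congr 1
      have h9 : (Matrix.fromBlocks (1 : Matrix ι ι L) (Matrix.of fun i (_ : Unit) => Y i c) 0
          (Matrix.of fun (_ _ : Unit) => z' c)).det = z' c := by simp
      refine h9.symm.trans ?_
      congr
  have h9 : (Matrix.fromBlocks G 0 (Matrix.of fun _ p => -∑ i, z (f i) * G i p)
      (1 : Matrix Unit Unit L)).det = G.det := by simp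
  rw [h6, h7] at h5
  rw [hd, h5, ← hf, ← mul_assoc, ← nnnorm_mul]
  refine (one_mul _).symm.trans (congrArg (· * _) ?_)
  rw [← nnnorm_one (G := L), ← h1, mul_comm, ← h9]
  congr

lemma gs (γ : ι → C → L) (u : ℕ) (y : Fin u → C → L) :
    mm γ * volL (Set.range γ) y = mm (Sum.elim γ y) := by
  induction u with
  | zero =>
    rw [volL, Fin.prod_univ_zero, mul_one, ← OVx.mm_equiv (Equiv.sumEmpty ι (Fin 0)).symm]
    rfl
  | succ u ih =>
    have h1 : ∀ i : Fin u, y '' Set.Iio i.castSucc = (y ∘ Fin.castSucc) '' Set.Iio i := fun i => by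
      rw [Set.image_comp, Fin.image_castSucc_Iio]
    have h2 : Set.range γ ∪ y '' Set.Iio (Fin.last u)
        = Set.range (Sum.elim γ (y ∘ Fin.castSucc)) := by
      rw [Set.Sum.elim_range, Set.range_comp, Fin.range_castSucc]
      rfl
    rw [volL, Fin.prod_univ_castSucc, ← mul_assoc, h2]
    simp only [h1]
    refine (congrArg (· * _) (ih (y ∘ Fin.castSucc))).trans ((core _ _).symm.trans ?_)
    rw [← OVx.mm_equiv ((Equiv.sumAssoc ι (Fin u) Unit).trans ((Equiv.refl ι).sumCongr
      ((Equiv.optionEquivSumPUnit _).symm.trans finSuccEquivLast.symm))) (Sum.elim γ y)]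
    congr 1
    ext1 p
    rcases p with (i | i) | i <;> simp

lemma piv (γ : ι → C → L) (o : C) (h0 : mm γ ≠ 0) : dst (Set.range γ) (Pi.single o 1) < 1 ↔
    ∀ f : ι → C, (∀ j, f j ≠ o) → ‖mn γ f‖₊ < mm γ := by
  have hlt : dst (Set.range γ) (Pi.single o 1) < 1 ↔
      ∃ z ∈ Submodule.span L (Set.range γ), ∀ c, ‖(Pi.single o 1 - z : C → L) c‖ < 1 := by
    rw [← NNReal.coe_lt_coe, dst, Metric.coe_infNndist, Metric.infDist_lt_iff ⟨0, zero_mem _⟩]
    simp only [dist_eq_norm, NNReal.coe_one, pi_norm_lt_iff one_pos, SetLike.mem_coe]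
  have key : ∀ f, ‖mn γ f‖₊ = mm γ → mn γ f ≠ 0 := fun f hf h => h0 (by rw [← hf, h, nnnorm_zero])
  rw [hlt]
  constructor
  · rintro ⟨z, hz, h1⟩ f hf
    refine lt_of_le_of_ne (le_mm γ f) fun he => ?_
    obtain ⟨G, -, -, h3, h4⟩ := red γ f (key f he)
    have h5 : ‖z o‖ < 1 := by
      change ‖z o‖₊ < (1 : ℝ≥0)
      rw [h4 z hz, Finset.sum_apply]
      refine lt_of_le_of_lt (Finset.nnnorm_sum_le_sup_nnnorm _ _)
        ((Finset.sup_lt_iff one_pos).2 fun i _ => ?_)
      have h6 := le_mm γ (Function.update f i o)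
      rw [← h3, nnnorm_mul, he] at h6
      have h7 := h1 (f i)
      rw [Pi.sub_apply, Pi.single_eq_of_ne (hf i), zero_sub, norm_neg] at h7
      rw [Pi.smul_apply, smul_eq_mul, nnnorm_mul]
      exact (mul_le_of_le_one_right (by simp) (le_of_mul_le_mul_right (by rwa [one_mul])
        (pos_iff_ne_zero.2 h0))).trans_lt h7
    have h6 := IsUltrametricDist.norm_add_le_max ((Pi.single o 1 - z : C → L) o) (z o)
    simp only [Pi.sub_apply, Pi.single_eq_same, sub_add_cancel, norm_one] at h6
    exact absurd h6 (not_le.2 (max_lt (by simpa using h1 o) h5))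
  · intro h
    obtain ⟨f, hf⟩ := exists_max γ h0
    obtain ⟨j, hj⟩ : ∃ j, f j = o := by
      by_contra h1
      push Not at h1
      exact (h f h1).ne hf
    obtain ⟨G, -, h2, h3, -⟩ := red γ f (key f hf)
    refine ⟨∑ p, G j p • γ p, Submodule.sum_mem _ fun p _ =>
      Submodule.smul_mem _ _ (Submodule.subset_span ⟨p, rfl⟩), fun c => ?_⟩
    by_cases hc : c = o
    · rw [Pi.sub_apply, hc, Pi.single_eq_same, ← hj, h2]
      simp
    · have h4 := h (Function.update f j c) fun i => by
        by_cases hi : i = j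
        · simpa [hi] using hc
        · rw [Function.update_of_ne hi]
          intro h5
          have h6 := h2 j i
          rw [h5, ← hj, h2, if_pos rfl, if_neg (Ne.symm hi)] at h6
          exact one_ne_zero h6
      rw [← h3, nnnorm_mul, hf] at h4
      rw [Pi.sub_apply, Pi.single_eq_of_ne hc, zero_sub, norm_neg]
      exact lt_of_mul_lt_mul_right (by rwa [one_mul] : _ < (1 : ℝ≥0) * mm γ) (by simp)

end RFx

theorem rf : RF := fun _ _ _ _ _ _ _ γ => ⟨RFx.gs γ, RFx.mm_ne_iff γ, RFx.piv γ⟩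

end Pool.Agent.PD3A
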